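import Mathlib
import Pool.Agent.N253.SM.Stm
import Pool.Agent.H713R2.Ext3

/-!
# Local connectivity of the Multibrot sets at parameters with a Lyapunov exponent: statements

Project LC, helper253. `f d c z = z ^ d + c`, `P d (j + 1) c = (f d c)^[j] c`.
A *ray of level `j`* for the parameter `c` is a curve `Y` with `f^j (Y t) = exp (d ^ j t) v`, `|v| = 1`:
a piece of an external ray of the polynomial lemniscate `{|f^j| = const}`.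
-/

set_option autoImplicit false

open Set Filter Metric Topology

namespace Pool.Agent.N253.LC

open Pool.Agent.TH279.MD Pool.Agent.Y298.SH Pool.Agent.Y298.SH.CD Pool.Agent.Y298.CA
open Pool.Agent.H713R2 (IsExteriorMap IsGm)
open Pool.Agent.H712R2 (P)

/-- Tracking backwards: the orbits of a connected family stay close to the orbit `A` if their end
points do. `D i` is `|(f^(n - i))' (A i)|`. -/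
def S_BACK : Prop := ∀ d : ℕ, 2 ≤ d → ∃ κ : ℝ, 0 < κ ∧ ∀ (n : ℕ) (a b s₀ lam ρ : ℝ) (z : ℕ → ℝ → ℂ)
  (γ : ℝ → ℂ) (D E : ℕ → ℝ), s₀ ∈ Icc a b → 0 ≤ lam → 0 ≤ ρ →
  (∀ i ≤ n, ContinuousOn (z i) (Icc a b)) →
  (∀ i < n, ∀ s ∈ Icc a b, z (i + 1) s = z i s ^ d + γ s) →
  (∀ s ∈ Icc a b, ‖γ s - γ s₀‖ ≤ ρ) → (∀ s ∈ Icc a b, ‖z n s - z n s₀‖ ≤ lam) →
  (∀ i < n, z i s₀ ≠ 0) → (∀ i < n, D i = D (i + 1) * (d * ‖z i s₀‖ ^ (d - 1))) → D n = 1 →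
  (∀ i ≤ n, E i = lam / D i + ρ * ∑ l ∈ Finset.Ico (i + 1) (n + 1), D l / D i) →
  ∑ i ∈ Finset.range n, E i / ‖z i s₀‖ ≤ κ →
  ∀ i ≤ n, ∀ s ∈ Icc a b, ‖z i s - z i s₀‖ ≤ 2 * E i

/-- The passage near the critical point, once more: the orbit does not escape during the passage. -/
def S_BND2 : Prop := ∀ (d : ℕ) (χ : ℝ) (c₀ : ℂ), 2 ≤ d → Lyap d χ c₀ →
  ∃ κ η K : ℝ, 0 < κ ∧ 0 < η ∧ 1 ≤ K ∧ ∀ Γ : ℝ, 1 ≤ Γ → ∃ δ₁ : ℝ, 0 < δ₁ ∧ δ₁ ≤ 1 / 4 ∧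
  ∀ (c y : ℂ), y ≠ 0 → ‖y‖ ≤ 2 * δ₁ → ‖c - c₀‖ ≤ ‖y‖ ^ d → ∃ k : ℕ,
    ((k : ℝ) + 1 ≤ K * (1 + Real.log (1 / ‖y‖))) ∧
    Γ * Real.exp (η * (k + 1 : ℕ)) ≤ ‖deriv ((f d c)^[k + 1]) y‖ ∧
    (∀ j ≤ k, ‖(f d c)^[j + 1] y‖ ≤ 3) ∧
    ∀ j < k, κ * ‖y‖ ^ (d - 1) ≤ ‖deriv ((f d c)^[j + 1]) y‖ ∧
      κ * Real.sqrt ‖y‖ ≤ ‖(f d c)^[j + 1] y‖

/-- Expansion, three forms: up to the time of escape; up to a return near the critical point;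
for orbits which stay away from the critical point. -/
def S_EXQ : Prop := ∀ (d : ℕ) (χ : ℝ) (c₀ : ℂ), 2 ≤ d → Lyap d χ c₀ →
  ∃ κ η a₁ A r₀ : ℝ, 0 < κ ∧ κ ≤ 1 ∧ 0 < η ∧ η ≤ Real.log d ∧ 0 < a₁ ∧ 1 ≤ A ∧ 0 < r₀ ∧
  ∀ (c : ℂ) (r : ℝ) (y : ℂ) (n : ℕ), 0 < r → r ≤ r₀ → ‖c - c₀‖ ≤ r →
    ((∀ j < n, ‖(f d c)^[j] y‖ ≤ 3) → 3 < ‖(f d c)^[n] y‖ → (∀ j < n, r ≤ ‖(f d c)^[j] y‖ ^ d) →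
      κ * Real.exp (η * n) ≤ ‖deriv ((f d c)^[n]) y‖) ∧
    (1 ≤ n → (∀ j ≤ n, ‖(f d c)^[j] y‖ ≤ 4) → (∀ j < n, r ≤ ‖(f d c)^[j] y‖ ^ d) →
      ‖(f d c)^[n] y‖ ≤ r ^ (3 / (4 * (d : ℝ))) →
      κ * Real.exp (η * n) * ‖y‖ ^ (-a₁) ≤ ‖deriv ((f d c)^[n]) y‖) ∧
    (∀ t : ℝ, 0 < t → t ≤ 1 → r ≤ t ^ d → (∀ j ≤ n, ‖(f d c)^[j] y‖ ≤ 4) →
      (∀ j < n, t ≤ ‖(f d c)^[j] y‖) → κ * t ^ A * Real.exp (η * n) ≤ ‖deriv ((f d c)^[n]) y‖)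

/-- Shadowing of the orbit of `c₀` at the scale `σ`, up to the scale `σ ^ (2 ε)`. -/
def S_SHAD : Prop := ∀ (d : ℕ) (χ : ℝ) (c₀ : ℂ), 2 ≤ d → Lyap d χ c₀ → ∀ ε : ℝ, 0 < ε → ε < 1 / 2 →
  ∃ C r₀ : ℝ, 1 ≤ C ∧ 0 < r₀ ∧ r₀ ≤ 1 / 4 ∧ ∀ σ : ℝ, 0 < σ → σ ≤ r₀ → ∃ n : ℕ,
    |n * χ - (1 - ε) * Real.log (1 / σ)| ≤ C ∧
    (∀ c x : ℂ, ‖c - c₀‖ ≤ σ → ‖x - c‖ ≤ σ → ∀ j ≤ n, ‖(f d c)^[j] x‖ ≤ 3) ∧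
    (∀ c x x' : ℂ, ‖c - c₀‖ ≤ σ → ‖x - c‖ ≤ σ → ‖x' - c‖ ≤ σ →
      σ ^ (2 * ε - 1) * ‖x - x'‖ ≤ ‖(f d c)^[n] x - (f d c)^[n] x'‖) ∧
    (∀ c c' : ℂ, ‖c - c₀‖ ≤ σ → ‖c' - c₀‖ ≤ σ →
      σ ^ (2 * ε - 1) * ‖c - c'‖ ≤ ‖(f d c)^[n] c - (f d c')^[n] c'‖)

/-- A curve which comes back near the critical point for the first time has small diameter. -/
def S_PULL : Prop := ∀ (d : ℕ) (χ : ℝ) (c₀ : ℂ), 2 ≤ d → Lyap d χ c₀ →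
  ∃ δ₀ η : ℝ, 0 < δ₀ ∧ δ₀ ≤ 1 / (4 * (d : ℝ)) ∧ 0 < η ∧ ∀ δ : ℝ, 0 < δ → δ ≤ δ₀ →
  ∃ C r₀ : ℝ, 1 ≤ C ∧ 0 < r₀ ∧ ∀ r : ℝ, 0 < r → r ≤ r₀ → ∀ c : ℂ, ‖c - c₀‖ ≤ r →
  ∀ (n : ℕ) (Y : ℝ → ℂ) (a b : ℝ), a ≤ b → ContinuousOn Y (Icc a b) →
    (∀ j < n, r ≤ ‖(f d c)^[j] (Y b)‖ ^ d) → (∀ j ≤ n, ‖(f d c)^[j] (Y b)‖ ≤ 4) →
    (∀ t ∈ Icc a b, ‖(f d c)^[n] (Y t)‖ ≤ r ^ (1 / (d : ℝ) - δ)) →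
    ∀ t ∈ Icc a b, ‖Y t - Y b‖ ≤ C * Real.exp (-(η * n)) * r ^ (1 / (d : ℝ) - δ)

/-- A piece of a ray of level `j` for the parameter `c`. -/
structure Ray (d : ℕ) (c : ℂ) (j : ℕ) (v : ℂ) (Y : ℝ → ℂ) (a b : ℝ) : Prop where
  le : a ≤ b
  cont : ContinuousOn Y (Icc a b)
  unit : ‖v‖ = 1
  eq : ∀ t ∈ Icc a b, (f d c)^[j] (Y t) = Real.exp ((d : ℝ) ^ j * t) * v
  four : 4 ≤ Real.exp ((d : ℝ) ^ j * a)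
  crit : ∀ i, 1 ≤ i → i ≤ j → ‖P d i c‖ < Real.exp ((d : ℝ) ^ j * a)

/-- The displacement along rays of level `j`. -/
def Disp (C E β T₀ : ℝ) (d : ℕ) (c : ℂ) (j : ℕ) : Prop :=
  ∀ (v : ℂ) (Y : ℝ → ℂ) (a b : ℝ), Ray d c j v Y a b → b ≤ T₀ → ‖Y a - Y b‖ ≤ C * b ^ β + E

/-- The derivative along a ray, in terms of the derivative up to the time `k` of escape. -/
def S_DER : Prop := ∀ d : ℕ, 2 ≤ d → ∃ C : ℝ, 1 ≤ C ∧ ∀ (c : ℂ) (j : ℕ) (v : ℂ) (Y : ℝ → ℂ)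
  (a b : ℝ), Ray d c j v Y a b → ‖c‖ ≤ 5 / 2 → b ≤ 1 → ∀ t ∈ Ioo a b, ∀ k : ℕ, k ≤ j →
  (∀ l < k, ‖(f d c)^[l] (Y t)‖ ≤ 3) → 3 < ‖(f d c)^[k] (Y t)‖ → (d : ℝ) ^ k * t ≤ C ∧
  ∃ y' : ℂ, HasDerivAt Y y' t ∧ ‖y'‖ * ‖deriv ((f d c)^[k]) (Y t)‖ ≤ C * d ^ k

/-- A curve with a bound for the derivative outside of some intervals. -/
def S_INT : Prop := ∀ (Y : ℝ → ℂ) (a b K β : ℝ) (N : ℕ) (p q e : ℕ → ℝ), 0 < a → a ≤ b → 0 ≤ K →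
  0 < β → β ≤ 1 → ContinuousOn Y (Icc a b) → (∀ i, 0 ≤ e i) →
  (∀ i < N, ∀ t ∈ Icc (p i) (q i), ∀ t' ∈ Icc (p i) (q i), t ∈ Icc a b → t' ∈ Icc a b →
    ‖Y t - Y t'‖ ≤ e i) →
  (∀ t ∈ Ioo a b, (∀ i < N, t ∉ Icc (p i) (q i)) →
    ∃ y' : ℂ, HasDerivAt Y y' t ∧ ‖y'‖ ≤ K * t ^ (β - 1)) →
  ‖Y a - Y b‖ ≤ K / β * b ^ β + ∑ i ∈ Finset.range N, e i

/-- A ray which has come very near the critical point stays near the critical point. -/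
def S_EXC : Prop := ∀ (d : ℕ) (χ : ℝ) (c₀ : ℂ), 2 ≤ d → Lyap d χ c₀ → ∀ (δ β C T₀ : ℝ), 0 < δ →
  δ ≤ 1 / (4 * (d : ℝ)) → 0 < β → β ≤ 1 → 1 ≤ C → 0 < T₀ → ∃ r₀ : ℝ, 0 < r₀ ∧ ∀ r : ℝ, 0 < r →
  r ≤ r₀ → ∀ c : ℂ, ‖c - c₀‖ ≤ r → ∀ j : ℕ,
  (∀ i < j, Disp C (C * r ^ (1 / (d : ℝ) - δ)) β T₀ d c i) →
  ∀ (v : ℂ) (Y : ℝ → ℂ) (a b : ℝ), Ray d c j v Y a b → ‖Y b‖ ^ d ≤ r →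
    ∀ t ∈ Icc a b, ‖Y t‖ < r ^ (1 / (d : ℝ) - δ)

/-- **The displacement along rays**, uniformly in the level and for all perturbations. -/
def S_DISP : Prop := ∀ (d : ℕ) (χ : ℝ) (c₀ : ℂ), 2 ≤ d → Lyap d χ c₀ →
  ∃ C β δ T₀ r₀ : ℝ, 1 ≤ C ∧ 0 < β ∧ β ≤ 1 ∧ 0 < δ ∧ δ ≤ 1 / (4 * (d : ℝ)) ∧ 0 < T₀ ∧ T₀ ≤ 1 / 2 ∧
  0 < r₀ ∧ ∀ r : ℝ, 0 < r → r ≤ r₀ → ∀ c : ℂ, ‖c - c₀‖ ≤ r → ∀ j : ℕ,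
  Disp C (C * r ^ (1 / (d : ℝ) - δ)) β T₀ d c j

/-- The points of a given level and angle hardly depend on the parameter. -/
def S_CMP : Prop := ∀ (d : ℕ) (χ : ℝ) (c₀ : ℂ), 2 ≤ d → Lyap d χ c₀ →
  ∃ A : ℝ, 1 ≤ A ∧ ∀ (r T : ℝ) (j : ℕ) (x γ : ℝ → ℂ) (u : ℂ), 0 < r → 0 < T → A * T ≤ 1 →
    r ≤ T ^ A → 4 ≤ Real.exp ((d : ℝ) ^ j * T) → ‖u‖ = Real.exp ((d : ℝ) ^ j * T) →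
    ContinuousOn x (Icc 0 1) → ContinuousOn γ (Icc 0 1) → (∀ s ∈ Icc (0 : ℝ) 1, ‖γ s - c₀‖ ≤ r) →
    (∀ s ∈ Icc (0 : ℝ) 1, (f d (γ s))^[j] (x s) = u) → ‖x 0 - x 1‖ ≤ r * T ^ (-A)

/-- The domain of the coordinates. -/
def DD (d j : ℕ) : Set (ℂ × ℂ) := {q | q.2 ≠ 0 ∧ ∀ i, 1 ≤ i → i ≤ j → ‖P d i q.1‖ < ‖q.2‖ ^ (d ^ j)}

/-- Coordinates near infinity: the approximations of the inverse of Boettcher's function, in a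
coherent way, and their relation to the coordinate of the parameter. -/
def S_COORD : Prop := ∀ d : ℕ, 2 ≤ d → ∃ X : ℕ → ℂ → ℂ → ℂ,
  (∀ j, ContinuousOn (fun q : ℂ × ℂ => X j q.1 q.2) (DD d j)) ∧
  (∀ j c w, (c, w) ∈ DD d j → (f d c)^[j] (X j c w) = w ^ (d ^ j)) ∧
  (∀ j c w, (c, w) ∈ DD d (j + 1) → f d c (X (j + 1) c w) = X j c (w ^ d)) ∧
  ∀ m, ∃ W : ℂ → ℂ, ∀ c, 2 < ‖P d (m + 1) c‖ → ContinuousAt W c ∧ (c, W c) ∈ DD d m ∧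
    W c ^ (d ^ m) = P d (m + 1) c ∧ X m c (W c) = c

/-- Two points of a parameter ray of finite level near `c₀`. -/
def S_TWO : Prop := ∀ (d : ℕ) (χ : ℝ) (c₀ : ℂ), 2 ≤ d → Lyap d χ c₀ → ∀ δ : ℝ, 0 < δ →
  ∃ R₀ : ℝ, 0 < R₀ ∧ ∀ R : ℝ, 0 < R → R ≤ R₀ → ∃ m₀ : ℕ, ∀ m : ℕ, m₀ ≤ m → ∀ (g : ℂ → ℂ) (u : ℂ),
  IsGm d m g → ‖u‖ = 1 → ∀ t₁ t₂ : ℝ, 4 ≤ Real.exp ((d : ℝ) ^ m * t₁) →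
  4 ≤ Real.exp ((d : ℝ) ^ m * t₂) →
  ‖Real.exp t₁ * u * g (Real.exp t₁ * u)⁻¹ - c₀‖ ≤ R →
  ‖Real.exp t₂ * u * g (Real.exp t₂ * u)⁻¹ - c₀‖ ≤ R →
  R / 8 ≤ ‖Real.exp t₁ * u * g (Real.exp t₁ * u)⁻¹ - Real.exp t₂ * u * g (Real.exp t₂ * u)⁻¹‖ →
  R ^ (Real.log d / χ + δ) ≤ max t₁ t₂

/-- The exterior map is the limit of the exterior maps of finite level. -/
def S_LIM : Prop := ∀ d : ℕ, 2 ≤ d → ∃ g : ℕ → ℂ → ℂ, (∀ m, IsGm d m (g m)) ∧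
  ∀ ψ : ℂ → ℂ, IsExteriorMap (N62a1eb23.multibrotSet d) ψ → ∀ w : ℂ, 1 < ‖w‖ →
    Tendsto (fun m => w * g m w⁻¹) (hyperfilter ℕ) (𝓝 (ψ w))

/-- Two points of an external ray of the Multibrot set near `c₀`, and the level near `c₀`. -/
def S_INF : Prop := ∀ (d : ℕ) (χ : ℝ) (c₀ : ℂ), 2 ≤ d → Lyap d χ c₀ → ∀ δ : ℝ, 0 < δ →
  δ < Real.log d / χ → ∃ R₀ : ℝ, 0 < R₀ ∧ ∀ ψ : ℂ → ℂ,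
  IsExteriorMap (N62a1eb23.multibrotSet d) ψ → ∀ R : ℝ, 0 < R → R ≤ R₀ → ∀ u : ℂ, ‖u‖ = 1 →
  (∀ t : ℝ, 0 < t → ‖ψ (Real.exp t * u) - c₀‖ ≤ R → t ≤ R ^ (Real.log d / χ - δ)) ∧
  ∀ t₁ t₂ : ℝ, 0 < t₁ → 0 < t₂ → ‖ψ (Real.exp t₁ * u) - c₀‖ ≤ R →
    ‖ψ (Real.exp t₂ * u) - c₀‖ ≤ R → R / 4 ≤ ‖ψ (Real.exp t₁ * u) - ψ (Real.exp t₂ * u)‖ →
    R ^ (Real.log d / χ + δ) ≤ max t₁ t₂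

/-- A continuum in `M`, if the rays which begin on a segment do not go far. -/
def S_CON : Prop := ∀ (M : Set ℂ) (ψ : ℂ → ℂ) (c c₀ : ℂ) (R : ℝ), IsCompact M →
  IsExteriorMap M ψ → c ∈ M → c₀ ∈ M → ‖c - c₀‖ ≤ R →
  (∀ w : ℂ, 1 < ‖w‖ → ψ w ∈ segment ℝ c c₀ → ∀ t : ℝ, 1 < t → t ≤ ‖w‖ →
    ‖ψ (t * (w / ‖w‖)) - c₀‖ ≤ R) →
  ∃ S : Set ℂ, S ⊆ M ∧ IsCompact S ∧ IsConnected S ∧ c ∈ S ∧ c₀ ∈ S ∧ S ⊆ closedBall c₀ R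

/-- Koebe distortion near the circle. -/
def S_KOE : Prop := ∃ K : ℝ, 1 ≤ K ∧ ∀ ψ : ℂ → ℂ, DifferentiableOn ℂ ψ {z | 1 < ‖z‖} →
  InjOn ψ {z | 1 < ‖z‖} → ∀ (t : ℝ) (w w' x : ℂ), 0 < t → t ≤ 1 / 8 → 1 + t ≤ ‖w‖ →
  1 + t ≤ ‖w'‖ → ‖w - w'‖ ≤ 4 * t → x ∉ ψ '' {z | 1 < ‖z‖} → ‖ψ w - ψ w'‖ ≤ K * ‖ψ w - x‖

end Pool.Agent.N253.LC
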