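import Mathlib
import Pool.Agent.N253.LC.Stm

/-!
# Project LC: tracking backwards

`t_BACK : S_BACK`. The orbits of a connected family stay close to one of them if their end points do.
-/

set_option autoImplicit false

open Set Filter Metric Topology

namespace Pool.Agent.N253.LC

theorem back_pow (n : ℕ) (h : ℂ) :
    ‖(1 + h) ^ n - 1 - n * h‖ ≤ (1 + ‖h‖) ^ n - 1 - n * ‖h‖ := by
  induction n with
  | zero => simp
  | succ n ih =>
    have e1 : (1 + h) ^ (n + 1) - 1 - ((n + 1 : ℕ) : ℂ) * h
        = (1 + h) * ((1 + h) ^ n - 1 - n * h) + n * h ^ 2 := by push_cast; ring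
    have e2 : (1 + ‖h‖) ^ (n + 1) - 1 - ((n + 1 : ℕ) : ℝ) * ‖h‖
        = (1 + ‖h‖) * ((1 + ‖h‖) ^ n - 1 - n * ‖h‖) + n * ‖h‖ ^ 2 := by push_cast; ring
    rw [e1, e2]
    refine (norm_add_le _ _).trans (add_le_add ?_ ?_)
    · rw [norm_mul]
      have h1 : ‖1 + h‖ ≤ 1 + ‖h‖ := by
        refine (norm_add_le _ _).trans ?_
        simp
      exact mul_le_mul h1 ih (norm_nonneg _) (by positivity)
    · rw [norm_mul, norm_pow]
      simp

theorem back_pow2 (d : ℕ) (h : ℂ) (hx : d * ‖h‖ ≤ 1) :
    d * ‖h‖ - (d * ‖h‖) ^ 2 ≤ ‖(1 + h) ^ d - 1‖ := by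
  have h1 := back_pow d h
  have h0 : 0 ≤ d * ‖h‖ := by positivity
  have h2 : (1 + ‖h‖) ^ d ≤ Real.exp (d * ‖h‖) := by
    have : 1 + ‖h‖ ≤ Real.exp ‖h‖ := by linarith [Real.add_one_le_exp ‖h‖]
    calc (1 + ‖h‖) ^ d ≤ (Real.exp ‖h‖) ^ d := pow_le_pow_left₀ (by positivity) this d
      _ = Real.exp (d * ‖h‖) := by rw [← Real.exp_nat_mul]
  have h3 : Real.exp (d * ‖h‖) - 1 - d * ‖h‖ ≤ (d * ‖h‖) ^ 2 := by
    have := Real.abs_exp_sub_one_sub_id_le (x := d * ‖h‖) (by rw [abs_of_nonneg h0]; exact hx)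
    exact (le_abs_self _).trans this
  have h4 : ‖(d : ℂ) * h‖ = d * ‖h‖ := by rw [norm_mul]; simp
  have h5 : ‖(d : ℂ) * h‖ ≤ ‖(1 + h) ^ d - 1‖ + ‖(1 + h) ^ d - 1 - d * h‖ := by
    have : (d : ℂ) * h = ((1 + h) ^ d - 1) - ((1 + h) ^ d - 1 - d * h) := by ring
    calc ‖(d : ℂ) * h‖ = ‖((1 + h) ^ d - 1) - ((1 + h) ^ d - 1 - d * h)‖ := by rw [← this]
      _ ≤ _ := norm_sub_le _ _
  rw [h4] at h5
  linarith

/-- The local inequality, in the coordinate `y = d |z - a| / |a|`. -/
theorem back_loc (d : ℕ) (hd : 1 ≤ d) (z a : ℂ) (ha : a ≠ 0) (hx : d * (‖z - a‖ / ‖a‖) ≤ 1) :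
    d * ‖a‖ ^ (d - 1) * (‖z - a‖ * (1 - d * (‖z - a‖ / ‖a‖))) ≤ ‖z ^ d - a ^ d‖ := by
  have hR : 0 < ‖a‖ := norm_pos_iff.2 ha
  have e1 : ‖z - a‖ / ‖a‖ = ‖(z - a) / a‖ := by rw [norm_div]
  have h1 := back_pow2 d ((z - a) / a) (by rw [← e1]; exact hx)
  have e2 : z ^ d - a ^ d = a ^ d * ((1 + (z - a) / a) ^ d - 1) := by
    have : (1 + (z - a) / a) = z / a := by field_simp; ring
    rw [this, div_pow]
    have : a ^ d ≠ 0 := pow_ne_zero _ ha
    field_simp
  rw [e2, norm_mul, norm_pow]
  rw [← e1] at h1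
  have e3 : d * ‖a‖ ^ (d - 1) * (‖z - a‖ * (1 - d * (‖z - a‖ / ‖a‖)))
      = ‖a‖ ^ d * (d * (‖z - a‖ / ‖a‖) - (d * (‖z - a‖ / ‖a‖)) ^ 2) := by
    obtain ⟨e, rfl⟩ : ∃ e, d = e + 1 := ⟨d - 1, by omega⟩
    simp only [Nat.add_sub_cancel]
    rw [pow_succ]
    field_simp
  rw [e3]
  exact mul_le_mul_of_nonneg_left h1 (by positivity)

/-- The real inequality: `y (1 - y) ≤ q`, `y ≤ 1/2` and `q` small. -/
theorem back_real (y q : ℝ) (hy : 0 ≤ y) (hy2 : y ≤ 1 / 2) (_hq : q ≤ 1 / 8)
    (h : y * (1 - y) ≤ q) : y ≤ q * (1 + 4 * q) := by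
  have h1 : y ≤ 2 * q := by nlinarith
  have hq0 : 0 ≤ q := by linarith
  -- `y (1 - 2 q) ≤ q`
  have h2 : y * (1 - 2 * q) ≤ q := by nlinarith
  by_contra hcon
  push Not at hcon
  nlinarith [mul_pos (show (0:ℝ) < 1 - 2 * q by linarith) (sub_pos.2 hcon)]

theorem t_BACK : S_BACK := by
  intro d hd
  have hd0 : (0 : ℝ) < d := by exact_mod_cast (by omega : 0 < d)
  refine ⟨1 / (100 * d), by positivity, ?_⟩
  intro n a b s₀ lam ρ z γ D E hs₀ hlam hρ hcont hz hγ hn hz0 hD hDn hE hsum i hi s hs
  -- positivity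
  have hR : ∀ i < n, 0 < ‖z i s₀‖ := fun i hi => norm_pos_iff.2 (hz0 i hi)
  have hDpos : ∀ m ≤ n, 0 < D (n - m) := by
    intro m
    induction m with
    | zero => intro _; simp [hDn]
    | succ m ih =>
      intro hm
      have h1 := ih (by omega)
      have h2 := hD (n - (m + 1)) (by omega)
      have h3 : n - (m + 1) + 1 = n - m := by omega
      rw [h3] at h2
      rw [h2]
      have := hR (n - (m + 1)) (by omega)
      positivity
  have hDpos' : ∀ i ≤ n, 0 < D i := by
    intro i hi
    have := hDpos (n - i) (by omega)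
    rwa [show n - (n - i) = i by omega] at this
  have hEnn : ∀ i ≤ n, 0 ≤ E i := by
    intro i hi
    rw [hE i hi]
    have h1 := hDpos' i hi
    refine add_nonneg (by positivity) (mul_nonneg hρ (Finset.sum_nonneg ?_))
    intro l hl
    rw [Finset.mem_Ico] at hl
    have := hDpos' l (by omega)
    positivity
  -- recursion
  have hrec : ∀ i < n, d * ‖z i s₀‖ ^ (d - 1) * E i = E (i + 1) + ρ := by
    intro i hi
    have h1 := hDpos' i hi.le
    have h2 := hDpos' (i + 1) hi
    have hM : 0 < d * ‖z i s₀‖ ^ (d - 1) := by have := hR i hi; positivity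
    set M := d * ‖z i s₀‖ ^ (d - 1) with hMdef
    have h3 : D i = D (i + 1) * M := hD i hi
    rw [hE i hi.le, hE (i + 1) hi, Finset.sum_eq_sum_Ico_succ_bot (by omega : i + 1 < n + 1)]
    have e1 : M * (lam / D i) = lam / D (i + 1) := by
      rw [h3]; field_simp
    have e2 : M * (D (i + 1) / D i) = 1 := by
      rw [h3]; field_simp
    have e3 : M * ∑ l ∈ Finset.Ico (i + 1 + 1) (n + 1), D l / D i
        = ∑ l ∈ Finset.Ico (i + 1 + 1) (n + 1), D l / D (i + 1) := by
      rw [Finset.mul_sum]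
      refine Finset.sum_congr rfl fun l _ => ?_
      rw [h3]; field_simp
    calc M * (lam / D i + ρ * (D (i + 1) / D i
          + ∑ l ∈ Finset.Ico (i + 1 + 1) (n + 1), D l / D i))
        = M * (lam / D i) + ρ * (M * (D (i + 1) / D i))
          + ρ * (M * ∑ l ∈ Finset.Ico (i + 1 + 1) (n + 1), D l / D i) := by ring
      _ = _ := by rw [e1, e2, e3]; ring
  -- the sums
  set S : ℕ → ℝ := fun i => ∑ k ∈ Finset.Ico i n, E k / ‖z k s₀‖ with hSdef
  have hterm : ∀ k < n, 0 ≤ E k / ‖z k s₀‖ := fun k hk =>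
    div_nonneg (hEnn k hk.le) (norm_nonneg _)
  have hSle : ∀ i, S i ≤ 1 / (100 * d) := by
    intro i
    refine le_trans ?_ hsum
    simp only [hSdef]
    refine Finset.sum_le_sum_of_subset_of_nonneg ?_ ?_
    · intro k hk
      rw [Finset.mem_Ico] at hk
      exact Finset.mem_range.2 hk.2
    · intro k hk _
      exact hterm k (Finset.mem_range.1 hk)
  have hSsucc : ∀ i < n, S i = E i / ‖z i s₀‖ + S (i + 1) := by
    intro i hi
    simp only [hSdef]
    rw [Finset.sum_eq_sum_Ico_succ_bot hi]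
  have hexp : ∀ i, Real.exp (8 * d * S i) ≤ 2 := by
    intro i
    have h1 : 8 * d * S i ≤ 8 / 100 := by
      have := mul_le_mul_of_nonneg_left (hSle i) (by positivity : (0:ℝ) ≤ 8 * d)
      calc 8 * d * S i ≤ 8 * d * (1 / (100 * d)) := this
        _ = 8 / 100 := by field_simp
    have h2 : Real.exp (8 / 100 : ℝ) ≤ 2 := by
      have := Real.exp_one_lt_d9
      have h3 : Real.exp (8 / 100 : ℝ) ≤ Real.exp (1 / 2) := Real.exp_le_exp.2 (by norm_num)
      have h4 : Real.exp (1 / 2 : ℝ) ^ 2 = Real.exp 1 := by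
        rw [← Real.exp_nat_mul]; norm_num
      nlinarith [Real.exp_pos (1 / 2 : ℝ)]
    exact (Real.exp_le_exp.2 h1).trans h2
  -- the claim
  have key : ∀ m ≤ n, ∀ s ∈ Icc a b,
      ‖z (n - m) s - z (n - m) s₀‖ ≤ Real.exp (8 * d * S (n - m)) * E (n - m) := by
    intro m
    induction m with
    | zero =>
      intro _ s hs
      have h1 : E n = lam := by rw [hE n le_rfl, hDn]; simp
      have h2 : S n = 0 := by simp [hSdef]
      simp only [Nat.sub_zero]
      rw [h1, h2]
      simpa using hn s hs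
    | succ m ih =>
      intro hm s hs
      obtain ⟨i, rfl⟩ : ∃ i, n = i + 1 + m := ⟨n - (m + 1), by omega⟩
      have e1 : i + 1 + m - (m + 1) = i := by omega
      have e2 : i + 1 + m - m = i + 1 := by omega
      rw [e1]
      rw [e2] at ih
      have ih' := ih (by omega)
      have hi : i < i + 1 + m := by omega
      have hRi := hR i hi
      set R := ‖z i s₀‖ with hRdef
      have hEi := hEnn i hi.le
      set W := Real.exp (8 * d * S (i + 1)) with hW
      have hWpos : 0 < W := Real.exp_pos _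
      have hW1 : W ≤ 2 := hexp (i + 1)
      have hWge : 1 ≤ W := by
        rw [hW]
        refine Real.one_le_exp ?_
        have : 0 ≤ S (i + 1) := by
          simp only [hSdef]
          refine Finset.sum_nonneg fun k hk => ?_
          rw [Finset.mem_Ico] at hk
          exact hterm k hk.2
        positivity
      have hMpos : 0 < d * R ^ (d - 1) := by positivity
      have hdiff : ∀ s ∈ Icc a b, ‖z i s ^ d - z i s₀ ^ d‖ ≤ d * R ^ (d - 1) * (W * E i) := by
        intro s hs
        have h1 := hz i hi s hs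
        have h2 := hz i hi s₀ hs₀
        have e : z i s ^ d - z i s₀ ^ d = (z (i + 1) s - z (i + 1) s₀) - (γ s - γ s₀) := by
          rw [h1, h2]; ring
        rw [e]
        refine (norm_sub_le _ _).trans ?_
        have h3 := ih' s hs
        have h4 := hγ s hs
        have h5 := hrec i hi
        have h6 : d * R ^ (d - 1) * (W * E i) = W * (E (i + 1) + ρ) := by
          rw [← h5]; ring
        rw [h6]
        nlinarith
      -- the quantity `y`
      set y : ℝ → ℝ := fun s => d * (‖z i s - z i s₀‖ / R) with hy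
      have hycont : ContinuousOn y (Icc a b) := by
        have h1 := hcont i hi.le
        simp only [hy]
        exact continuousOn_const.mul (((h1.sub continuousOn_const).norm).div_const _)
      have hy0 : y s₀ = 0 := by simp [hy]
      have hynn : ∀ s, 0 ≤ y s := fun s => by simp only [hy]; positivity
      set q : ℝ := W * (d * (E i / R)) with hq
      have hER : d * (E i / R) ≤ 1 / 100 := by
        have h1 : E i / R ≤ 1 / (100 * d) := by
          refine le_trans ?_ (hSle i)
          rw [hSsucc i hi]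
          have : 0 ≤ S (i + 1) := by
            simp only [hSdef]
            refine Finset.sum_nonneg fun k hk => ?_
            rw [Finset.mem_Ico] at hk
            exact hterm k hk.2
          linarith
        calc d * (E i / R) ≤ d * (1 / (100 * d)) := mul_le_mul_of_nonneg_left h1 hd0.le
          _ = 1 / 100 := by field_simp
      have hER0 : 0 ≤ d * (E i / R) := by positivity
      have hq1 : q ≤ 1 / 50 := by
        rw [hq]; nlinarith
      have hyq : ∀ s ∈ Icc a b, y s ≤ 1 → y s * (1 - y s) ≤ q := by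
        intro s hs hys
        have h1 := back_loc d (by omega) (z i s) (z i s₀) (hz0 i hi) hys
        have h2 := h1.trans (hdiff s hs)
        have h3 := le_of_mul_le_mul_left h2 hMpos
        have e3 : y s * (1 - y s) = (d / R) * (‖z i s - z i s₀‖ * (1 - y s)) := by
          simp only [hy]; field_simp
        have e4 : q = (d / R) * (W * E i) := by rw [hq]; field_simp
        rw [e3, e4]
        exact mul_le_mul_of_nonneg_left h3 (by positivity)
      have hylt : ∀ s ∈ Icc a b, y s ≤ 1 / 2 := by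
        intro s hs
        by_contra hcon
        push Not at hcon
        have h1 := isPreconnected_Icc.intermediate_value hs₀ hs hycont
        have h2 : (1 / 2 : ℝ) ∈ Icc (y s₀) (y s) := by
          rw [hy0]; exact ⟨by norm_num, hcon.le⟩
        obtain ⟨s₁, hs₁, hs₁'⟩ := h1 h2
        have h3 := hyq s₁ hs₁ (by rw [hs₁']; norm_num)
        rw [hs₁'] at h3
        norm_num at h3
        linarith
      have h1 := hylt s hs
      have h2 := back_real (y s) q (hynn s) h1 (by linarith) (hyq s hs (by linarith))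
      -- conclusion
      have h3 : 1 + 4 * q ≤ Real.exp (8 * d * (E i / R)) := by
        have : 4 * q ≤ 8 * d * (E i / R) := by
          rw [hq]; nlinarith
        linarith [Real.add_one_le_exp (8 * d * (E i / R))]
      have hqnn : 0 ≤ q := by rw [hq]; positivity
      have h4 : y s ≤ q * Real.exp (8 * d * (E i / R)) :=
        h2.trans (mul_le_mul_of_nonneg_left h3 hqnn)
      have e5 : Real.exp (8 * d * S i) = W * Real.exp (8 * d * (E i / R)) := by
        rw [hSsucc i hi, hW, ← Real.exp_add]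
        congr 1
        ring
      have e6 : ‖z i s - z i s₀‖ = (R / d) * y s := by
        simp only [hy]; field_simp
      have e7 : Real.exp (8 * d * S i) * E i = (R / d) * (q * Real.exp (8 * d * (E i / R))) := by
        rw [e5, hq]; field_simp
      rw [e6, e7]
      exact mul_le_mul_of_nonneg_left h4 (by positivity)
  have h1 := key (n - i) (by omega) s hs
  rw [show n - (n - i) = i by omega] at h1
  exact h1.trans (mul_le_mul_of_nonneg_right (hexp i) (hEnn i hi))

end Pool.Agent.N253.LC
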