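import Pool.Agent.N253.LC.Stm

/-!
Project LC (helper253), task CMP (helper456): dependence of the ray points on the parameter.
-/

set_option autoImplicit false

open Set Filter Metric Topology

namespace Pool.Agent.N253.LC.Cmp_

open Pool.Agent.TH279.MD Pool.Agent.N253.LC

lemma diff_it (d : ℕ) (c : ℂ) (j : ℕ) (y : ℂ) : DifferentiableAt ℂ ((f d c)^[j]) y := by
  induction j generalizing y with
  | zero => exact differentiableAt_id
  | succ j ih =>
    rw [Function.iterate_succ]
    refine DifferentiableAt.comp y (ih _) ?_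
    unfold f
    fun_prop

lemma deriv_it_succ (d : ℕ) (c : ℂ) (j : ℕ) (y : ℂ) :
    deriv ((f d c)^[j + 1]) y = d * ((f d c)^[j] y) ^ (d - 1) * deriv ((f d c)^[j]) y := by
  rw [Function.iterate_succ']
  have h1 : HasDerivAt (f d c) (d * ((f d c)^[j] y) ^ (d - 1)) ((f d c)^[j] y) := by
    unfold f
    exact (hasDerivAt_pow d _).add_const c
  exact (h1.comp y (diff_it d c j y).hasDerivAt).deriv

/-- the product of the derivatives from the time `i` to the time `l` -/
noncomputable def MM (d : ℕ) (a : ℕ → ℂ) (i l : ℕ) : ℝ :=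
  ∏ m ∈ Finset.Ico i l, ((d : ℝ) * ‖a m‖ ^ (d - 1))

lemma MM_eq (d : ℕ) (c y : ℂ) (i n : ℕ) :
    MM d (fun m => (f d c)^[m] y) i (i + n) = ‖deriv ((f d c)^[n]) ((f d c)^[i] y)‖ := by
  induction n with
  | zero =>
    unfold MM
    simp
  | succ n ih =>
    rw [deriv_it_succ, norm_mul, norm_mul, norm_pow, ← ih, ← Function.iterate_add_apply]
    unfold MM
    rw [← add_assoc, Finset.prod_Ico_succ_top (by omega), Complex.norm_natCast, add_comm n i]
    ring

lemma up {d : ℕ} (hd : 2 ≤ d) {c : ℂ} (hc : ‖c‖ ≤ 3) {z : ℂ} (hz : ‖z‖ ≤ 3) (m : ℕ) :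
    ‖(f d c)^[m] z‖ ≤ 4 ^ (d ^ m) - 1 := by
  induction m with
  | zero =>
    simp only [Function.iterate_zero, id_eq, pow_zero, pow_one]
    linarith
  | succ m ih =>
    rw [Function.iterate_succ_apply']
    set w := (f d c)^[m] z with hw
    have h1 : ‖f d c w‖ ≤ ‖w‖ ^ d + 3 := by
      unfold f
      refine (norm_add_le _ _).trans ?_
      rw [norm_pow]
      linarith
    have hq : 1 ≤ d ^ m := Nat.one_le_pow _ _ (by omega)
    set Q : ℝ := 4 ^ (d ^ m) with hQ
    have hQ4 : 4 ≤ Q := by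
      calc (4 : ℝ) = 4 ^ 1 := by norm_num
        _ ≤ Q := pow_le_pow_right₀ (by norm_num) hq
    have h2 : ‖w‖ ^ d ≤ (Q - 1) ^ d := pow_le_pow_left₀ (norm_nonneg _) ih d
    obtain ⟨e, rfl⟩ : ∃ e, d = e + 1 := ⟨d - 1, by omega⟩
    have he : 1 ≤ e := by omega
    have h3 : (Q - 1) ^ e ≤ Q ^ e := pow_le_pow_left₀ (by linarith) (by linarith) e
    have h4 : Q ≤ Q ^ e := by
      calc Q = Q ^ 1 := (pow_one _).symm
        _ ≤ Q ^ e := pow_le_pow_right₀ (by linarith) he
    have h5 : (4 : ℝ) ^ ((e + 1) ^ (m + 1)) = Q ^ (e + 1) := by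
      rw [hQ, ← pow_mul]
      ring_nf
    rw [h5]
    have h6 : (Q - 1) ^ (e + 1) ≤ (Q - 1) * Q ^ e := by
      rw [pow_succ, mul_comm]
      exact mul_le_mul_of_nonneg_left h3 (by linarith)
    calc ‖f (e + 1) c w‖ ≤ ‖w‖ ^ (e + 1) + 3 := h1
      _ ≤ (Q - 1) * Q ^ e + 3 := by linarith
      _ ≤ Q ^ (e + 1) - 1 := by
        rw [pow_succ]
        nlinarith

lemma low {d : ℕ} (hd : 2 ≤ d) {c : ℂ} (hc : ‖c‖ ≤ 5 / 2) {z : ℂ} (hz : 3 < ‖z‖) (m : ℕ) :
    3 * 2 ^ m ≤ ‖(f d c)^[m] z‖ := by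
  induction m with
  | zero => simp; linarith
  | succ m ih =>
    rw [Function.iterate_succ_apply']
    set w := (f d c)^[m] z with hw
    have h0 : (1 : ℝ) ≤ 2 ^ m := one_le_pow₀ (by norm_num)
    have hw3 : 3 ≤ ‖w‖ := by linarith
    have h1 : ‖w‖ ^ 2 ≤ ‖w‖ ^ d := pow_le_pow_right₀ (by linarith) hd
    have h2 : ‖w‖ ^ d ≤ ‖f d c w‖ + ‖c‖ := by
      have : w ^ d = f d c w - c := by unfold f; ring
      rw [← norm_pow, this]
      exact norm_sub_le _ _
    rw [pow_succ]
    nlinarith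

lemma geo (n : ℕ) : ∑ m ∈ Finset.range n, ((1 : ℝ) / 2) ^ m ≤ 2 := by
  have h : ∑ m ∈ Finset.range n, ((1 : ℝ) / 2) ^ m = 2 - 2 * (1 / 2) ^ n := by
    induction n with
    | zero => simp
    | succ n ih => rw [Finset.sum_range_succ, ih, pow_succ]; ring
  rw [h]
  have : (0 : ℝ) ≤ (1 / 2) ^ n := by positivity
  linarith

lemma geo2 (j k : ℕ) (hk : k ≤ j) :
    ∑ l ∈ Finset.range (j + 1), ((1 : ℝ) / 2) ^ (l - k) ≤ k + 2 := by
  have h1 : j + 1 = k + (j + 1 - k) := by omega
  rw [h1, Finset.sum_range_add]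
  have h2 : ∑ l ∈ Finset.range k, ((1 : ℝ) / 2) ^ (l - k) = k := by
    have : ∀ l ∈ Finset.range k, ((1 : ℝ) / 2) ^ (l - k) = 1 := by
      intro l hl
      rw [Finset.mem_range] at hl
      rw [Nat.sub_eq_zero_of_le hl.le, pow_zero]
    rw [Finset.sum_congr rfl this]
    simp
  have h3 : ∑ x ∈ Finset.range (j + 1 - k), ((1 : ℝ) / 2) ^ (k + x - k) ≤ 2 := by
    simp only [Nat.add_sub_cancel_left]
    exact geo _
  rw [h2]
  linarith

lemma MM_split {d : ℕ} {a : ℕ → ℂ} {i l j : ℕ} (h1 : i ≤ l) (h2 : l ≤ j) :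
    MM d a i j = MM d a i l * MM d a l j :=
  (Finset.prod_Ico_consecutive _ h1 h2).symm

lemma MM_pos {d : ℕ} (hd : 2 ≤ d) {a : ℕ → ℂ} {j : ℕ} (ha : ∀ i < j, a i ≠ 0) {i l : ℕ}
    (hl : l ≤ j) : 0 < MM d a i l := by
  refine Finset.prod_pos fun m hm => ?_
  rw [Finset.mem_Ico] at hm
  have h1 : 0 < ‖a m‖ := norm_pos_iff.mpr (ha m (by omega))
  have h2 : (0 : ℝ) < d := by exact_mod_cast (by omega : 0 < d)
  positivity

lemma MM_two {d : ℕ} (hd : 2 ≤ d) {a : ℕ → ℂ} {k : ℕ} (h3 : ∀ l, k ≤ l → 1 ≤ ‖a l‖) {i l : ℕ}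
    (hi : k ≤ i) : 2 ^ (l - i) ≤ MM d a i l := by
  have h : (2 : ℝ) ^ (l - i) = ∏ m ∈ Finset.Ico i l, (2 : ℝ) := by
    rw [Finset.prod_const, Nat.card_Ico]
  rw [h]
  refine Finset.prod_le_prod (fun _ _ => by norm_num) fun m hm => ?_
  rw [Finset.mem_Ico] at hm
  have h1 : 1 ≤ ‖a m‖ ^ (d - 1) := one_le_pow₀ (h3 m (by omega))
  have h2 : (2 : ℝ) ≤ d := by exact_mod_cast hd
  nlinarith

/-- the two bounds of the sums -/
lemma core {d : ℕ} (hd : 2 ≤ d) {a : ℕ → ℂ} {j k : ℕ} (hk : k ≤ j) {θ : ℝ} (hθ : 0 < θ)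
    (ha : ∀ i < j, a i ≠ 0) (h1 : ∀ i l, i ≤ l → l < k → θ ≤ MM d a i l)
    (h2 : 1 ≤ k → 1 ≤ (d : ℝ) * ‖a (k - 1)‖ ^ (d - 1)) (h3 : ∀ l, k ≤ l → 1 ≤ ‖a l‖) :
    (∀ i < k, ∑ l ∈ Finset.Ico (i + 1) (j + 1), MM d a l j / MM d a i j ≤ (k + 2) / θ) ∧
    (∀ i, k ≤ i → ∑ l ∈ Finset.Ico (i + 1) (j + 1), MM d a l j / MM d a i j ≤ 1) := by
  have hr : ∀ i l, i ≤ l → l ≤ j → MM d a l j / MM d a i j = 1 / MM d a i l := by
    intro i l hil hlj
    rw [MM_split hil hlj]
    have p1 := MM_pos hd ha (i := i) hlj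
    have p2 := MM_pos hd ha (i := l) le_rfl
    field_simp
  constructor
  · intro i hi
    have hb : ∀ l, i < l → l ≤ j → 1 / MM d a i l ≤ 1 / θ * (1 / 2) ^ (l - k) := by
      intro l hil hlj
      have hlow : θ * 2 ^ (l - k) ≤ MM d a i l := by
        rcases Nat.lt_or_ge l k with hlk | hlk
        · rw [Nat.sub_eq_zero_of_le hlk.le, pow_zero, mul_one]
          exact h1 i l hil.le hlk
        · rw [MM_split (by omega : i ≤ k) hlk, MM_split (by omega : i ≤ k - 1) (by omega : k - 1 ≤ k)]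
          have e1 := h1 i (k - 1) (by omega) (by omega)
          have e2 : 1 ≤ MM d a (k - 1) k := by
            have := h2 (by omega)
            unfold MM
            rw [show Finset.Ico (k - 1) k = {k - 1} by
              ext x; simp only [Finset.mem_Ico, Finset.mem_singleton]; omega]
            rw [Finset.prod_singleton]
            exact this
          have e3 := MM_two (l := l) hd h3 (le_refl k)
          have e4 : θ ≤ MM d a i (k - 1) * MM d a (k - 1) k := by nlinarith
          exact mul_le_mul e4 e3 (by positivity) (by nlinarith)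
      have hp : 0 < θ * 2 ^ (l - k) := by positivity
      calc 1 / MM d a i l ≤ 1 / (θ * 2 ^ (l - k)) := one_div_le_one_div_of_le hp hlow
        _ = 1 / θ * (1 / 2) ^ (l - k) := by rw [one_div_pow]; field_simp
    calc ∑ l ∈ Finset.Ico (i + 1) (j + 1), MM d a l j / MM d a i j
        ≤ ∑ l ∈ Finset.Ico (i + 1) (j + 1), 1 / θ * (1 / 2) ^ (l - k) := by
          refine Finset.sum_le_sum fun l hl => ?_
          rw [Finset.mem_Ico] at hl
          rw [hr i l (by omega) (by omega)]
          exact hb l (by omega) (by omega)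
      _ ≤ ∑ l ∈ Finset.range (j + 1), 1 / θ * (1 / 2) ^ (l - k) := by
          refine Finset.sum_le_sum_of_subset_of_nonneg ?_ fun _ _ _ => by positivity
          intro l hl
          rw [Finset.mem_Ico] at hl
          rw [Finset.mem_range]
          omega
      _ ≤ 1 / θ * (k + 2) := by
          rw [← Finset.mul_sum]
          exact mul_le_mul_of_nonneg_left (geo2 j k hk) (by positivity)
      _ = (k + 2) / θ := by ring
  · intro i hi
    have hb : ∀ l, i < l → l ≤ j → 1 / MM d a i l ≤ (1 / 2) ^ (l - i) := by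
      intro l hil hlj
      have e3 := MM_two (l := l) hd h3 hi
      calc 1 / MM d a i l ≤ 1 / 2 ^ (l - i) := one_div_le_one_div_of_le (by positivity) e3
        _ = (1 / 2) ^ (l - i) := by rw [one_div_pow]
    calc ∑ l ∈ Finset.Ico (i + 1) (j + 1), MM d a l j / MM d a i j
        ≤ ∑ l ∈ Finset.Ico (i + 1) (j + 1), (1 / 2) ^ (l - i) := by
          refine Finset.sum_le_sum fun l hl => ?_
          rw [Finset.mem_Ico] at hl
          rw [hr i l (by omega) (by omega)]
          exact hb l (by omega) (by omega)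
      _ = ∑ m ∈ Finset.range (j + 1 - (i + 1)), (1 / 2 : ℝ) ^ (m + 1) := by
          rw [Finset.sum_Ico_eq_sum_range]
          refine Finset.sum_congr rfl fun m _ => ?_
          congr 1
          omega
      _ = 1 / 2 * ∑ m ∈ Finset.range (j + 1 - (i + 1)), (1 / 2 : ℝ) ^ m := by
          rw [Finset.mul_sum]
          exact Finset.sum_congr rfl fun m _ => by rw [pow_succ]; ring
      _ ≤ 1 := by
          have := geo (j + 1 - (i + 1))
          linarith

/-- escape from the ball of radius three takes time -/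
lemma time_bound {d : ℕ} (hd : 2 ≤ d) {c y : ℂ} (hc : ‖c‖ ≤ 3) {T : ℝ} {i j : ℕ} (hij : i ≤ j)
    (hi : ‖(f d c)^[i] y‖ ≤ 3) (hj : ‖(f d c)^[j] y‖ = Real.exp ((d : ℝ) ^ j * T)) :
    (d : ℝ) ^ i * T < 2 := by
  obtain ⟨m, rfl⟩ := Nat.exists_eq_add_of_le hij
  have h1 := up hd hc hi m
  rw [← Function.iterate_add_apply, add_comm m i, hj] at h1
  have hd0 : (0 : ℝ) < d := by exact_mod_cast (by omega : 0 < d)
  have h2 : Real.exp ((d : ℝ) ^ (i + m) * T) < Real.exp ((d : ℝ) ^ m * 2) := by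
    have h3 : (4 : ℝ) < Real.exp 2 := by
      have : (4 : ℝ) = Real.exp (Real.log 4) := (Real.exp_log (by norm_num)).symm
      rw [this, Real.exp_lt_exp]
      have h4 : Real.log 4 = 2 * Real.log 2 := by
        rw [show (4 : ℝ) = 2 ^ 2 by norm_num, Real.log_pow]
        norm_num
      have := Real.log_two_lt_d9
      linarith
    have h5 : Real.exp ((d : ℝ) ^ m * 2) = Real.exp 2 ^ (d ^ m) := by
      rw [← Real.exp_nat_mul]
      push_cast
      rfl
    have h6 : (4 : ℝ) ^ (d ^ m) ≤ Real.exp 2 ^ (d ^ m) :=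
      pow_le_pow_left₀ (by norm_num) h3.le _
    rw [h5]
    linarith
  rw [Real.exp_lt_exp, pow_add] at h2
  have h7 : (0 : ℝ) < (d : ℝ) ^ m := by positivity
  have h8 : (d : ℝ) ^ m * ((d : ℝ) ^ i * T) < (d : ℝ) ^ m * 2 := by
    calc _ = (d : ℝ) ^ i * (d : ℝ) ^ m * T := by ring
      _ < _ := h2
  exact lt_of_mul_lt_mul_left h8 h7.le

theorem main (h1 : S_SHAD) (h2 : S_EXQ) (h3 : S_BACK) : S_CMP := by
  intro d χ c₀ hd hL
  obtain ⟨CS, rS, hCS, hrS0, hrS4, hS⟩ := h1 d χ c₀ hd hL (1 / 4) (by norm_num) (by norm_num)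
  obtain ⟨κ, η, a₁, A₀, rE, hκ0, hκ1, hη, hηd, ha1, hA0, hrE, hE⟩ := h2 d χ c₀ hd hL
  obtain ⟨κB, hκB, hB⟩ := h3 d hd
  have hχ : 0 < χ := hL.1
  have hc0 : ‖c₀‖ ≤ 2 := norm_le_two hd hL.2.1
  have hd2 : (2 : ℝ) ≤ d := by exact_mod_cast hd
  have hld : 0 < Real.log d := Real.log_pos (by linarith)
  set α : ℝ := Real.log d / χ with hα_def
  have hα : 0 < α := by positivity
  set A1 : ℝ := 8 / (3 * α) + 1 with hA1_def
  have hA1 : 1 ≤ A1 := by
    have : 0 < 8 / (3 * α) := by positivity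
    linarith
  set C1 : ℝ := 4 * Real.exp (α * CS) with hC1_def
  have hC1 : 0 < C1 := by positivity
  have p1 : 0 < 1 / rS := by positivity
  have p2 : 0 < 1 / rE := by positivity
  have p3 : 0 < 16 / κ := by positivity
  have p4 : 0 < (16 / κ + 4) / κB := by positivity
  have p5 : 0 < A1 * d := by positivity
  have p6 : 0 < A1 * A₀ := by positivity
  refine ⟨C1 + 1 / rS + 1 / rE + (16 / κ + 4) + (16 / κ + 4) / κB + A1 * d + A1 + A1 * A₀ + 4,
    by linarith, ?_⟩
  set A : ℝ := C1 + 1 / rS + 1 / rE + (16 / κ + 4) + (16 / κ + 4) / κB + A1 * d + A1 + A1 * A₀ + 4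
    with hA_def
  intro r T j x γ u hr hT hAT hrT h4 hu hx hγ hγr hxu
  have hle : ∀ B : ℝ, B ≤ A → T * B ≤ 1 := fun B hB' => by
    have := mul_le_mul_of_nonneg_left hB' hT.le
    linarith
  have hT4 : T ≤ 1 / 4 := by
    have := hle 4 (by linarith)
    linarith
  have hT1 : T ≤ 1 := by linarith
  have hTC : T * C1 ≤ 1 := hle _ (by linarith)
  have hTS : T ≤ rS := by
    have := hle (1 / rS) (by linarith)
    rwa [mul_one_div, div_le_one hrS0] at this
  have hTE : T ≤ rE := by
    have := hle (1 / rE) (by linarith)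
    rwa [mul_one_div, div_le_one hrE] at this
  have hTk : T * (16 / κ + 4) ≤ 1 := hle _ (by linarith)
  have hTB : T * (16 / κ + 4) ≤ κB := by
    have := hle ((16 / κ + 4) / κB) (by linarith)
    rwa [← mul_div_assoc, div_le_one hκB] at this
  have hpow : ∀ B : ℝ, B ≤ A → r ≤ T ^ B := fun B hB' =>
    hrT.trans (Real.rpow_le_rpow_of_exponent_ge hT hT1 hB')
  have hr1 : r ≤ T := by
    have := hpow 1 (by linarith)
    rwa [Real.rpow_one] at this
  have h00 : (0 : ℝ) ∈ Icc (0 : ℝ) 1 := ⟨le_rfl, zero_le_one⟩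
  have h11 : (1 : ℝ) ∈ Icc (0 : ℝ) 1 := ⟨zero_le_one, le_rfl⟩
  set c : ℂ := γ 0 with hc_def
  set y : ℂ := x 0 with hy_def
  set a : ℕ → ℂ := fun i => (f d c)^[i] y with ha_def
  have hcr : ‖c - c₀‖ ≤ r := hγr 0 h00
  have hcn : ‖c‖ ≤ 5 / 2 := by
    have : ‖c‖ ≤ ‖c - c₀‖ + ‖c₀‖ := by
      calc ‖c‖ = ‖(c - c₀) + c₀‖ := by rw [sub_add_cancel]
        _ ≤ _ := norm_add_le _ _
    linarith
  have hcn3 : ‖c‖ ≤ 3 := by linarith
  have haj : ‖a j‖ = Real.exp ((d : ℝ) ^ j * T) := by
    rw [ha_def]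
    simp only
    rw [hxu 0 h00, hu]
  have ha_succ : ∀ i, a (i + 1) = f d c (a i) := fun i => Function.iterate_succ_apply' _ _ _
  have ha_add : ∀ i l, (f d c)^[l] (a i) = a (l + i) := fun i l =>
    (Function.iterate_add_apply _ _ _ _).symm
  have hlogT : Real.log T < 0 := Real.log_neg hT (by linarith)
  -- the lower bound
  have hlow : ∀ i < j, T ^ A1 ≤ ‖a i‖ ^ d := by
    intro i hij
    by_cases hb : rS < ‖a i‖ ^ d
    · have : T ^ A1 ≤ T ^ (1 : ℝ) := Real.rpow_le_rpow_of_exponent_ge hT hT1 hA1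
      rw [Real.rpow_one] at this
      linarith
    · rw [not_lt] at hb
      by_contra hcon
      rw [not_le] at hcon
      set σ : ℝ := max (‖a i‖ ^ d) r with hσ_def
      have hσ0 : 0 < σ := lt_max_of_lt_right hr
      have hσS : σ ≤ rS := max_le hb (by linarith)
      have hσA : σ ≤ T ^ A1 := max_le hcon.le (hpow A1 (by linarith))
      obtain ⟨n, hn1, hn2, -, -⟩ := hS σ hσ0 hσS
      have hx1 : ‖a (i + 1) - c‖ ≤ σ := by
        rw [ha_succ]
        have : f d c (a i) - c = a i ^ d := by unfold f; ring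
        rw [this, norm_pow]
        exact le_max_left _ _
      have hn3 := hn2 c (a (i + 1)) (hcr.trans (le_max_right _ _)) hx1
      have hlt : i + 1 + n < j := by
        by_contra hge
        have h5 := hn3 (j - (i + 1)) (by omega)
        rw [ha_add, show j - (i + 1) + (i + 1) = j by omega, haj] at h5
        linarith
      have h6 := hn3 n le_rfl
      rw [ha_add, add_comm n (i + 1)] at h6
      have hT2 := time_bound hd hcn3 hlt.le h6 haj
      have hT3 : (d : ℝ) ^ n * T < 2 := by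
        have : (d : ℝ) ^ n ≤ (d : ℝ) ^ (i + 1 + n) :=
          pow_le_pow_right₀ (by linarith) (by omega)
        have := mul_le_mul_of_nonneg_right this hT.le
        linarith
      have hlg : n * Real.log d + Real.log T < Real.log 2 := by
        have := Real.log_lt_log (by positivity) hT3
        rwa [Real.log_mul (by positivity) hT.ne', Real.log_pow] at this
      have hn4 := (abs_le.mp hn1).1
      have hlσ : Real.log (1 / σ) = -Real.log σ := by rw [one_div, Real.log_inv]
      rw [hlσ] at hn4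
      have hn5 : n * Real.log d = α * (n * χ) := by
        rw [hα_def]
        field_simp
      have hlC : Real.log T + (Real.log 4 + α * CS) ≤ 0 := by
        have := Real.log_le_log (by positivity) hTC
        rwa [Real.log_one, Real.log_mul hT.ne' hC1.ne', hC1_def,
          Real.log_mul (by norm_num) (Real.exp_ne_zero _), Real.log_exp] at this
      have hl24 : Real.log 2 ≤ Real.log 4 := Real.log_le_log (by norm_num) (by norm_num)
      have hlσ2 : Real.log σ ≤ A1 * Real.log T := by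
        have := Real.log_le_log hσ0 hσA
        rwa [Real.log_rpow hT] at this
      have h7 : α * (3 / 4 * (A1 * (-Real.log T)) - CS) ≤ α * (n * χ) :=
        mul_le_mul_of_nonneg_left (by linarith) hα.le
      have h8 : α * (3 / 4 * A1) = 2 + 3 / 4 * α := by
        rw [hA1_def]
        field_simp
        ring
      have h9 : 0 < α * (-Real.log T) := mul_pos hα (neg_pos.mpr hlogT)
      have h10 : α * (3 / 4 * (A1 * (-Real.log T)) - CS) =
          (α * (3 / 4 * A1)) * (-Real.log T) - α * CS := by ring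
      rw [h10, h8] at h7
      have h11 : (2 + 3 / 4 * α) * (-Real.log T) = -(2 * Real.log T) + 3 / 4 * (α * (-Real.log T)) := by
        ring
      rw [h11] at h7
      clear_value α A1 C1 σ A
      linarith
  set t : ℝ := T ^ A1 with ht_def
  have ht0 : 0 < t := Real.rpow_pos_of_pos hT _
  have ht1 : t ≤ 1 := Real.rpow_le_one hT.le hT1 (by linarith)
  have hat : ∀ i < j, t ≤ ‖a i‖ := by
    intro i hij
    rcases le_total ‖a i‖ 1 with h | h
    · exact (hlow i hij).trans (pow_le_of_le_one (norm_nonneg _) h (by omega))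
    · exact ht1.trans h
  have hrt : r ≤ t ^ d := by
    have := hpow (A1 * d) (by linarith)
    rwa [Real.rpow_mul_natCast hT.le] at this
  have hane : ∀ i < j, a i ≠ 0 := fun i hij => norm_pos_iff.mp (ht0.trans_le (hat i hij))
  -- the time of escape
  have hex : ∃ k, 3 < ‖a k‖ := ⟨j, by rw [haj]; linarith⟩
  classical
  set k : ℕ := Nat.find hex with hk_def
  have hk3 : 3 < ‖a k‖ := Nat.find_spec hex
  have hkm : ∀ l < k, ‖a l‖ ≤ 3 := fun l hl => not_lt.mp (Nat.find_min hex hl)
  have hkj : k ≤ j := Nat.find_min' hex (by rw [haj]; linarith)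
  set θ : ℝ := κ * t ^ A₀ with hθ_def
  have hθ : 0 < θ := by positivity
  have c1 : ∀ i l, i ≤ l → l < k → θ ≤ MM d a i l := by
    intro i l hil hlk
    obtain ⟨n, rfl⟩ := Nat.exists_eq_add_of_le hil
    have e1 := (hE c r (a i) n hr (hr1.trans hTE) hcr).2.2 t ht0 ht1 hrt
      (fun m hm => by
        rw [ha_add]
        have := hkm (m + i) (by omega)
        linarith)
      (fun m hm => by
        rw [ha_add]
        exact hat _ (by omega))
    have e2 : MM d a i (i + n) = ‖deriv ((f d c)^[n]) (a i)‖ := MM_eq d c y i n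
    rw [e2]
    have e3 : 1 ≤ Real.exp (η * n) := Real.one_le_exp (by positivity)
    calc θ = θ * 1 := (mul_one _).symm
      _ ≤ θ * Real.exp (η * n) := mul_le_mul_of_nonneg_left e3 hθ.le
      _ ≤ _ := e1
  have c2 : 1 ≤ k → 1 ≤ (d : ℝ) * ‖a (k - 1)‖ ^ (d - 1) := by
    intro hk1
    have e1 : a k = f d c (a (k - 1)) := by
      have := ha_succ (k - 1)
      rwa [Nat.sub_add_cancel hk1] at this
    have e2 : ‖a k‖ ≤ ‖a (k - 1)‖ ^ d + 5 / 2 := by
      rw [e1]
      unfold f
      refine (norm_add_le _ _).trans ?_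
      rw [norm_pow]
      linarith
    have e3 : 1 / 2 ≤ ‖a (k - 1)‖ ^ (d - 1) := by
      rcases le_total ‖a (k - 1)‖ 1 with h | h
      · have : ‖a (k - 1)‖ ^ d ≤ ‖a (k - 1)‖ ^ (d - 1) :=
          pow_le_pow_of_le_one (norm_nonneg _) h (by omega)
        linarith
      · have := one_le_pow₀ h (n := d - 1)
        linarith
    calc (1 : ℝ) = 2 * (1 / 2) := by norm_num
      _ ≤ d * ‖a (k - 1)‖ ^ (d - 1) := mul_le_mul hd2 e3 (by norm_num) (by positivity)
  have c3' : ∀ l, k ≤ l → 3 * 2 ^ (l - k) ≤ ‖a l‖ := by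
    intro l hl
    have := low hd hcn hk3 (l - k)
    rwa [ha_add, Nat.sub_add_cancel hl] at this
  have c3 : ∀ l, k ≤ l → 1 ≤ ‖a l‖ := by
    intro l hl
    have h5 := c3' l hl
    have h6 : (1 : ℝ) ≤ 2 ^ (l - k) := one_le_pow₀ (by norm_num)
    linarith
  obtain ⟨b1, b2⟩ := core hd hkj hθ hane c1 c2 c3
  have hkT : (k : ℝ) ≤ 2 / T := by
    rcases Nat.eq_zero_or_pos k with h | h
    · rw [h]
      simp only [Nat.cast_zero]
      positivity
    · have e1 := time_bound hd hcn3 (by omega : k - 1 ≤ j) (hkm (k - 1) (by omega)) haj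
      have e2 : k ≤ 2 ^ (k - 1) := by
        have := Nat.lt_two_pow_self (n := k - 1)
        omega
      have e3 : (k : ℝ) ≤ 2 ^ (k - 1) := by exact_mod_cast e2
      have e4 : (2 : ℝ) ^ (k - 1) ≤ (d : ℝ) ^ (k - 1) := pow_le_pow_left₀ (by norm_num) hd2 _
      rw [le_div_iff₀ hT]
      have := mul_le_mul_of_nonneg_right (e3.trans e4) hT.le
      linarith
  have hk2T : (k : ℝ) + 2 ≤ 4 / T := by
    have : 2 ≤ 2 / T := by
      rw [le_div_iff₀ hT]
      linarith
    have h5 : 4 / T = 2 / T + 2 / T := by ring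
    linarith
  set w : ℝ := T ^ (A1 * A₀) with hw_def
  have hw0 : 0 < w := Real.rpow_pos_of_pos hT _
  have hθw : θ = κ * w := by
    rw [hθ_def, ht_def, hw_def, Real.rpow_mul hT.le]
  have heT : T ^ (4 + A1 * A₀ + A1) = T ^ 4 * w * t := by
    rw [Real.rpow_add hT, Real.rpow_add hT]
    norm_cast
  have hrw : r ≤ T ^ 4 * w * t := heT ▸ hpow (4 + A1 * A₀ + A1) (by linarith)
  have hTA : T ^ A ≤ T ^ 4 * w * t := by
    rw [← heT]
    exact Real.rpow_le_rpow_of_exponent_ge hT hT1 (by linarith : 4 + A1 * A₀ + A1 ≤ A)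
  -- tracking backwards
  set E : ℕ → ℝ := fun i => 0 / MM d a i j +
    2 * r * ∑ l ∈ Finset.Ico (i + 1) (j + 1), MM d a l j / MM d a i j with hE_def
  have hE1 : ∀ i < k, E i ≤ 2 * r * ((k + 2) / θ) := by
    intro i hi
    rw [hE_def]
    simp only [zero_div, zero_add]
    exact mul_le_mul_of_nonneg_left (b1 i hi) (by linarith)
  have hE2 : ∀ i, k ≤ i → E i ≤ 2 * r := by
    intro i hi
    rw [hE_def]
    simp only [zero_div, zero_add]
    calc 2 * r * ∑ l ∈ Finset.Ico (i + 1) (j + 1), MM d a l j / MM d a i j ≤ 2 * r * 1 :=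
          mul_le_mul_of_nonneg_left (b2 i hi) (by linarith)
      _ = 2 * r := mul_one _
  have hsum : ∑ i ∈ Finset.range j, E i / ‖a i‖ ≤ κB := by
    have e0 : j = k + (j - k) := by omega
    rw [e0, Finset.sum_range_add]
    have e1 : ∑ i ∈ Finset.range k, E i / ‖a i‖ ≤ k * (2 * r * ((k + 2) / θ) / t) := by
      calc ∑ i ∈ Finset.range k, E i / ‖a i‖ ≤
            ∑ i ∈ Finset.range k, 2 * r * ((k + 2) / θ) / t := by
            refine Finset.sum_le_sum fun i hi => ?_
            rw [Finset.mem_range] at hi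
            have q1 := hat i (by omega)
            have q2 : 0 ≤ 2 * r * (((k : ℝ) + 2) / θ) := by positivity
            calc E i / ‖a i‖ ≤ 2 * r * ((k + 2) / θ) / ‖a i‖ :=
                  div_le_div_of_nonneg_right (hE1 i hi) (norm_nonneg _)
              _ ≤ 2 * r * ((k + 2) / θ) / t := div_le_div_of_nonneg_left q2 ht0 q1
        _ = _ := by simp
    have e2 : ∑ m ∈ Finset.range (j - k), E (k + m) / ‖a (k + m)‖ ≤ 2 * r := by
      calc ∑ m ∈ Finset.range (j - k), E (k + m) / ‖a (k + m)‖ ≤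
            ∑ m ∈ Finset.range (j - k), r * (1 / 2) ^ m := by
            refine Finset.sum_le_sum fun m _ => ?_
            have q1 := c3' (k + m) (by omega)
            rw [Nat.add_sub_cancel_left] at q1
            have q2 : (0 : ℝ) < 3 * 2 ^ m := by positivity
            calc E (k + m) / ‖a (k + m)‖ ≤ 2 * r / ‖a (k + m)‖ :=
                  div_le_div_of_nonneg_right (hE2 _ (by omega)) (norm_nonneg _)
              _ ≤ 2 * r / (3 * 2 ^ m) := div_le_div_of_nonneg_left (by linarith) q2 q1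
              _ ≤ r * (1 / 2) ^ m := by
                rw [one_div_pow, div_le_iff₀ q2]
                field_simp
                linarith
        _ = r * ∑ m ∈ Finset.range (j - k), (1 / 2 : ℝ) ^ m := by rw [Finset.mul_sum]
        _ ≤ 2 * r := by
          have := mul_le_mul_of_nonneg_left (geo (j - k)) hr.le
          linarith
    have e3 : (k : ℝ) * (2 * r * ((k + 2) / θ) / t) ≤ 16 / κ * T := by
      have q1 : (k : ℝ) * (k + 2) ≤ 8 / T ^ 2 := by
        calc (k : ℝ) * (k + 2) ≤ (2 / T) * (4 / T) :=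
              mul_le_mul hkT hk2T (by positivity) (by positivity)
          _ = 8 / T ^ 2 := by ring
      calc (k : ℝ) * (2 * r * ((k + 2) / θ) / t) = 2 * r * (k * (k + 2)) / (θ * t) := by
            field_simp
        _ ≤ 2 * (T ^ 4 * w * t) * (8 / T ^ 2) / (θ * t) := by
            refine div_le_div_of_nonneg_right ?_ (by positivity)
            exact mul_le_mul (by linarith) q1 (by positivity) (by positivity)
        _ = 16 / κ * T * T := by
            rw [hθw]
            field_simp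
            ring
        _ ≤ 16 / κ * T * 1 := mul_le_mul_of_nonneg_left hT1 (by positivity)
        _ = 16 / κ * T := mul_one _
    have e4 : 2 * r ≤ 4 * T := by linarith
    calc _ ≤ 16 / κ * T + 4 * T := by linarith
      _ = T * (16 / κ + 4) := by ring
      _ ≤ κB := hTB
  have key := hB j 0 1 0 0 (2 * r) (fun i s => (f d (γ s))^[i] (x s)) γ (fun i => MM d a i j) E
    h00 le_rfl (by linarith)
    (by
      intro i _
      induction i with
      | zero => exact hx
      | succ i ih =>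
        have ih' := ih (by omega)
        have : (fun s => (f d (γ s))^[i + 1] (x s)) =
            fun s => ((f d (γ s))^[i] (x s)) ^ d + γ s := by
          funext s
          rw [Function.iterate_succ_apply']
          rfl
        rw [this]
        exact (ih'.pow d).add hγ)
    (by
      intro i _ s _
      rw [Function.iterate_succ_apply']
      rfl)
    (by
      intro s hs
      have e1 := hγr s hs
      have e2 : γ s - γ 0 = (γ s - c₀) - (γ 0 - c₀) := by ring
      rw [e2]
      refine (norm_sub_le _ _).trans ?_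
      have e3 := hγr 0 h00
      linarith)
    (by
      intro s hs
      rw [hxu s hs, hxu 0 h00]
      simp)
    (fun i hi => hane i hi)
    (by
      intro i hi
      unfold MM
      rw [Finset.prod_eq_prod_Ico_succ_bot hi]
      ring)
    (by
      unfold MM
      simp)
    (fun i _ => rfl)
    hsum 0 (Nat.zero_le _) 1 h11
  simp only [Function.iterate_zero, id_eq] at key
  rw [norm_sub_rev]
  refine key.trans ?_
  rw [Real.rpow_neg hT.le, ← div_eq_mul_inv, le_div_iff₀ (Real.rpow_pos_of_pos hT _)]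
  rcases Nat.eq_zero_or_pos k with hk0 | hk0
  · have e1 := hE2 0 (by omega)
    have e2 : T ^ A ≤ 1 / 4 := by
      have : T ^ A ≤ T ^ (1 : ℝ) := Real.rpow_le_rpow_of_exponent_ge hT hT1 (by linarith)
      rw [Real.rpow_one] at this
      linarith
    have e3 : 0 < T ^ A := Real.rpow_pos_of_pos hT _
    calc 2 * E 0 * T ^ A ≤ 2 * (2 * r) * (1 / 4) :=
          mul_le_mul (by linarith) e2 e3.le (by linarith)
      _ = r := by ring
  · have e1 := hE1 0 hk0
    have e3 : 0 < T ^ A := Real.rpow_pos_of_pos hT _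
    have e4 : 2 * r * (((k : ℝ) + 2) / θ) ≤ 2 * r * ((4 / T) / θ) :=
      mul_le_mul_of_nonneg_left (div_le_div_of_nonneg_right hk2T hθ.le) (by linarith)
    have e5 : 16 * T ≤ κ := by
      have : T * (16 / κ) ≤ 1 := by linarith
      rw [mul_div_assoc', div_le_one hκ0] at this
      linarith
    calc 2 * E 0 * T ^ A ≤ 2 * (2 * r * ((4 / T) / θ)) * (T ^ 4 * w * t) :=
          mul_le_mul (by linarith) hTA e3.le (by positivity)
      _ = r * (16 * T * T * T * t / κ) := by
          rw [hθw]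
          field_simp
          ring
      _ ≤ r * 1 := by
          refine mul_le_mul_of_nonneg_left ?_ hr.le
          rw [div_le_one hκ0]
          have q1 : T * T * t ≤ 1 := by
            calc T * T * t ≤ 1 * 1 * 1 := by gcongr
              _ = 1 := by norm_num
          calc 16 * T * T * T * t = 16 * T * (T * T * t) := by ring
            _ ≤ 16 * T * 1 := mul_le_mul_of_nonneg_left q1 (by positivity)
            _ ≤ κ := by linarith
      _ = r := mul_one _

end Pool.Agent.N253.LC.Cmp_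

namespace Pool.Agent.N253.LC

/-- the points of a given level and angle hardly depend on the parameter -/
theorem t_CMP (h1 : S_SHAD) (h2 : S_EXQ) (h3 : S_BACK) : S_CMP := Cmp_.main h1 h2 h3

end Pool.Agent.N253.LC
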