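import Pool.Agent.N253.LC.Stm

/-!
# A continuum from rays (LC/CON, written by helper891)
-/

set_option autoImplicit false

open Set Filter Metric Topology Bornology

namespace Pool.Agent.N253.LC

open Pool.Agent.H713R2 (IsExteriorMap)
open Pool.Agent.Helper202.Univ

namespace CON

/-- the exterior of the disc -/
abbrev U1 : Set ℂ := {z : ℂ | 1 < ‖z‖}

theorem isOpen_gt (T : ℝ) : IsOpen {z : ℂ | T < ‖z‖} := isOpen_lt continuous_const continuous_norm

/-- decreasing intersections of continua -/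
theorem isPreconnected_iInter {X : Type*} [TopologicalSpace X] [T2Space X]
    (E : ℕ → Set X) (hanti : Antitone E) (hc : ∀ n, IsCompact (E n))
    (hp : ∀ n, IsPreconnected (E n)) : IsPreconnected (⋂ n, E n) := by
  rw [isPreconnected_closed_iff]
  intro t t' ht ht' hsub hne hne'
  by_contra hcon
  rw [not_nonempty_iff_eq_empty] at hcon
  have hIc : IsCompact (⋂ n, E n) := by
    apply (hc 0).of_isClosed_subset (isClosed_iInter fun n => (hc n).isClosed)
    exact iInter_subset _ 0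
  have hdisj : Disjoint ((⋂ n, E n) ∩ t) ((⋂ n, E n) ∩ t') := by
    rw [Set.disjoint_iff_inter_eq_empty]
    rw [← hcon]
    ext x; simp only [mem_inter_iff]; tauto
  obtain ⟨U, V, hU, hV, hUt, hVt, hUV⟩ :=
    SeparatedNhds.of_isCompact_isCompact (hIc.inter_right ht) (hIc.inter_right ht') hdisj
  obtain ⟨n, hn⟩ := exists_subset_nhds_of_isCompact' (V := E) hanti.directed_ge hc
    (fun n => (hc n).isClosed) (U := U ∪ V) (by
      intro x hx
      rcases hsub hx with h | h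
      · exact mem_of_superset (hU.mem_nhds (hUt ⟨hx, h⟩)) subset_union_left
      · exact mem_of_superset (hV.mem_nhds (hVt ⟨hx, h⟩)) subset_union_right)
  obtain ⟨x, hx, hxt⟩ := hne
  obtain ⟨y, hy, hyt⟩ := hne'
  obtain ⟨z, hz, hzU, hzV⟩ := hp n U V hU hV hn
    ⟨x, mem_iInter.mp hx n, hUt ⟨hx, hxt⟩⟩ ⟨y, mem_iInter.mp hy n, hVt ⟨hy, hyt⟩⟩
  exact (Set.disjoint_left.mp hUV) hzU hzV

variable {M : Set ℂ} {ψ : ℂ → ℂ}

/-- `M` and the points of the exterior up to the level `T` -/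
def AA (ψ : ℂ → ℂ) (T : ℝ) : Set ℂ := (ψ '' {z : ℂ | T < ‖z‖})ᶜ

/-- the points of the exterior from the level `T` on -/
def BB (ψ : ℂ → ℂ) (T : ℝ) : Set ℂ := ψ '' {z : ℂ | T ≤ ‖z‖}

theorem isClosed_AA (h : IsExteriorMap M ψ) {T : ℝ} (hT : 1 ≤ T) : IsClosed (AA ψ T) := by
  rw [AA, isClosed_compl_iff]
  exact isOpen_image (isOpen_gt 1) h.diff h.inj (isOpen_gt T) fun z hz => lt_of_le_of_lt hT hz

/-- the map tends to infinity at infinity -/
theorem bound (h : IsExteriorMap M ψ) (r : ℝ) : ∃ R : ℝ, ∀ w : ℂ, R < ‖w‖ → r < ‖ψ w‖ := by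
  have h1 : ∀ᶠ z in cobounded ℂ, ψ z / z ∈ ball (1 : ℂ) (1 / 2) :=
    h.infinity (ball_mem_nhds _ (by norm_num))
  have h2 := (Metric.hasBasis_cobounded_compl_closedBall (0:ℂ)).eventually_iff.mp h1
  obtain ⟨R0, _, hR0⟩ := h2
  refine ⟨max R0 (max 1 (2 * |r|)), fun w hw => ?_⟩
  have hw0 : R0 < ‖w‖ := (le_max_left _ _).trans_lt hw
  have hw1 : 1 < ‖w‖ := ((le_max_left _ _).trans (le_max_right _ _)).trans_lt hw
  have hw2 : 2 * |r| < ‖w‖ := ((le_max_right _ _).trans (le_max_right _ _)).trans_lt hw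
  have h3 := hR0 (show w ∈ (closedBall (0:ℂ) R0)ᶜ by
    rw [mem_compl_iff, mem_closedBall_zero_iff]
    exact not_le.mpr hw0)
  rw [mem_ball, dist_eq_norm] at h3
  have h4 : (1:ℝ) ≤ ‖ψ w / w‖ + ‖ψ w / w - 1‖ := by
    have e : (1:ℂ) = ψ w / w - (ψ w / w - 1) := by ring
    calc (1:ℝ) = ‖(1:ℂ)‖ := by simp
      _ = ‖ψ w / w - (ψ w / w - 1)‖ := by rw [← e]
      _ ≤ _ := norm_sub_le _ _
  have h5 : 1 / 2 < ‖ψ w / w‖ := by linarith
  rw [norm_div, lt_div_iff₀ (by linarith)] at h5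
  have := le_abs_self r
  linarith

theorem isClosed_BB (h : IsExteriorMap M ψ) {T : ℝ} (hT : 1 < T) : IsClosed (BB ψ T) := by
  refine isClosed_of_closure_subset fun z hz => ?_
  obtain ⟨R, hR⟩ := bound h (‖z‖ + 1)
  -- the compact part
  set K : Set ℂ := {w : ℂ | T ≤ ‖w‖} ∩ closedBall 0 R with hK
  have hKc : IsCompact K :=
    (isCompact_closedBall (0:ℂ) R).inter_left (isClosed_le continuous_const continuous_norm)
  have hKi : IsCompact (ψ '' K) := by
    refine hKc.image_of_continuousOn ?_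
    refine h.diff.continuousOn.mono fun w hw => ?_
    exact lt_of_lt_of_le hT hw.1
  have h1 : z ∈ closure (ball z 1 ∩ BB ψ T) :=
    (isOpen_ball.inter_closure) ⟨mem_ball_self one_pos, hz⟩
  have h2 : ball z 1 ∩ BB ψ T ⊆ ψ '' K := by
    rintro _ ⟨hx, w, hw, rfl⟩
    refine ⟨w, ⟨hw, ?_⟩, rfl⟩
    rw [mem_closedBall_zero_iff]
    by_contra hcon
    push Not at hcon
    have h3 := hR w hcon
    rw [mem_ball, dist_eq_norm] at hx
    have h4 : ‖ψ w‖ ≤ ‖ψ w - z‖ + ‖z‖ := by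
      calc ‖ψ w‖ = ‖(ψ w - z) + z‖ := by rw [sub_add_cancel]
        _ ≤ _ := norm_add_le _ _
    linarith
  have h3 := closure_minimal h2 hKi.isClosed h1
  obtain ⟨w, hw, hwz⟩ := h3
  exact ⟨w, hw.1, hwz⟩

/-- the projection along the rays to the level `T` -/
noncomputable def pj (ψ : ℂ → ℂ) (T : ℝ) (z : ℂ) : ℂ :=
  ψ (T * (Function.invFunOn ψ U1 z / ‖Function.invFunOn ψ U1 z‖))

open Classical in
/-- the retraction -/
noncomputable def rt (ψ : ℂ → ℂ) (T : ℝ) (z : ℂ) : ℂ := if z ∈ AA ψ T then z else pj ψ T z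

theorem pj_image (h : IsExteriorMap M ψ) (T : ℝ) {w : ℂ} (hw : 1 < ‖w‖) :
    pj ψ T (ψ w) = ψ (T * (w / ‖w‖)) := by
  unfold pj
  rw [invFunOn_left h.inj (show w ∈ U1 from hw)]

theorem nrm {T : ℝ} (hT : 0 < T) {w : ℂ} (hw : 1 < ‖w‖) : ‖(T : ℂ) * (w / (‖w‖ : ℂ))‖ = T := by
  have h0 : ‖w‖ ≠ 0 := by linarith
  rw [norm_mul, norm_div, Complex.norm_real, Complex.norm_real, norm_norm, div_self h0, mul_one,
    Real.norm_of_nonneg hT.le]

theorem rt_cont (h : IsExteriorMap M ψ) {T : ℝ} (hT : 1 < T) : Continuous (rt ψ T) := by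
  have hA : ContinuousOn (rt ψ T) (AA ψ T) := by
    refine continuousOn_id.congr fun z hz => ?_
    rw [rt, if_pos hz]
    rfl
  have hB : ContinuousOn (rt ψ T) (BB ψ T) := by
    have h1 : ContinuousOn (pj ψ T) (BB ψ T) := by
      rintro _ ⟨w, hw, rfl⟩
      have hw1 : 1 < ‖w‖ := lt_of_lt_of_le hT hw
      refine ContinuousAt.continuousWithinAt ?_
      have c1 : ContinuousAt (Function.invFunOn ψ U1) (ψ w) :=
        continuousAt_inv (isOpen_gt 1) h.diff h.inj ⟨w, hw1, rfl⟩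
      have e1 : Function.invFunOn ψ U1 (ψ w) = w := invFunOn_left h.inj (show w ∈ U1 from hw1)
      have c2 : ContinuousAt (fun v : ℂ => (T : ℂ) * (v / (‖v‖ : ℂ))) w := by
        refine continuousAt_const.mul (continuousAt_id.div ?_ ?_)
        · exact (Complex.continuous_ofReal.comp continuous_norm).continuousAt
        · simp only [ne_eq, Complex.ofReal_eq_zero]
          linarith
      have c3 : ContinuousAt ψ ((T : ℂ) * (w / (‖w‖ : ℂ))) := by
        refine (h.diff.continuousOn).continuousAt ((isOpen_gt 1).mem_nhds ?_)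
        show (1:ℝ) < ‖(T : ℂ) * (w / (‖w‖ : ℂ))‖
        rw [nrm (by linarith) hw1]
        exact hT
      have c4 : ContinuousAt (fun z => (T : ℂ) * (Function.invFunOn ψ U1 z /
          ((‖Function.invFunOn ψ U1 z‖ : ℝ) : ℂ))) (ψ w) := by
        refine ContinuousAt.comp (f := Function.invFunOn ψ U1)
          (g := fun v : ℂ => (T : ℂ) * (v / (‖v‖ : ℂ))) ?_ c1
        rw [e1]
        exact c2
      refine ContinuousAt.comp (g := ψ) ?_ c4
      simp only [e1]
      exact c3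
    refine h1.congr fun z hz => ?_
    rw [rt]
    split_ifs with hzA
    · obtain ⟨w, hw, rfl⟩ := hz
      have hw1 : 1 < ‖w‖ := lt_of_lt_of_le hT hw
      have hwT : ‖w‖ = T := by
        refine le_antisymm ?_ hw
        by_contra hcon
        push Not at hcon
        exact hzA ⟨w, hcon, rfl⟩
      rw [pj_image h T hw1, hwT]
      congr 1
      have : (T : ℂ) ≠ 0 := by
        simp only [ne_eq, Complex.ofReal_eq_zero]
        linarith
      field_simp
    · rfl
  have hU : AA ψ T ∪ BB ψ T = univ := by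
    rw [eq_univ_iff_forall]
    intro z
    by_cases hz : z ∈ AA ψ T
    · exact Or.inl hz
    · rw [AA, notMem_compl_iff] at hz
      obtain ⟨w, hw, rfl⟩ := hz
      have hw' : T < ‖w‖ := hw
      exact Or.inr ⟨w, show T ≤ ‖w‖ from hw'.le, rfl⟩
  rw [← continuousOn_univ, ← hU]
  exact hA.union_of_isClosed hB (isClosed_AA h hT.le) (isClosed_BB h hT)

end CON

open CON

theorem t_CON : S_CON := by
  intro M ψ c c₀ R hM h hc hc₀ hR hray
  have hMA : ∀ T : ℝ, 1 ≤ T → M ⊆ AA ψ T := by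
    intro T hT z hz hzA
    obtain ⟨w, hw, rfl⟩ := hzA
    have : ψ w ∈ ψ '' {z | 1 < ‖z‖} := ⟨w, lt_of_le_of_lt hT hw, rfl⟩
    rw [h.image] at this
    exact this hz
  have hR0 : 0 ≤ R := (norm_nonneg _).trans hR
  -- the continua
  let T : ℕ → ℝ := fun k => 1 + 1 / ((k : ℝ) + 1)
  have hT : ∀ k, 1 < T k := by
    intro k
    have : (0:ℝ) < 1 / ((k : ℝ) + 1) := by positivity
    simp only [T]
    linarith
  have hTanti : ∀ k l, k ≤ l → T l ≤ T k := by
    intro k l hkl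
    simp only [T]
    have : (k:ℝ) ≤ l := by exact_mod_cast hkl
    gcongr
  let K : ℕ → Set ℂ := fun k => rt ψ (T k) '' segment ℝ c c₀
  have hKcomp : ∀ k, IsCompact (K k) := by
    intro k
    have h1 : IsCompact (segment ℝ c c₀) := by
      rw [segment_eq_image_lineMap]
      exact isCompact_Icc.image (AffineMap.lineMap_continuous)
    exact h1.image (rt_cont h (hT k))
  have hKconn : ∀ k, IsConnected (K k) := by
    intro k
    have h1 : IsConnected (segment ℝ c c₀) :=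
      ⟨⟨c, left_mem_segment ℝ c c₀⟩, (convex_segment c c₀).isPreconnected⟩
    exact h1.image _ (rt_cont h (hT k)).continuousOn
  have hKc : ∀ k, c ∈ K k := fun k => ⟨c, left_mem_segment ℝ c c₀, by
    rw [rt, if_pos (hMA _ (hT k).le hc)]⟩
  have hKc₀ : ∀ k, c₀ ∈ K k := fun k => ⟨c₀, right_mem_segment ℝ c c₀, by
    rw [rt, if_pos (hMA _ (hT k).le hc₀)]⟩
  have hKA : ∀ k, K k ⊆ AA ψ (T k) := by
    rintro k _ ⟨z, _, rfl⟩
    rw [rt]
    split_ifs with hz
    · exact hz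
    · rw [AA, notMem_compl_iff] at hz
      obtain ⟨w, hw, rfl⟩ := hz
      have hw1 : 1 < ‖w‖ := lt_trans (hT k) hw
      rw [pj_image h _ hw1]
      rintro ⟨w', hw', he⟩
      have h1 : (T k : ℂ) * (w / (‖w‖ : ℂ)) ∈ U1 := by
        show (1:ℝ) < ‖(T k : ℂ) * (w / (‖w‖ : ℂ))‖
        rw [nrm (by linarith [hT k]) hw1]
        exact hT k
      have h2 : w' = (T k : ℂ) * (w / (‖w‖ : ℂ)) :=
        h.inj (show w' ∈ {z : ℂ | 1 < ‖z‖} from lt_trans (hT k) hw') h1 he
      have h3 : T k < ‖w'‖ := hw'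
      rw [h2, nrm (by linarith [hT k]) hw1] at h3
      exact lt_irrefl _ h3
  have hKR : ∀ k, K k ⊆ closedBall c₀ R := by
    rintro k _ ⟨z, hz, rfl⟩
    rw [rt]
    split_ifs with hzA
    · have h1 : segment ℝ c c₀ ⊆ closedBall c₀ R := by
        refine (convex_closedBall c₀ R).segment_subset ?_ (mem_closedBall_self hR0)
        rw [mem_closedBall, dist_eq_norm]
        exact hR
      exact h1 hz
    · rw [AA, notMem_compl_iff] at hzA
      obtain ⟨w, hw, rfl⟩ := hzA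
      have hw' : T k < ‖w‖ := hw
      have hw1 : 1 < ‖w‖ := lt_trans (hT k) hw'
      rw [pj_image h _ hw1, mem_closedBall, dist_eq_norm]
      exact hray w hw1 hz (T k) (hT k) hw'.le
  -- the decreasing sequence
  let E : ℕ → Set ℂ := fun k => closure (⋃ l : {l : ℕ // k ≤ l}, K l)
  have hEsub : ∀ k, (⋃ l : {l : ℕ // k ≤ l}, K l) ⊆ AA ψ (T k) ∩ closedBall c₀ R := by
    intro k z hz
    rw [mem_iUnion] at hz
    obtain ⟨⟨l, hl⟩, hz⟩ := hz
    refine ⟨?_, hKR l hz⟩
    intro hzA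
    obtain ⟨w, hw, rfl⟩ := hzA
    refine hKA l hz ⟨w, ?_, rfl⟩
    exact lt_of_le_of_lt (hTanti k l hl) hw
  have hEsub' : ∀ k, E k ⊆ AA ψ (T k) ∩ closedBall c₀ R := fun k =>
    closure_minimal (hEsub k) ((isClosed_AA h (hT k).le).inter isClosed_closedBall)
  have hEcomp : ∀ k, IsCompact (E k) := fun k =>
    (isCompact_closedBall c₀ R).of_isClosed_subset isClosed_closure
      ((hEsub' k).trans inter_subset_right)
  have hEpre : ∀ k, IsPreconnected (E k) := by
    intro k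
    refine IsPreconnected.closure ?_
    exact isPreconnected_iUnion ⟨c, mem_iInter.mpr fun l => hKc l⟩ fun l => (hKconn l).isPreconnected
  have hEanti : Antitone E := by
    intro k l hkl
    refine closure_mono ?_
    refine iUnion_subset fun m => ?_
    exact subset_iUnion (fun m : {m : ℕ // k ≤ m} => K m) ⟨m.1, hkl.trans m.2⟩
  have hEc : ∀ k, c ∈ E k := fun k => subset_closure (mem_iUnion.mpr ⟨⟨k, le_rfl⟩, hKc k⟩)
  have hEc₀ : ∀ k, c₀ ∈ E k := fun k => subset_closure (mem_iUnion.mpr ⟨⟨k, le_rfl⟩, hKc₀ k⟩)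
  refine ⟨⋂ k, E k, ?_, ?_, ⟨⟨c, mem_iInter.mpr hEc⟩, ?_⟩, mem_iInter.mpr hEc, mem_iInter.mpr hEc₀,
    ?_⟩
  · intro z hz
    by_contra hzM
    have h1 : z ∈ ψ '' {z | 1 < ‖z‖} := by
      rw [h.image]
      exact hzM
    obtain ⟨w, hw, rfl⟩ := h1
    have hw' : 0 < ‖w‖ - 1 := sub_pos.mpr hw
    obtain ⟨k, hk⟩ := exists_nat_one_div_lt hw'
    refine (hEsub' k (mem_iInter.mp hz k)).1 ⟨w, ?_, rfl⟩
    show T k < ‖w‖
    simp only [T]
    linarith
  · exact (hEcomp 0).of_isClosed_subset (isClosed_iInter fun k => isClosed_closure)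
      (iInter_subset _ 0)
  · exact isPreconnected_iInter E hEanti hEcomp hEpre
  · exact (iInter_subset _ 0).trans ((hEsub' 0).trans inter_subset_right)

end Pool.Agent.N253.LC
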