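import Pool.Agent.N253.LC.Stm
import Pool.Agent.H712R2.MultiBott
import Pool.Agent.H712R2.MultiPar

/-!
Project LC (helper253), task COORD: coherent coordinates near infinity (helper273).
-/

set_option autoImplicit false

open Set Filter Metric Topology

namespace Pool.Agent.N253.LC

open Pool.Agent.H712R2 Complex

/-- One step, with the relation between the two levels. -/
theorem coord_step {d : ℕ} (hd : 2 ≤ d) (j : ℕ) (g : ℂ × ℂ → ℂ) (hg : IsG d j g) :
    ∃ g', IsG d (j + 1) g' ∧ ∀ c x, (c, x) ∈ AA d (j + 1) → x ≠ 0 →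
        fc d c (x⁻¹ * g' (c, x)) = (x ^ d)⁻¹ * g (c, x ^ d) := by
  have hd0 : d ≠ 0 := by omega
  have hdC : (d : ℂ) ≠ 0 := by exact_mod_cast hd0
  set T : ℂ × ℂ → ℂ := fun q => g q - q.1 * q.2 with hT
  have hTc : ContinuousOn T (AA' d j) := by
    apply ContinuousOn.sub (hg.cont.mono (AA'_subset d j))
    fun_prop
  have hT0 : ∀ c x, (c, x) ∈ AA' d j → T (c, 0) = 1 := by
    intro c x _; simp [hT, hg.zero]
  have hTne : ∀ q ∈ AA' d j, T q ≠ 0 := by
    rintro ⟨c, y⟩ hq h0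
    by_cases hy : y = 0
    · subst hy; simp [hT, hg.zero] at h0
    · have h1 : y⁻¹ * g (c, y) = c := by
        have : g (c, y) = c * y := by simpa [hT, sub_eq_zero] using h0
        rw [this]; field_simp
      have h2 := hg.conj c y (AA'_subset d j hq) hy
      rw [h1, iter_c hd] at h2
      have h3 := hq (j + 1) (by omega) le_rfl
      simp only at h3
      rw [h2, norm_pow, norm_inv, ← mul_pow, mul_inv_cancel₀ (norm_ne_zero_iff.mpr hy),
        one_pow] at h3
      exact lt_irrefl _ h3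
  obtain ⟨h, hhc, hhe, hh0⟩ := exists_log_star (A := AA' d j) AA_star hTc hT0 hTne
  -- the new map
  set g' : ℂ × ℂ → ℂ := fun q => Complex.exp (h (q.1, q.2 ^ d) / d) with hg'
  have hpow : ∀ c x, (c, x) ∈ AA d (j + 1) → g' (c, x) ^ d = g (c, x ^ d) - c * x ^ d := by
    intro c x hx
    have hx' := (mem_AA_succ c x).mp hx
    simp only [hg']
    rw [← Complex.exp_nat_mul]
    have : (d : ℂ) * (h (c, x ^ d) / d) = h (c, x ^ d) := by field_simp
    rw [this, hhe _ hx']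
  have hne' : ∀ q, g' q ≠ 0 := fun q => Complex.exp_ne_zero _
  -- one step of the conjugacy
  have hstep : ∀ c x, (c, x) ∈ AA d (j + 1) → x ≠ 0 →
      fc d c (x⁻¹ * g' (c, x)) = (x ^ d)⁻¹ * g (c, x ^ d) := by
    intro c x hx hx0
    unfold fc
    rw [mul_pow, hpow c x hx, inv_pow]
    have : x ^ d ≠ 0 := pow_ne_zero _ hx0
    field_simp
    ring
  have hsub : ∀ c x, (c, x) ∈ AA d (j + 1) → (c, x ^ d) ∈ AA d j := fun c x hx =>
    AA'_subset d j ((mem_AA_succ c x).mp hx)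
  refine ⟨g', ⟨?_, ?_, ?_, fun q _ => hne' q, ?_, ?_⟩, hstep⟩
  · simp only [hg']
    apply Continuous.comp_continuousOn Complex.continuous_exp
    apply ContinuousOn.div_const
    have hc : ContinuousOn (fun q : ℂ × ℂ => (q.1, q.2 ^ d)) (AA d (j + 1)) := by fun_prop
    exact hhc.comp hc (fun q hq => (mem_AA_succ q.1 q.2).mp hq)
  · intro c
    simp only [hg', zero_pow hd0]
    rw [hh0 c 0 (mem_AA'_zero hd j c)]
    simp
  · intro c x hx hx0
    rw [Function.iterate_succ_apply, hstep c x hx hx0,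
      hg.conj c (x ^ d) (hsub c x hx) (pow_ne_zero _ hx0)]
    rw [← inv_pow, ← pow_mul]
    congr 1
    ring
  · intro c x x' hx hx' hx0 hx0' heq
    have h1 : (x ^ d)⁻¹ * g (c, x ^ d) = (x' ^ d)⁻¹ * g (c, x' ^ d) := by
      rw [← hstep c x hx hx0, ← hstep c x' hx' hx0', heq]
    have h2 := hg.inj c _ _ (hsub c x hx) (hsub c x' hx') (pow_ne_zero _ hx0)
      (pow_ne_zero _ hx0') h1
    have h3 : g' (c, x) = g' (c, x') := by simp only [hg', h2]
    rw [h3] at heq
    have := mul_right_cancel₀ (hne' (c, x')) heq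
    exact inv_injective this
  · intro c z hz hz0 hlt
    rw [Function.iterate_succ_apply] at hz0 hlt
    by_cases hu : fc d c z = 0
    · -- then the orbit of `0` would be too large
      exfalso
      by_cases hj : j = 0
      · subst hj
        simp [hu] at hz0
      · have h1 := hlt j (by omega) (by omega)
        rw [hu] at h1
        exact lt_irrefl _ h1
    obtain ⟨y, hy0, hyA, hy⟩ := hg.surj c (fc d c z) hu hz0 (fun i h1 h2 => hlt i h1 (by omega))
    obtain ⟨x, hx⟩ := IsAlgClosed.exists_pow_nat_eq y (Nat.pos_of_ne_zero hd0)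
    have hx0 : x ≠ 0 := by
      rintro rfl
      rw [zero_pow hd0] at hx
      exact hy0 hx.symm
    have hnorm : ‖y‖ ^ (d ^ j) = ‖(fc d c)^[j] (fc d c z)‖⁻¹ := by
      have := hg.conj c y hyA hy0
      rw [hy] at this
      rw [this, norm_pow, norm_inv, inv_pow, inv_inv]
    have hyA' : (c, y) ∈ AA' d j := by
      intro i h1 h2
      have h3 := hlt i h1 h2
      simp only
      rw [hnorm]
      have hpos : 0 < ‖(fc d c)^[j] (fc d c z)‖ := norm_pos_iff.mpr hz0
      rw [inv_mul_lt_iff₀ hpos, mul_one]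
      exact h3
    have hxA : (c, x) ∈ AA d (j + 1) := by
      rw [mem_AA_succ, hx]; exact hyA'
    have h4 : (x⁻¹ * g' (c, x)) ^ d = z ^ d := by
      have h5 := hstep c x hxA hx0
      rw [hx, hy] at h5
      unfold fc at h5
      exact add_right_cancel h5
    -- adjust by a root of unity
    have hχ0 : x⁻¹ * g' (c, x) ≠ 0 := mul_ne_zero (inv_ne_zero hx0) (hne' _)
    set ω : ℂ := z / (x⁻¹ * g' (c, x)) with hω
    have hω1 : ω ^ d = 1 := by
      rw [hω, div_pow, h4, div_self (pow_ne_zero _ hz)]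
    have hω0 : ω ≠ 0 := div_ne_zero hz hχ0
    refine ⟨ω⁻¹ * x, mul_ne_zero (inv_ne_zero hω0) hx0, ?_, ?_⟩
    · rw [mem_AA_succ, mul_pow, inv_pow, hω1, inv_one, one_mul, hx]; exact hyA'
    · have h6 : g' (c, ω⁻¹ * x) = g' (c, x) := by
        simp only [hg', mul_pow, inv_pow, hω1, inv_one, one_mul]
      rw [h6, mul_inv, inv_inv, mul_assoc, hω, div_mul_cancel₀ _ hχ0]

/-- The coherent sequence. -/
theorem coord_seq {d : ℕ} (hd : 2 ≤ d) : ∃ G : ℕ → (ℂ × ℂ → ℂ), (∀ j, IsG d j (G j)) ∧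
    ∀ j c x, (c, x) ∈ AA d (j + 1) → x ≠ 0 →
      fc d c (x⁻¹ * G (j + 1) (c, x)) = (x ^ d)⁻¹ * G j (c, x ^ d) := by
  classical
  obtain ⟨g0, hg0⟩ := exists_g hd 0
  choose nx h1 h2 using coord_step hd
  let S : (j : ℕ) → {g : ℂ × ℂ → ℂ // IsG d j g} := fun j =>
    Nat.rec (motive := fun j => {g : ℂ × ℂ → ℂ // IsG d j g}) ⟨g0, hg0⟩
      (fun j g => ⟨nx j g.1 g.2, h1 j g.1 g.2⟩) j
  refine ⟨fun j => (S j).1, fun j => (S j).2, ?_⟩
  intro j c x hx hx0
  exact h2 j (S j).1 (S j).2 c x hx hx0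

theorem mem_DD_iff {d j : ℕ} (hd : 2 ≤ d) {c w : ℂ} (hw : w ≠ 0) :
    (c, w) ∈ DD d j ↔ (c, w⁻¹) ∈ AA d j := by
  have hpos : 0 < ‖w‖ ^ (d ^ j) := pow_pos (norm_pos_iff.mpr hw) _
  have key : ∀ i, (‖w⁻¹‖ ^ (d ^ j) * ‖P d i c‖ < 1 ↔ ‖P d i c‖ < ‖w‖ ^ (d ^ j)) := by
    intro i
    rw [norm_inv, inv_pow, inv_mul_lt_iff₀ hpos, mul_one]
  constructor
  · rintro ⟨-, h⟩ i h1 h2
    exact (key i).2 (h i h1 h2)
  · intro h
    exact ⟨hw, fun i h1 h2 => (key i).1 (h i h1 h2)⟩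

/-- The parameter coordinate. -/
theorem coord_par {d : ℕ} (hd : 2 ≤ d) (m : ℕ) (g : ℂ × ℂ → ℂ) (hg : IsG d m g) :
    ∃ X : ℂ → ℂ, ∀ c, 2 < ‖P d (m + 1) c‖ → ContinuousAt X c ∧ X c ≠ 0 ∧ (c, X c) ∈ AA d m ∧
      (X c)⁻¹ * g (c, X c) = c ∧ (X c)⁻¹ ^ (d ^ m) = P d (m + 1) c := by
  classical
  have hN : d ^ m ≠ 0 := pow_ne_zero _ (by omega)
  have hex : ∀ c, 2 < ‖P d (m + 1) c‖ → ∃ x, x ≠ 0 ∧ (c, x) ∈ AA d m ∧ x⁻¹ * g (c, x) = c := by
    intro c hc
    have hne : P d (m + 1) c ≠ 0 := by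
      intro h; rw [h, norm_zero] at hc; linarith
    have hc0 : c ≠ 0 := by
      rintro rfl
      have : ∀ k, P d k 0 = 0 := by
        intro k
        induction k with
        | zero => rfl
        | succ k ih => rw [P_succ, ih, zero_pow (by omega), zero_add]
      exact hne (this _)
    apply hg.surj c c hc0
    · rw [iter_c hd]; exact hne
    · intro i h1 h2
      rw [iter_c hd]
      exact P_lt_of_gt hd hc i h1 h2
  choose! X hX0 hXA hXe using hex
  have hXpow : ∀ c, 2 < ‖P d (m + 1) c‖ → (X c)⁻¹ ^ (d ^ m) = P d (m + 1) c := by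
    intro c hc
    have := hg.conj c (X c) (hXA c hc) (hX0 c hc)
    rw [hXe c hc, iter_c hd] at this
    exact this.symm
  have hXnorm : ∀ c, 2 < ‖P d (m + 1) c‖ → ‖X c‖ ^ (d ^ m) = ‖P d (m + 1) c‖⁻¹ := by
    intro c hc
    rw [← hXpow c hc, norm_pow, norm_inv, inv_pow, inv_inv]
  have hcont : ∀ c, 2 < ‖P d (m + 1) c‖ → ContinuousAt X c := by
    intro c0 hc0
    have hev : ∀ᶠ c in 𝓝 c0, 2 < ‖P d (m + 1) c‖ :=
      (continuous_P d (m + 1)).norm.continuousAt.eventually (lt_mem_nhds hc0)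
    apply (isCompact_closedBall (0:ℂ) 1).tendsto_nhds_of_unique_mapClusterPt
    · filter_upwards [hev] with c hc
      rw [mem_closedBall_zero_iff]
      by_contra h
      push Not at h
      have h1 := hXnorm c hc
      have h2 : 1 ≤ ‖X c‖ ^ (d ^ m) := one_le_pow₀ h.le
      rw [h1] at h2
      have h3 : ‖P d (m + 1) c‖⁻¹ < 1 := inv_lt_one_of_one_lt₀ (by linarith)
      linarith
    · intro x _ hx
      rw [mapClusterPt_iff_ultrafilter] at hx
      obtain ⟨U, hU, hUx⟩ := hx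
      have hUc : Tendsto (fun c => c) (U : Filter ℂ) (𝓝 c0) := hU
      have hevU : ∀ᶠ c in (U : Filter ℂ), 2 < ‖P d (m + 1) c‖ := hU hev
      have h1 : Tendsto (fun c => ‖X c‖ ^ (d ^ m)) (U : Filter ℂ) (𝓝 (‖x‖ ^ (d ^ m))) :=
        (hUx.norm).pow _
      have h2 : Tendsto (fun c => ‖P d (m + 1) c‖⁻¹) (U : Filter ℂ) (𝓝 (‖P d (m + 1) c0‖⁻¹)) := by
        apply Tendsto.inv₀
        · exact ((continuous_P d (m + 1)).norm.tendsto c0).comp hUc
        · linarith
      have h3 : ‖x‖ ^ (d ^ m) = ‖P d (m + 1) c0‖⁻¹ := by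
        apply tendsto_nhds_unique h1
        apply h2.congr'
        filter_upwards [hevU] with c hc
        rw [hXnorm c hc]
      have hx0 : x ≠ 0 := by
        rintro rfl
        rw [norm_zero, zero_pow hN] at h3
        have : 0 < ‖P d (m + 1) c0‖⁻¹ := inv_pos.mpr (by linarith)
        linarith
      have hxA : (c0, x) ∈ AA d m := by
        intro i hi1 hi2
        simp only
        rw [h3, inv_mul_lt_iff₀ (by linarith), mul_one]
        exact P_lt_of_gt hd hc0 i hi1 hi2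
      have h4 : Tendsto (fun c => (c, X c)) (U : Filter ℂ) (𝓝[AA d m] (c0, x)) := by
        rw [tendsto_nhdsWithin_iff]
        refine ⟨hUc.prodMk_nhds hUx, ?_⟩
        filter_upwards [hevU] with c hc
        exact hXA c hc
      have h5 : Tendsto (fun c => g (c, X c)) (U : Filter ℂ) (𝓝 (g (c0, x))) :=
        (hg.cont (c0, x) hxA).tendsto.comp h4
      have h6 : Tendsto (fun c => (X c)⁻¹ * g (c, X c)) (U : Filter ℂ) (𝓝 (x⁻¹ * g (c0, x))) :=
        (hUx.inv₀ hx0).mul h5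
      have h7 : x⁻¹ * g (c0, x) = c0 := by
        apply tendsto_nhds_unique h6
        apply hUc.congr'
        filter_upwards [hevU] with c hc
        exact (hXe c hc).symm
      exact hg.inj c0 x (X c0) hxA (hXA c0 hc0) hx0 (hX0 c0 hc0) (by rw [h7, hXe c0 hc0])
  exact ⟨X, fun c hc => ⟨hcont c hc, hX0 c hc, hXA c hc, hXe c hc, hXpow c hc⟩⟩

theorem t_COORD : S_COORD := by
  intro d hd
  obtain ⟨G, hG, hst⟩ := coord_seq hd
  refine ⟨fun j c w => w * G j (c, w⁻¹), ?_, ?_, ?_, ?_⟩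
  · intro j
    have h1 : ContinuousOn (fun q : ℂ × ℂ => (q.1, q.2⁻¹)) (DD d j) := by
      apply ContinuousOn.prodMk continuousOn_fst
      exact continuousOn_snd.inv₀ (fun q hq => hq.1)
    exact continuousOn_snd.mul ((hG j).cont.comp h1 (fun q hq => (mem_DD_iff hd hq.1).1 hq))
  · intro j c w hw
    have h0 : w ≠ 0 := hw.1
    have h1 := (hG j).conj c w⁻¹ ((mem_DD_iff hd h0).1 hw) (inv_ne_zero h0)
    rw [inv_inv] at h1
    exact h1
  · intro j c w hw
    have h0 : w ≠ 0 := hw.1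
    have h1 := hst j c w⁻¹ ((mem_DD_iff hd h0).1 hw) (inv_ne_zero h0)
    rw [inv_inv, inv_pow, inv_inv] at h1
    exact h1
  · intro m
    obtain ⟨X, hX⟩ := coord_par hd m (G m) (hG m)
    refine ⟨fun c => (X c)⁻¹, fun c hc => ?_⟩
    obtain ⟨h1, h2, h3, h4, h5⟩ := hX c hc
    refine ⟨h1.inv₀ h2, ?_, h5, ?_⟩
    · rw [mem_DD_iff hd (inv_ne_zero h2), inv_inv]
      exact h3
    · show (X c)⁻¹ * G m (c, (X c)⁻¹⁻¹) = c
      rw [inv_inv]
      exact h4

end Pool.Agent.N253.LC
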