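import Mathlib
import Pool.Agent.N253.LC.Stm

/-!
# The derivative along a ray
-/

set_option autoImplicit false

open Set Filter Metric Topology

namespace Pool.Agent.N253.LC

open Pool.Agent.TH279.MD
open Pool.Agent.H712R2 (P)

namespace Der

theorem diff_it (d : ℕ) (c : ℂ) (j : ℕ) : ContDiff ℂ 1 ((f d c)^[j]) := by
  induction j with
  | zero => exact contDiff_id
  | succ j ih =>
    rw [Function.iterate_succ]
    refine ih.comp ?_
    unfold f
    fun_prop

theorem deriv_it_succ (d : ℕ) (c : ℂ) (j : ℕ) (y : ℂ) :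
    deriv ((f d c)^[j + 1]) y = d * ((f d c)^[j] y) ^ (d - 1) * deriv ((f d c)^[j]) y := by
  rw [Function.iterate_succ']
  have h1 : HasDerivAt (f d c) (d * ((f d c)^[j] y) ^ (d - 1)) ((f d c)^[j] y) := by
    unfold f
    exact (hasDerivAt_pow d _).add_const c
  have h2 : DifferentiableAt ℂ ((f d c)^[j]) y := (diff_it d c j).differentiable one_ne_zero y
  exact (h1.comp y h2.hasDerivAt).deriv

theorem pow_diff (d : ℕ) (hd : 2 ≤ d) (x : ℝ) (hx : 7 / 2 ≤ x) :
    (x - 1) ^ d + 7 / 2 ≤ x ^ d := by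
  obtain ⟨e, rfl⟩ : ∃ e, d = e + 2 := ⟨d - 2, by omega⟩
  have h1 : (x - 1) ^ (e + 1) ≤ x ^ (e + 1) := pow_le_pow_left₀ (by linarith) (by linarith) _
  have h2 : x ≤ x ^ (e + 1) := by
    have : x ^ 1 ≤ x ^ (e + 1) := pow_le_pow_right₀ (by linarith) (by omega)
    simpa using this
  have h3 : (x - 1) ^ (e + 2) = (x - 1) ^ (e + 1) * (x - 1) := pow_succ _ _
  have h4 : x ^ (e + 2) = x ^ (e + 1) * x := pow_succ _ _
  rw [h3, h4]
  have h5 : (x - 1) ^ (e + 1) * (x - 1) ≤ x ^ (e + 1) * (x - 1) :=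
    mul_le_mul_of_nonneg_right h1 (by linarith)
  nlinarith

section real

variable {d : ℕ} {x : ℕ → ℝ}

theorem grow (hd : 2 ≤ d) (hlo : ∀ i, x i ^ d - 5 / 2 ≤ x (i + 1)) {k : ℕ} (hk : 3 < x k) (m : ℕ) :
    3 * 2 ^ m ≤ x (k + m) := by
  induction m with
  | zero => simpa using hk.le
  | succ m ih =>
    have h1 : (1 : ℝ) ≤ 2 ^ m := one_le_pow₀ (by norm_num)
    have h2 : 3 ≤ x (k + m) := by linarith
    have h3 : x (k + m) ^ 2 ≤ x (k + m) ^ d := pow_le_pow_right₀ (by linarith) hd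
    have h4 := hlo (k + m)
    have h5 : 2 * x (k + m) ≤ x (k + m) ^ 2 - 5 / 2 := by nlinarith
    rw [← add_assoc, pow_succ]
    linarith

theorem prodb (hd : 2 ≤ d) (hlo : ∀ i, x i ^ d - 5 / 2 ≤ x (i + 1))
    (hup : ∀ i, x (i + 1) ≤ x i ^ d + 5 / 2) {k : ℕ} (hk : 3 < x k) (m : ℕ) :
    1 ≤ ∏ i ∈ Finset.range m, x (k + i) ^ (d - 1) ∧
    x (k + m) ≤ x k * (∏ i ∈ Finset.range m, x (k + i) ^ (d - 1)) * (2 - (1 / 2) ^ m) := by
  induction m with
  | zero =>
    simp only [Finset.range_zero, Finset.prod_empty, le_refl, true_and, add_zero, pow_zero]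
    linarith
  | succ m ih =>
    obtain ⟨ih1, ih2⟩ := ih
    have h1 : (1 : ℝ) ≤ 2 ^ m := one_le_pow₀ (by norm_num)
    have h2 := grow hd hlo hk m
    have h3 : 3 ≤ x (k + m) := by linarith
    have hx0 : 0 < x (k + m) := by linarith
    set Q := ∏ i ∈ Finset.range m, x (k + i) ^ (d - 1) with hQ
    set z := x (k + m) with hz
    have h4 : z ≤ z ^ (d - 1) := by
      have : z ^ 1 ≤ z ^ (d - 1) := pow_le_pow_right₀ (by linarith) (by omega)
      simpa using this
    have h5 : 1 ≤ z ^ (d - 1) := by linarith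
    rw [Finset.prod_range_succ]
    refine ⟨one_le_mul_of_one_le_of_one_le ih1 h5, ?_⟩
    have h6 : x (k + (m + 1)) ≤ z ^ (d - 1) * z + 5 / 2 := by
      have := hup (k + m)
      rw [← add_assoc]
      refine this.trans ?_
      rw [← pow_succ, show d - 1 + 1 = d by omega]
    have h7 : ((1 : ℝ) / 2) ^ (m + 1) = (1 / 2) ^ m / 2 := by
      rw [pow_succ]; ring
    have h8 : (1 / 2 : ℝ) ^ m * 2 ^ m = 1 := by
      rw [← mul_pow]; norm_num
    have h9 : 0 < (1 / 2 : ℝ) ^ m := by positivity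
    rw [← hQ, ← hz, h7]
    -- the error term
    have h10 : 5 / 2 ≤ z ^ (d - 1) * (x k * Q * ((1 / 2) ^ m / 2)) := by
      have h11 : 3 ≤ x k * Q := by nlinarith
      have h12 : 3 * ((1 / 2) ^ m / 2) ≤ x k * Q * ((1 / 2) ^ m / 2) :=
        mul_le_mul_of_nonneg_right h11 (by positivity)
      have h13 : 3 * 2 ^ m ≤ z ^ (d - 1) := by linarith
      calc (5 / 2 : ℝ) ≤ (3 * 2 ^ m) * (3 * ((1 / 2) ^ m / 2)) := by
            have : (3 * 2 ^ m) * (3 * ((1 / 2 : ℝ) ^ m / 2)) = 9 / 2 * ((1 / 2) ^ m * 2 ^ m) := by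
              ring
            rw [this, h8]
            norm_num
        _ ≤ z ^ (d - 1) * (x k * Q * ((1 / 2) ^ m / 2)) :=
            mul_le_mul h13 h12 (by positivity) (by linarith)
    calc x (k + (m + 1)) ≤ z ^ (d - 1) * z + 5 / 2 := h6
      _ ≤ z ^ (d - 1) * (x k * Q * (2 - (1 / 2) ^ m)) +
          z ^ (d - 1) * (x k * Q * ((1 / 2) ^ m / 2)) :=
          add_le_add (mul_le_mul_of_nonneg_left ih2 (by linarith)) h10
      _ = x k * (Q * z ^ (d - 1)) * (2 - (1 / 2) ^ m / 2) := by ring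

theorem upper (hd : 2 ≤ d) (hx : ∀ i, 0 ≤ x i) (hup : ∀ i, x (i + 1) ≤ x i ^ d + 5 / 2) {k : ℕ}
    (hk : x k ≤ 3) (i : ℕ) : x (k + i) ≤ 4 ^ (d ^ i) - 1 := by
  induction i with
  | zero => simp; linarith
  | succ i ih =>
    have h1 : (4 : ℝ) ≤ 4 ^ (d ^ i) := by
      have : (4 : ℝ) ^ 1 ≤ 4 ^ (d ^ i) :=
        pow_le_pow_right₀ (by norm_num) (Nat.one_le_pow _ _ (by omega))
      simpa using this
    have h2 := pow_diff d hd _ (by linarith : (7 / 2 : ℝ) ≤ 4 ^ (d ^ i))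
    have h3 : x (k + i) ^ d ≤ (4 ^ (d ^ i) - 1) ^ d := pow_le_pow_left₀ (hx _) ih d
    have h4 := hup (k + i)
    rw [← add_assoc]
    have h5 : ((4 : ℝ) ^ (d ^ i)) ^ d = 4 ^ (d ^ (i + 1)) := by
      rw [← pow_mul, ← pow_succ]
    rw [← h5]
    linarith

theorem lower (hd : 2 ≤ d) (hlo : ∀ i, x i ^ d - 5 / 2 ≤ x (i + 1)) (h0 : 7 / 2 ≤ x 0) (i : ℕ) :
    (x 0 - 1) ^ (d ^ i) + 1 ≤ x i := by
  induction i with
  | zero => simp
  | succ i ih =>
    have h1 : 5 / 2 ≤ (x 0 - 1) ^ (d ^ i) := by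
      have : (x 0 - 1) ^ 1 ≤ (x 0 - 1) ^ (d ^ i) :=
        pow_le_pow_right₀ (by linarith) (Nat.one_le_pow _ _ (by omega))
      rw [pow_one] at this
      linarith
    have h2 := pow_diff d hd ((x 0 - 1) ^ (d ^ i) + 1) (by linarith)
    rw [add_sub_cancel_right] at h2
    have h3 : ((x 0 - 1) ^ (d ^ i) + 1) ^ d ≤ x i ^ d := pow_le_pow_left₀ (by linarith) ih d
    have h4 := hlo i
    have h5 : ((x 0 - 1) ^ (d ^ i)) ^ d = (x 0 - 1) ^ (d ^ (i + 1)) := by
      rw [← pow_mul, ← pow_succ]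
    rw [← h5]
    linarith

end real

theorem deriv_prod (d : ℕ) (c : ℂ) (k m : ℕ) (y : ℂ) :
    ‖deriv ((f d c)^[k + m]) y‖ = ‖deriv ((f d c)^[k]) y‖ *
      ((d : ℝ) ^ m * ∏ i ∈ Finset.range m, ‖(f d c)^[k + i] y‖ ^ (d - 1)) := by
  induction m with
  | zero => simp
  | succ m ih =>
    rw [← add_assoc, deriv_it_succ, norm_mul, norm_mul, ih, Finset.prod_range_succ, norm_pow,
      pow_succ]
    simp only [RCLike.norm_natCast]
    ring

end Der

open Pool.Agent.N253.LC.Der in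
theorem t_DER : S_DER := by
  intro d hd
  have hd1 : (1 : ℝ) ≤ d := by exact_mod_cast (by omega : 1 ≤ d)
  have hlog4 : 0 < Real.log 4 := Real.log_pos (by norm_num)
  set C : ℝ := 2 * (3 ^ d + 5 / 2) + d * Real.log 4 + 1 with hC
  have h3d : (9 : ℝ) ≤ 3 ^ d := by
    have : (3 : ℝ) ^ 2 ≤ 3 ^ d := pow_le_pow_right₀ (by norm_num) hd
    linarith
  have hdl : 0 ≤ d * Real.log 4 := by positivity
  refine ⟨C, by linarith, ?_⟩
  intro c j v Y a b hR hc hb1 t ht k hkj hsm hbig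
  obtain ⟨m, rfl⟩ : ∃ m, j = k + m := ⟨j - k, by omega⟩
  have htI : t ∈ Icc a b := Ioo_subset_Icc_self ht
  -- sizes
  set x : ℕ → ℝ := fun i => ‖(f d c)^[i] (Y t)‖ with hx
  have hx0 : ∀ i, 0 ≤ x i := fun i => norm_nonneg _
  have hsucc : ∀ i, (f d c)^[i + 1] (Y t) = ((f d c)^[i] (Y t)) ^ d + c := by
    intro i
    rw [Function.iterate_succ_apply']
    rfl
  have hup : ∀ i, x (i + 1) ≤ x i ^ d + 5 / 2 := by
    intro i
    simp only [hx]
    rw [hsucc]
    refine (norm_add_le _ _).trans ?_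
    rw [norm_pow]
    linarith
  have hlo : ∀ i, x i ^ d - 5 / 2 ≤ x (i + 1) := by
    intro i
    simp only [hx]
    rw [hsucc]
    have h1 : ‖((f d c)^[i] (Y t)) ^ d‖ ≤ ‖((f d c)^[i] (Y t)) ^ d + c‖ + ‖c‖ := by
      have := norm_sub_le (((f d c)^[i] (Y t)) ^ d + c) c
      rwa [add_sub_cancel_right] at this
    rw [norm_pow] at h1
    linarith
  have hxj : x (k + m) = Real.exp ((d : ℝ) ^ (k + m) * t) := by
    simp only [hx]
    rw [hR.eq t htI, norm_mul, hR.unit, mul_one, Complex.norm_real, Real.norm_of_nonneg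
      (Real.exp_pos _).le]
  have hdk : 0 < (d : ℝ) ^ (k + m) := by positivity
  have hmono : Real.exp ((d : ℝ) ^ (k + m) * a) ≤ Real.exp ((d : ℝ) ^ (k + m) * t) := by
    apply Real.exp_le_exp.mpr
    exact mul_le_mul_of_nonneg_left ht.1.le hdk.le
  -- the orbit does not meet the critical point
  have hne : ∀ l, l < k + m → (f d c)^[l] (Y t) ≠ 0 := by
    intro l hl h0
    have h1 : (f d c)^[k + m] (Y t) = P d (k + m - l) c := by
      have : k + m = (k + m - l) + l := by omega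
      conv_lhs => rw [this]
      rw [Function.iterate_add_apply, h0]
      rfl
    have h2 := hR.crit (k + m - l) (by omega) (by omega)
    rw [← h1] at h2
    have h3 : x (k + m) < Real.exp ((d : ℝ) ^ (k + m) * a) := h2
    rw [hxj] at h3
    linarith
  have hder := deriv_prod d c k m (Y t)
  have hQ := (prodb hd hlo hup hbig m)
  -- bound of `x k`
  have hxk : x k ≤ 3 ^ d + 5 / 2 := by
    rcases Nat.eq_zero_or_pos k with h0 | h0
    · subst h0
      by_contra hcon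
      push Not at hcon
      have h1 := lower hd hlo (by linarith) (0 + m)
      rw [hxj] at h1
      have h2 : Real.exp ((d : ℝ) ^ (0 + m) * t) ≤ Real.exp 1 ^ (d ^ (0 + m)) := by
        rw [← Real.exp_nat_mul]
        apply Real.exp_le_exp.mpr
        push_cast
        have : t ≤ 1 := ht.2.le.trans hb1
        exact mul_le_mul_of_nonneg_left this (by positivity)
      have h3 : (x 0 - 1) ^ (d ^ (0 + m)) < Real.exp 1 ^ (d ^ (0 + m)) := by linarith
      have h4 : x 0 - 1 < Real.exp 1 := lt_of_pow_lt_pow_left₀ _ (Real.exp_pos 1).le h3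
      have h5 := Real.exp_one_lt_d9
      linarith
    · obtain ⟨k', rfl⟩ : ∃ k', k = k' + 1 := ⟨k - 1, by omega⟩
      have h1 : x k' ≤ 3 := hsm k' (by omega)
      have h2 : x k' ^ d ≤ 3 ^ d := pow_le_pow_left₀ (hx0 _) h1 d
      have h3 := hup k'
      linarith
  constructor
  · -- the time of escape
    rcases Nat.eq_zero_or_pos k with h0 | h0
    · subst h0
      have : t ≤ 1 := ht.2.le.trans hb1
      simp only [pow_zero, one_mul]
      linarith
    · obtain ⟨k', rfl⟩ : ∃ k', k = k' + 1 := ⟨k - 1, by omega⟩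
      have h1 : x k' ≤ 3 := hsm k' (by omega)
      have h2 := upper hd hx0 hup h1 (1 + m)
      rw [← add_assoc, hxj] at h2
      have h3 : Real.exp ((d : ℝ) ^ (k' + 1 + m) * t) ≤
          Real.exp (Real.log 4 * (d ^ (1 + m) : ℕ)) := by
        rw [mul_comm (Real.log 4), Real.exp_nat_mul, Real.exp_log (by norm_num)]
        linarith
      have h4 := Real.exp_le_exp.mp h3
      push_cast at h4
      have h5 : (d : ℝ) ^ m * ((d : ℝ) ^ (k' + 1) * t) ≤ (d : ℝ) ^ m * (d * Real.log 4) := by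
        calc (d : ℝ) ^ m * ((d : ℝ) ^ (k' + 1) * t) = (d : ℝ) ^ (k' + 1 + m) * t := by
              rw [pow_add (d : ℝ) (k' + 1) m]; ring
          _ ≤ Real.log 4 * (d : ℝ) ^ (1 + m) := h4
          _ = (d : ℝ) ^ m * (d * Real.log 4) := by rw [pow_add, pow_one]; ring
      have h6 := le_of_mul_le_mul_left h5 (by positivity)
      linarith
  · -- the derivative
    have hG' : deriv ((f d c)^[k + m]) (Y t) ≠ 0 := by
      have hall : ∀ l, l ≤ k + m → deriv ((f d c)^[l]) (Y t) ≠ 0 := by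
        intro l hl
        induction l with
        | zero =>
          rw [Function.iterate_zero, deriv_id]
          exact one_ne_zero
        | succ l ih =>
          rw [deriv_it_succ]
          have hd0 : (d : ℂ) ≠ 0 := by exact_mod_cast (by omega : d ≠ 0)
          exact mul_ne_zero (mul_ne_zero hd0 (pow_ne_zero _ (hne l (by omega)))) (ih (by omega))
      exact hall _ le_rfl
    have hstr : HasStrictDerivAt ((f d c)^[k + m]) (deriv ((f d c)^[k + m]) (Y t)) (Y t) :=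
      (diff_it d c (k + m)).contDiffAt.hasStrictDerivAt one_ne_zero
    have hleft := (hstr.hasStrictFDerivAt_equiv hG').eventually_left_inverse
    have hinv := (hstr.to_localInverse hG').hasDerivAt
    have hYc : ContinuousAt Y t := (hR.cont t htI).continuousAt (Icc_mem_nhds ht.1 ht.2)
    have hh : HasDerivAt (fun s : ℝ => ((Real.exp ((d : ℝ) ^ (k + m) * s) : ℝ) : ℂ) * v)
        (((Real.exp ((d : ℝ) ^ (k + m) * t) * (d : ℝ) ^ (k + m) : ℝ) : ℂ) * v) t := by
      have h1 : HasDerivAt (fun s : ℝ => (d : ℝ) ^ (k + m) * s) ((d : ℝ) ^ (k + m)) t := by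
        simpa using (hasDerivAt_id t).const_mul ((d : ℝ) ^ (k + m))
      have h2 := h1.exp
      exact h2.ofReal_comp.mul_const v
    have hhY : ((Real.exp ((d : ℝ) ^ (k + m) * t) : ℝ) : ℂ) * v = (f d c)^[k + m] (Y t) :=
      (hR.eq t htI).symm
    have hcomp := HasDerivAt.scomp_of_eq (𝕜' := ℂ) t hinv hh hhY.symm
    have hev : Y =ᶠ[𝓝 t] (hstr.localInverse ((f d c)^[k + m]) _ (Y t) hG') ∘
        (fun s : ℝ => ((Real.exp ((d : ℝ) ^ (k + m) * s) : ℝ) : ℂ) * v) := by
      filter_upwards [hYc.eventually hleft, Icc_mem_nhds ht.1 ht.2] with s hs1 hs2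
      simp only [Function.comp]
      rw [← hR.eq s hs2]
      exact hs1.symm
    refine ⟨_, hcomp.congr_of_eventuallyEq hev, ?_⟩
    rw [smul_eq_mul, norm_mul, norm_mul, hR.unit, mul_one, Complex.norm_real, norm_inv,
      Real.norm_of_nonneg (by positivity), ← hxj, hder]
    set Q := ∏ i ∈ Finset.range m, ‖(f d c)^[k + i] (Y t)‖ ^ (d - 1) with hQdef
    have hQ1 : 1 ≤ Q := hQ.1
    have hQ2 : x (k + m) ≤ x k * Q * (2 - (1 / 2) ^ m) := hQ.2
    have hDk : 0 < ‖deriv ((f d c)^[k]) (Y t)‖ := by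
      by_contra hcon
      have h0 : ‖deriv ((f d c)^[k]) (Y t)‖ = 0 := le_antisymm (not_lt.mp hcon) (norm_nonneg _)
      rw [h0, zero_mul] at hder
      exact hG' (norm_eq_zero.mp hder)
    have hQpos : 0 < Q := by linarith
    have hdm : 0 < (d : ℝ) ^ m := by positivity
    have hkey : x (k + m) * (d : ℝ) ^ (k + m) *
        (‖deriv ((f d c)^[k]) (Y t)‖ * ((d : ℝ) ^ m * Q))⁻¹ * ‖deriv ((f d c)^[k]) (Y t)‖ =
        x (k + m) / Q * (d : ℝ) ^ k := by
      rw [pow_add]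
      field_simp
    rw [hkey]
    refine mul_le_mul_of_nonneg_right ?_ (by positivity)
    rw [div_le_iff₀ hQpos]
    have h9 : 0 < (1 / 2 : ℝ) ^ m := by positivity
    have hxk0 : 0 ≤ x k := hx0 k
    have hxkQ : 0 ≤ x k * Q := by positivity
    calc x (k + m) ≤ x k * Q * (2 - (1 / 2) ^ m) := hQ2
      _ ≤ x k * Q * 2 := mul_le_mul_of_nonneg_left (by linarith) hxkQ
      _ = (2 * x k) * Q := by ring
      _ ≤ C * Q := mul_le_mul_of_nonneg_right (by linarith) hQpos.le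

end Pool.Agent.N253.LC
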