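import Mathlib
import Pool.Agent.H713R2.Ext3

/-!
# Project LC: harmonic measure and the derivative of the exterior map, statements (general facts)
-/

set_option autoImplicit false

open Set Filter Metric Topology MeasureTheory

namespace Pool.Agent.N253.LC

/-- `F t = t ^ (e + o(1))` for `t → 0+`. -/
def PowLaw (F : ℝ → ℝ) (e : ℝ) : Prop := ∀ δ : ℝ, 0 < δ → ∀ᶠ t in 𝓝[>] (0 : ℝ),
  t ^ (e + δ) ≤ F t ∧ F t ≤ t ^ (e - δ)

/-- The angles of the rays which land in a disc of radius `r`, if the exterior map has small level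
in the disc of radius `2 r`. -/
def S_HARM : Prop := ∀ ψ : ℂ → ℂ, DifferentiableOn ℂ ψ {z | 1 < ‖z‖} → InjOn ψ {z | 1 < ‖z‖} →
  ∀ (x : ℂ) (r t : ℝ), 0 < r → 0 < t → (∀ w : ℂ, 1 < ‖w‖ → ‖ψ w - x‖ ≤ 2 * r → ‖w‖ ≤ Real.exp t) →
  volume {θ : ℝ | θ ∈ Ioc (-Real.pi) Real.pi ∧ ∃ c ∈ ball x r,
    Tendsto (fun s : ℝ => ψ (s * Complex.exp (θ * Complex.I))) (𝓝[>] 1) (𝓝 c)} ≤
    ENNReal.ofReal (4 * Real.pi * t)

/-- The exponent of the derivative along a ray. -/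
def S_DERV : Prop := ∀ ψ : ℂ → ℂ, DifferentiableOn ℂ ψ {z | 1 < ‖z‖} → InjOn ψ {z | 1 < ‖z‖} →
  ∀ (u x : ℂ) (E : ℝ), ‖u‖ = 1 → 0 < E → x ∉ ψ '' {z | 1 < ‖z‖} →
  PowLaw (fun t => ‖ψ (Real.exp t * u) - x‖) E →
  PowLaw (fun t => ‖deriv ψ (Real.exp t * u)‖) (E - 1)

end Pool.Agent.N253.LC
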