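import Mathlib
import Pool.Agent.N253.LC.Stm
import Pool.Agent.N253.LC.Stm2
import Pool.Agent.N253.SM.Core

/-!
# Project LC: from two points of a ray to local connectivity and to the exponents

General facts about the exterior map `ψ` of a compact set `M` and a point `c₀` of its boundary.
-/

set_option autoImplicit false

open Set Filter Metric Topology MeasureTheory

namespace Pool.Agent.N253.LC

open Pool.Agent.H713R2 (IsExteriorMap)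

/-- The results of the parameter analysis for one exterior map. -/
structure Hyp (M : Set ℂ) (ψ : ℂ → ℂ) (c₀ : ℂ) (α : ℝ) : Prop where
  ext : IsExteriorMap M ψ
  comp : IsCompact M
  mem : c₀ ∈ M
  cl : c₀ ∈ closure Mᶜ
  pos : 0 < α
  two : ∀ δ : ℝ, 0 < δ → δ < α → ∃ R₀ : ℝ, 0 < R₀ ∧ ∀ R : ℝ, 0 < R → R ≤ R₀ → ∀ u : ℂ, ‖u‖ = 1 →
    (∀ t : ℝ, 0 < t → ‖ψ (Real.exp t * u) - c₀‖ ≤ R → t ≤ R ^ (α - δ)) ∧
    ∀ t₁ t₂ : ℝ, 0 < t₁ → 0 < t₂ → ‖ψ (Real.exp t₁ * u) - c₀‖ ≤ R →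
      ‖ψ (Real.exp t₂ * u) - c₀‖ ≤ R → R / 4 ≤ ‖ψ (Real.exp t₁ * u) - ψ (Real.exp t₂ * u)‖ →
      R ^ (α + δ) ≤ max t₁ t₂

variable {M : Set ℂ} {ψ : ℂ → ℂ} {c₀ : ℂ} {α : ℝ}

theorem nexp (t : ℝ) {u : ℂ} (hu : ‖u‖ = 1) : ‖(Real.exp t : ℂ) * u‖ = Real.exp t := by
  rw [norm_mul, hu, mul_one, Complex.norm_real, Real.norm_of_nonneg (Real.exp_pos _).le]

theorem nexp_gt {t : ℝ} (ht : 0 < t) {u : ℂ} (hu : ‖u‖ = 1) : 1 < ‖(Real.exp t : ℂ) * u‖ := by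
  rw [nexp t hu]; exact Real.one_lt_exp_iff.mpr ht

theorem isOpen_ext : IsOpen {z : ℂ | 1 < ‖z‖} := isOpen_lt continuous_const continuous_norm

theorem polar {w : ℂ} (hw : 1 < ‖w‖) : ∃ (b : ℝ) (u : ℂ), 0 < b ∧ ‖u‖ = 1 ∧ b = Real.log ‖w‖ ∧
    u = w / ‖w‖ ∧ w = (Real.exp b : ℂ) * u := by
  have h0 : (‖w‖ : ℂ) ≠ 0 := by
    have : ‖w‖ ≠ 0 := by linarith
    exact_mod_cast this
  refine ⟨Real.log ‖w‖, w / ‖w‖, Real.log_pos hw, ?_, rfl, rfl, ?_⟩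
  · rw [norm_div, Complex.norm_real, norm_norm, div_self (by linarith)]
  · rw [Real.exp_log (by linarith)]
    field_simp

namespace Hyp

theorem notMem (h : Hyp M ψ c₀ α) {w : ℂ} (hw : 1 < ‖w‖) : ψ w ∉ M := by
  have h1 : ψ w ∈ Mᶜ := by
    rw [← h.ext.image]
    exact mem_image_of_mem ψ hw
  exact h1

theorem ne (h : Hyp M ψ c₀ α) {w : ℂ} (hw : 1 < ‖w‖) : 0 < ‖ψ w - c₀‖ := by
  rw [norm_pos_iff, sub_ne_zero]
  rintro h1
  exact h.notMem hw (h1 ▸ h.mem)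

theorem cont (h : Hyp M ψ c₀ α) {u : ℂ} (hu : ‖u‖ = 1) {a b : ℝ} (ha : 0 < a) :
    ContinuousOn (fun t : ℝ => ‖ψ (Real.exp t * u) - c₀‖) (Icc a b) := by
  have h1 : ContinuousOn (fun t : ℝ => ψ (Real.exp t * u)) (Icc a b) := by
    refine h.ext.diff.continuousOn.comp (by fun_prop) ?_
    intro t ht
    exact nexp_gt (lt_of_lt_of_le ha ht.1) hu
  exact (h1.sub continuousOn_const).norm

/-- A point of the ray where the distance from `c₀` is `R`. -/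
theorem ivt (h : Hyp M ψ c₀ α) {u : ℂ} (hu : ‖u‖ = 1) {a b R : ℝ} (ha : 0 < a) (hb : 0 < b)
    (h1 : ‖ψ (Real.exp a * u) - c₀‖ ≤ R) (h2 : R ≤ ‖ψ (Real.exp b * u) - c₀‖) :
    ∃ t, min a b ≤ t ∧ t ≤ max a b ∧ ‖ψ (Real.exp t * u) - c₀‖ = R := by
  rcases le_total a b with hab | hab
  · have h3 := intermediate_value_Icc hab (h.cont hu (b := b) ha)
    obtain ⟨t, ht, h4⟩ := h3 ⟨h1, h2⟩
    refine ⟨t, ?_, ?_, h4⟩
    · rw [min_eq_left hab]; exact ht.1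
    · rw [max_eq_right hab]; exact ht.2
  · have h3 := intermediate_value_Icc' hab (h.cont hu (b := a) hb)
    obtain ⟨t, ht, h4⟩ := h3 ⟨h1, h2⟩
    refine ⟨t, ?_, ?_, h4⟩
    · rw [min_eq_right hab]; exact ht.1
    · rw [max_eq_left hab]; exact ht.2

/-- A ray which comes near `c₀` stays near `c₀`. -/
theorem stay (h : Hyp M ψ c₀ α) {ε : ℝ} (hε : 0 < ε) (hε1 : ε < 1) :
    ∃ r₀ : ℝ, 0 < r₀ ∧ r₀ < 1 ∧ ∀ r : ℝ, 0 < r → r ≤ r₀ → ∀ u : ℂ, ‖u‖ = 1 → ∀ b : ℝ, 0 < b →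
      ‖ψ (Real.exp b * u) - c₀‖ ≤ r → ∀ t : ℝ, 0 < t → t ≤ b →
      ‖ψ (Real.exp t * u) - c₀‖ ≤ r ^ (1 - ε) := by
  have hα := h.pos
  obtain ⟨δ, hδ⟩ : ∃ δ : ℝ, δ = ε * α / 4 := ⟨_, rfl⟩
  have hδ0 : 0 < δ := by rw [hδ]; positivity
  have hδα : δ < α := by rw [hδ]; nlinarith
  obtain ⟨R₀, hR₀, H⟩ := h.two δ hδ0 hδα
  obtain ⟨q₁, hq₁, hq₁1, Q1⟩ := SM.small_pow 2 ε hε
  obtain ⟨q₂, hq₂, hq₂1, Q2⟩ := SM.small_pow (1 / R₀) (1 - ε) (by linarith)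
  refine ⟨min R₀ (min q₁ q₂), by positivity,
    lt_of_le_of_lt ((min_le_right _ _).trans (min_le_left _ _)) hq₁1, ?_⟩
  intro r hr hrr u hu b hb hrb t ht htb
  have hr1 : r ≤ R₀ := hrr.trans (min_le_left _ _)
  have hr2 : r ≤ q₁ := hrr.trans ((min_le_right _ _).trans (min_le_left _ _))
  have hr3 : r ≤ q₂ := hrr.trans ((min_le_right _ _).trans (min_le_right _ _))
  have hrlt : r < 1 := lt_of_le_of_lt hr2 hq₁1
  obtain ⟨R, hR⟩ : ∃ R : ℝ, R = r ^ (1 - ε) := ⟨_, rfl⟩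
  have hR0 : 0 < R := by rw [hR]; exact Real.rpow_pos_of_pos hr _
  have hRR : R ≤ R₀ := by
    have h1 := Q2 r hr hr3
    rw [← hR, one_div, inv_mul_le_iff₀ hR₀, mul_one] at h1
    exact h1
  have hrR : 2 * r ≤ R := by
    have h1 := Q1 r hr hr2
    have h2 : r = r ^ ε * R := by
      rw [hR, ← Real.rpow_add hr]
      rw [show ε + (1 - ε) = 1 by ring, Real.rpow_one]
    nlinarith
  rw [← hR]
  by_contra hcon
  push Not at hcon
  obtain ⟨s, hs1, hs2, hs3⟩ := h.ivt hu hb ht (hrb.trans (by linarith : r ≤ R)) hcon.le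
  rw [max_eq_left htb] at hs2
  rw [min_eq_right htb] at hs1
  have hs0 : 0 < s := lt_of_lt_of_le ht hs1
  have h1 := (H r hr hr1 u hu).1 b hb hrb
  have h2 := (H R hR0 hRR u hu).2 s b hs0 hb hs3.le (hrb.trans (by linarith)) (by
    have h3 : ‖ψ (Real.exp s * u) - c₀‖ ≤ ‖ψ (Real.exp s * u) - ψ (Real.exp b * u)‖ +
        ‖ψ (Real.exp b * u) - c₀‖ := by
      have := norm_add_le (ψ (Real.exp s * u) - ψ (Real.exp b * u)) (ψ (Real.exp b * u) - c₀)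
      rwa [sub_add_sub_cancel] at this
    linarith)
  rw [max_eq_right hs2] at h2
  have h3 : r ^ (α - δ) < R ^ (α + δ) := by
    rw [hR, ← Real.rpow_mul hr.le]
    apply Real.rpow_lt_rpow_of_exponent_gt hr hrlt
    rw [hδ]
    nlinarith [mul_pos hε hα, mul_pos (mul_pos hε hε) hα]
  linarith

/-- A ray which is near `c₀` at some level is near `c₀` at higher levels. -/
theorem climb (h : Hyp M ψ c₀ α) {δ : ℝ} (hδ : 0 < δ) (hδα : δ < α) :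
    ∃ R₀ : ℝ, 0 < R₀ ∧ ∀ R : ℝ, 0 < R → R ≤ R₀ → ∀ u : ℂ, ‖u‖ = 1 → ∀ b t : ℝ, 0 < b → b ≤ t →
      t < R ^ (α + δ) → ‖ψ (Real.exp b * u) - c₀‖ ≤ R / 2 → ‖ψ (Real.exp t * u) - c₀‖ ≤ R := by
  obtain ⟨R₀, hR₀, H⟩ := h.two δ hδ hδα
  refine ⟨R₀, hR₀, ?_⟩
  intro R hR hRR u hu b t hb hbt ht hRb
  by_contra hcon
  push Not at hcon
  obtain ⟨s, hs1, hs2, hs3⟩ := h.ivt hu hb (hb.trans_le hbt) (hRb.trans (by linarith : R / 2 ≤ R))
    hcon.le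
  rw [max_eq_right hbt] at hs2
  rw [min_eq_left hbt] at hs1
  have hs0 : 0 < s := lt_of_lt_of_le hb hs1
  have h2 := (H R hR hRR u hu).2 s b hs0 hb hs3.le (hRb.trans (by linarith)) (by
    have h3 : ‖ψ (Real.exp s * u) - c₀‖ ≤ ‖ψ (Real.exp s * u) - ψ (Real.exp b * u)‖ +
        ‖ψ (Real.exp b * u) - c₀‖ := by
      have := norm_add_le (ψ (Real.exp s * u) - ψ (Real.exp b * u)) (ψ (Real.exp b * u) - c₀)
      rwa [sub_add_sub_cancel] at this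
    linarith)
  rw [max_eq_left hs1] at h2
  linarith

/-- Local connectivity at `c₀` with modulus `r ^ (1 - ε)`. -/
theorem conn (hC : S_CON) (h : Hyp M ψ c₀ α) {ε : ℝ} (hε : 0 < ε) (hε1 : ε < 1) :
    ∃ r₀ : ℝ, 0 < r₀ ∧ ∀ r : ℝ, 0 < r → r ≤ r₀ → ∀ c ∈ M, ‖c - c₀‖ ≤ r →
      ∃ S : Set ℂ, S ⊆ M ∧ IsCompact S ∧ IsConnected S ∧ c ∈ S ∧ c₀ ∈ S ∧
        S ⊆ closedBall c₀ (r ^ (1 - ε)) := by
  obtain ⟨r₀, hr₀, hr₀1, H⟩ := h.stay hε hε1
  refine ⟨r₀, hr₀, fun r hr hrr c hc hcr => ?_⟩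
  have hle : r ≤ r ^ (1 - ε) := by
    have h1 : r ^ (1 : ℝ) ≤ r ^ (1 - ε) :=
      Real.rpow_le_rpow_of_exponent_ge hr (by linarith) (by linarith)
    rwa [Real.rpow_one] at h1
  refine hC M ψ c c₀ (r ^ (1 - ε)) h.comp h.ext hc h.mem (hcr.trans hle) ?_
  intro w hw hseg t ht htw
  obtain ⟨b, u, hb, hu, hb', hu', hwu⟩ := polar hw
  have h1 : ‖ψ w - c₀‖ ≤ r := by
    have h2 : segment ℝ c c₀ ⊆ closedBall c₀ r := by
      apply (convex_closedBall c₀ r).segment_subset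
      · rwa [mem_closedBall, dist_eq_norm]
      · exact mem_closedBall_self hr.le
    have h3 := h2 hseg
    rwa [mem_closedBall, dist_eq_norm] at h3
  rw [hwu] at h1
  have h2 := H r hr hrr u hu b hb h1 (Real.log t) (Real.log_pos ht) (by
    rw [hb']
    exact Real.log_le_log (by linarith) htw)
  rw [Real.exp_log (by linarith)] at h2
  rw [← hu']
  exact h2

/-- Near `c₀` the level is small. -/
theorem level (h : Hyp M ψ c₀ α) {δ : ℝ} (hδ : 0 < δ) (hδα : δ < α) :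
    ∃ R₀ : ℝ, 0 < R₀ ∧ ∀ R : ℝ, 0 < R → R ≤ R₀ → ∀ w : ℂ, 1 < ‖w‖ → ‖ψ w - c₀‖ ≤ R →
      Real.log ‖w‖ ≤ R ^ (α - δ) := by
  obtain ⟨R₀, hR₀, H⟩ := h.two δ hδ hδα
  refine ⟨R₀, hR₀, fun R hR hRR w hw hwR => ?_⟩
  obtain ⟨b, u, hb, hu, hb', hu', hwu⟩ := polar hw
  rw [← hb']
  rw [hwu] at hwR
  exact (H R hR hRR u hu).1 b hb hwR

theorem inv_pow {α : ℝ} (hα : 0 < α) {δ : ℝ} (hδ : 0 < δ) :
    ∃ η : ℝ, 0 < η ∧ η < α ∧ 1 / (α - η) ≤ 1 / α + δ ∧ 1 / α - δ ≤ 1 / (α + 2 * η) := by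
  obtain ⟨η, hη⟩ : ∃ η : ℝ, η = min (α / 2) (δ * α ^ 2 / 2) := ⟨_, rfl⟩
  have h0 : 0 < η := by rw [hη]; positivity
  have h1 : η ≤ α / 2 := by rw [hη]; exact min_le_left _ _
  have h2 : η ≤ δ * α ^ 2 / 2 := by rw [hη]; exact min_le_right _ _
  have h3 : 0 < α - η := by linarith
  have h4 : 0 < α + 2 * η := by linarith
  refine ⟨η, h0, by linarith, ?_, ?_⟩
  · rw [div_add' _ _ _ hα.ne', div_le_div_iff₀ h3 hα]
    nlinarith [mul_pos hδ hα, mul_nonneg (mul_pos hδ hα).le h3.le]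
  · rw [sub_le_iff_le_add, div_add' _ _ _ h4.ne', div_le_div_iff₀ hα h4]
    nlinarith [mul_pos hδ hα, mul_nonneg (mul_pos hδ hα).le h0.le]

theorem tendsto_rpow_zero {p : ℝ} (hp : 0 < p) :
    Tendsto (fun t : ℝ => t ^ p) (𝓝[>] 0) (𝓝[>] 0) := by
  rw [tendsto_nhdsWithin_iff]
  constructor
  · have h2 : Tendsto (fun s : ℝ => s ^ p) (𝓝 0) (𝓝 ((0 : ℝ) ^ p)) :=
      (Real.continuousAt_rpow_const 0 p (Or.inr hp.le)).tendsto
    rw [Real.zero_rpow hp.ne'] at h2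
    exact h2.mono_left nhdsWithin_le_nhds
  · filter_upwards [self_mem_nhdsWithin] with t ht
    exact Real.rpow_pos_of_pos ht p

theorem ev_le {R : ℝ} (hR : 0 < R) : ∀ᶠ t in 𝓝[>] (0 : ℝ), t ≤ R :=
  nhdsWithin_le_nhds (Iic_mem_nhds hR)

theorem ev_lt {R : ℝ} (hR : 0 < R) : ∀ᶠ t in 𝓝[>] (0 : ℝ), t < R :=
  nhdsWithin_le_nhds (Iio_mem_nhds hR)

theorem ray_lower (h : Hyp M ψ c₀ α) {u : ℂ} (hu : ‖u‖ = 1) {δ : ℝ} (hδ : 0 < δ) :
    ∀ᶠ t in 𝓝[>] (0 : ℝ), t ^ (1 / α + δ) ≤ ‖ψ (Real.exp t * u) - c₀‖ := by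
  obtain ⟨η, hη, hηα, h1, -⟩ := inv_pow h.pos hδ
  obtain ⟨R₀, hR₀, H⟩ := h.two η hη hηα
  have hp : 0 < 1 / (α - η) := by
    have : 0 < α - η := by linarith
    positivity
  filter_upwards [(tendsto_rpow_zero hp).eventually (ev_le hR₀), ev_lt one_pos,
    self_mem_nhdsWithin] with t ht ht1 ht0
  have ht0 : 0 < t := ht0
  by_contra hcon
  push Not at hcon
  have h2 : t ^ (1 / α + δ) ≤ t ^ (1 / (α - η)) :=
    Real.rpow_le_rpow_of_exponent_ge ht0 ht1.le h1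
  have h3 := hcon.trans_le h2
  have h4 := h.ne (nexp_gt ht0 hu)
  have h5 := (H _ h4 (h3.le.trans ht) u hu).1 t ht0 le_rfl
  have h6 : ‖ψ (Real.exp t * u) - c₀‖ ^ (α - η) < (t ^ (1 / (α - η))) ^ (α - η) :=
    Real.rpow_lt_rpow h4.le h3 (by linarith)
  rw [← Real.rpow_mul ht0.le, one_div, inv_mul_cancel₀ (by linarith), Real.rpow_one] at h6
  linarith

theorem ray_upper (h : Hyp M ψ c₀ α) {ζ : ℂ} (hζ : ‖ζ‖ = 1)
    (hc : MapClusterPt c₀ (𝓝[{w | 1 < ‖w‖}] ζ) ψ) {δ : ℝ} (hδ : 0 < δ) :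
    ∀ᶠ t in 𝓝[>] (0 : ℝ), ‖ψ (Real.exp t * ζ) - c₀‖ ≤ t ^ (1 / α - δ) := by
  have hα := h.pos
  obtain ⟨η, hη, hηα, -, h1⟩ := inv_pow h.pos hδ
  obtain ⟨R₀, hR₀, H⟩ := h.climb hη hηα
  have hp : 0 < 1 / (α + 2 * η) := by positivity
  filter_upwards [(tendsto_rpow_zero hp).eventually (ev_le hR₀), ev_lt one_pos,
    self_mem_nhdsWithin] with t ht ht1 ht0
  have ht0 : 0 < t := ht0
  refine le_trans ?_ (Real.rpow_le_rpow_of_exponent_ge ht0 ht1.le h1)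
  obtain ⟨R, hR⟩ : ∃ R : ℝ, R = t ^ (1 / (α + 2 * η)) := ⟨_, rfl⟩
  have hR0 : 0 < R := by rw [hR]; exact Real.rpow_pos_of_pos ht0 _
  rw [← hR] at ht ⊢
  have htR : t < R ^ (α + η) := by
    rw [hR, ← Real.rpow_mul ht0.le]
    calc t = t ^ (1 : ℝ) := (Real.rpow_one t).symm
      _ < t ^ (1 / (α + 2 * η) * (α + η)) := by
        apply Real.rpow_lt_rpow_of_exponent_gt ht0 ht1
        rw [one_div, inv_mul_lt_iff₀ (by positivity)]
        linarith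
  by_contra hcon
  push Not at hcon
  have hζ0 : (‖ζ‖ : ℂ) ≠ 0 := by rw [hζ]; norm_num
  have hg : ContinuousAt (fun w : ℂ => ‖ψ (Real.exp t * (w / ‖w‖)) - c₀‖) ζ := by
    have e1 : ContinuousAt (fun w : ℂ => (Real.exp t : ℂ) * (w / ‖w‖)) ζ := by
      refine continuousAt_const.mul (continuousAt_id.div ?_ hζ0)
      exact (Complex.continuous_ofReal.comp continuous_norm).continuousAt
    have e2 : ContinuousAt ψ ((Real.exp t : ℂ) * (ζ / ‖ζ‖)) := by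
      rw [hζ]
      have e3 : (Real.exp t : ℂ) * (ζ / ((1 : ℝ) : ℂ)) = (Real.exp t : ℂ) * ζ := by simp
      rw [e3]
      exact (h.ext.diff.differentiableAt (isOpen_ext.mem_nhds (nexp_gt ht0 hζ))).continuousAt
    have e4 : ContinuousAt (fun w : ℂ => ψ ((Real.exp t : ℂ) * (w / ‖w‖))) ζ :=
      ContinuousAt.comp (f := fun w : ℂ => (Real.exp t : ℂ) * (w / ‖w‖)) (g := ψ) e2 e1
    exact (e4.sub continuousAt_const).norm
  have hg' : ∀ᶠ w in 𝓝[{w | 1 < ‖w‖}] ζ, R < ‖ψ (Real.exp t * (w / ‖w‖)) - c₀‖ := by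
    refine nhdsWithin_le_nhds (hg.eventually_const_lt ?_)
    show R < ‖ψ (↑(Real.exp t) * (ζ / ↑‖ζ‖)) - c₀‖
    rw [hζ]
    simpa using hcon
  have hlog : ∀ᶠ w : ℂ in 𝓝[{w | 1 < ‖w‖}] ζ, ‖w‖ < Real.exp t := by
    refine nhdsWithin_le_nhds (continuous_norm.continuousAt.eventually_lt_const ?_)
    show ‖ζ‖ < Real.exp t
    rw [hζ]
    exact Real.one_lt_exp_iff.mpr ht0
  have hfr : ∃ᶠ w in 𝓝[{w | 1 < ‖w‖}] ζ, ψ w ∈ closedBall c₀ (R / 2) :=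
    (mapClusterPt_iff_frequently.mp hc) _ (closedBall_mem_nhds c₀ (by positivity))
  obtain ⟨w, hw1, hw2, hw3, hw4⟩ := (hfr.and_eventually (hg'.and (hlog.and
    self_mem_nhdsWithin))).exists
  have hw4 : 1 < ‖w‖ := hw4
  obtain ⟨b, u, hb, hu, hb', hu', hwu⟩ := polar hw4
  rw [mem_closedBall, dist_eq_norm, hwu] at hw1
  have h5 := H R hR0 ht u hu b t hb (by
    rw [hb', ← Real.log_exp t]
    exact Real.log_le_log (by linarith) hw3.le) htR hw1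
  rw [← hu'] at hw2
  linarith

/-- Unrestricted limits. -/
theorem unres (hK : S_KOE) (h : Hyp M ψ c₀ α) {ζ : ℂ} (hζ : ‖ζ‖ = 1)
    (hc : MapClusterPt c₀ (𝓝[{w | 1 < ‖w‖}] ζ) ψ) {δ : ℝ} (hδ : 0 < δ) :
    ∀ᶠ w in 𝓝[{w | 1 < ‖w‖}] ζ, ‖ψ w - c₀‖ ≤ ‖w - ζ‖ ^ (1 / α - δ) := by
  have hα := h.pos
  obtain ⟨β, hβ⟩ : ∃ β : ℝ, β = 1 / α := ⟨_, rfl⟩
  have hβ0 : 0 < β := by rw [hβ]; positivity
  obtain ⟨ε, hε⟩ : ∃ ε : ℝ, ε = min δ β := ⟨_, rfl⟩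
  have hε0 : 0 < ε := by rw [hε]; positivity
  have hεδ : ε ≤ δ := by rw [hε]; exact min_le_left _ _
  have hεβ : ε ≤ β := by rw [hε]; exact min_le_right _ _
  obtain ⟨K, hK1, HK⟩ := hK
  obtain ⟨ε₁, hε₁⟩ : ∃ x : ℝ, x = ε / (2 * β) := ⟨_, rfl⟩
  have hε₁0 : 0 < ε₁ := by rw [hε₁]; positivity
  have hε₁1 : ε₁ < 1 := by
    rw [hε₁, div_lt_one (by positivity)]; linarith
  have hβε : β * ε₁ = ε / 2 := by rw [hε₁]; field_simp
  obtain ⟨r₀, hr₀, hr₀1, H⟩ := h.stay hε₁0 hε₁1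
  obtain ⟨q₁, hq₁, hq₁1, Q1⟩ := SM.small_pow (K + 1) (ε / 4) (by positivity)
  have hp : 0 < β - ε / 2 := by linarith
  have hup := h.ray_upper hζ hc (δ := ε / 4) (by positivity)
  rw [← hβ] at hup ⊢
  have hs : Tendsto (fun w : ℂ => ‖w - ζ‖) (𝓝[{w | 1 < ‖w‖}] ζ) (𝓝[>] 0) := by
    rw [tendsto_nhdsWithin_iff]
    constructor
    · have : Tendsto (fun w : ℂ => ‖w - ζ‖) (𝓝 ζ) (𝓝 ‖ζ - ζ‖) :=
        (continuous_id.sub continuous_const).norm.tendsto ζ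
      rw [sub_self, norm_zero] at this
      exact this.mono_left nhdsWithin_le_nhds
    · filter_upwards [self_mem_nhdsWithin] with w hw
      have hw : 1 < ‖w‖ := hw
      rw [mem_Ioi, norm_pos_iff, sub_ne_zero]
      rintro rfl
      linarith
  filter_upwards [hs.eventually hup, hs.eventually (ev_le hq₁), hs.eventually
    ((tendsto_rpow_zero hp).eventually (ev_le hr₀)),
    hs.eventually (ev_le (by norm_num : (0 : ℝ) < 1 / 8)),
    hs.eventually self_mem_nhdsWithin, self_mem_nhdsWithin] with w h1 h2 h3 h4 h5 h6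
  obtain ⟨s, hsw⟩ : ∃ s : ℝ, s = ‖w - ζ‖ := ⟨_, rfl⟩
  rw [← hsw] at h1 h2 h3 h4 h5 ⊢
  have hs0 : 0 < s := h5
  have hs1 : s < 1 := by linarith
  have h6 : 1 < ‖w‖ := h6
  obtain ⟨b, u, hb, hu, hb', hu', hwu⟩ := polar h6
  have hws : ‖w‖ ≤ 1 + s := by
    have := norm_add_le ζ (w - ζ)
    rw [add_sub_cancel, hζ, ← hsw] at this
    exact this
  have hbs : b ≤ s := by
    rw [hb']
    have := Real.log_le_sub_one_of_pos (by linarith : 0 < ‖w‖)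
    linarith
  have hes : Real.exp s ≤ 2 := by
    have h7 : Real.exp s ≤ Real.exp (1 / 8) := Real.exp_le_exp.mpr h4
    have h8 : Real.exp (1 / 8 : ℝ) ^ 8 = Real.exp 1 := by
      rw [← Real.exp_nat_mul]; norm_num
    have h9 : Real.exp (1 / 8 : ℝ) ≤ 2 := by
      by_contra hcon
      push Not at hcon
      have : (2 : ℝ) ^ 8 < Real.exp (1 / 8 : ℝ) ^ 8 := pow_lt_pow_left₀ hcon (by norm_num) (by norm_num)
      rw [h8] at this
      nlinarith [Real.exp_one_lt_d9]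
    linarith
  have huw : ‖ζ - u‖ ≤ 2 * s := by
    have e1 : ‖w - u‖ = ‖w‖ - 1 := by
      have e2 : w - u = ((‖w‖ - 1 : ℝ) : ℂ) * u := by
        have e3 : w = (‖w‖ : ℂ) * u := by
          rw [hu']
          have : (‖w‖ : ℂ) ≠ 0 := by
            have : ‖w‖ ≠ 0 := by linarith
            exact_mod_cast this
          field_simp
        calc w - u = (‖w‖ : ℂ) * u - u := by rw [← e3]
          _ = _ := by push_cast; ring
      rw [e2, norm_mul, hu, mul_one, Complex.norm_real, Real.norm_of_nonneg (by linarith)]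
    have e4 := norm_add_le (ζ - w) (w - u)
    rw [sub_add_sub_cancel, e1, norm_sub_rev ζ w, ← hsw] at e4
    linarith
  have h7 := HK ψ h.ext.diff h.ext.inj s ((Real.exp s : ℂ) * ζ) ((Real.exp s : ℂ) * u) c₀ hs0 h4
    (by rw [nexp s hζ]; linarith [Real.add_one_le_exp s])
    (by rw [nexp s hu]; linarith [Real.add_one_le_exp s])
    (by
      rw [← mul_sub, norm_mul, Complex.norm_real, Real.norm_of_nonneg (Real.exp_pos _).le]
      calc Real.exp s * ‖ζ - u‖ ≤ 2 * (2 * s) := by gcongr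
        _ = 4 * s := by ring)
    (by
      rw [h.ext.image]
      exact fun hh => hh h.mem)
  have h8 : ‖ψ (Real.exp s * u) - c₀‖ ≤ (K + 1) * s ^ (β - ε / 4) := by
    have e1 := norm_sub_le (ψ (Real.exp s * ζ) - c₀) (ψ (Real.exp s * ζ) - ψ (Real.exp s * u))
    rw [sub_sub_sub_cancel_left] at e1
    have e2 : K * ‖ψ (Real.exp s * ζ) - c₀‖ ≤ K * s ^ (β - ε / 4) := by gcongr
    linarith
  have h9 : (K + 1) * s ^ (β - ε / 4) ≤ s ^ (β - ε / 2) := by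
    calc (K + 1) * s ^ (β - ε / 4) = ((K + 1) * s ^ (ε / 4)) * s ^ (β - ε / 2) := by
          rw [mul_assoc, ← Real.rpow_add hs0]; congr 2; ring
      _ ≤ 1 * s ^ (β - ε / 2) := by
          have := Q1 s hs0 h2
          have := Real.rpow_nonneg hs0.le (β - ε / 2)
          gcongr
      _ = s ^ (β - ε / 2) := one_mul _
  have h10 := H (s ^ (β - ε / 2)) (Real.rpow_pos_of_pos hs0 _) h3 u hu s hs0 (h8.trans h9) b hb hbs
  rw [← hwu, ← Real.rpow_mul hs0.le] at h10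
  refine h10.trans (Real.rpow_le_rpow_of_exponent_ge hs0 hs1.le ?_)
  nlinarith [mul_pos hε0 hε₁0]

/-- Some ray lands at `c₀`. -/
theorem exists_ray (h : Hyp M ψ c₀ α) :
    ∃ ζ : ℂ, ‖ζ‖ = 1 ∧ MapClusterPt c₀ (𝓝[{w | 1 < ‖w‖}] ζ) ψ := by
  have hα := h.pos
  obtain ⟨R₀, hR₀, H⟩ := h.level (δ := α / 2) (by positivity) (by linarith)
  obtain ⟨F, hF⟩ : ∃ F : Filter ℂ, F = 𝓟 {w | 1 < ‖w‖} ⊓ comap ψ (𝓝 c₀) := ⟨_, rfl⟩
  have hev : ∀ η : ℝ, 0 < η → ∀ᶠ w in F, 1 < ‖w‖ ∧ ‖w‖ ≤ Real.exp η := by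
    intro η hη
    have h1 : Tendsto (fun r : ℝ => r ^ (α - α / 2)) (𝓝[>] 0) (𝓝[>] 0) :=
      tendsto_rpow_zero (by linarith)
    obtain ⟨r, hr1, hr2, hr3⟩ := ((h1.eventually (ev_le hη)).and ((ev_le hR₀).and
      self_mem_nhdsWithin)).exists
    have hr3 : 0 < r := hr3
    have h2 : ∀ᶠ w in F, ψ w ∈ closedBall c₀ r := by
      rw [hF]
      exact (inf_le_right : _ ⊓ comap ψ (𝓝 c₀) ≤ _)
        (preimage_mem_comap (closedBall_mem_nhds c₀ hr3))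
    have h3 : ∀ᶠ w in F, 1 < ‖w‖ := by
      rw [hF]
      exact (inf_le_left : 𝓟 {w : ℂ | 1 < ‖w‖} ⊓ _ ≤ _) (mem_principal_self _)
    filter_upwards [h2, h3] with w h4 h5
    refine ⟨h5, ?_⟩
    rw [mem_closedBall, dist_eq_norm] at h4
    have h6 := (H r hr3 hr2 w h5 h4).trans hr1
    rwa [Real.log_le_iff_le_exp (by linarith)] at h6
  haveI hne : F.NeBot := by
    rw [hF, Filter.neBot_inf_comap_iff_map, map_principal, h.ext.image, inf_comm]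
    exact mem_closure_iff_clusterPt.mp h.cl
  have hcpt : IsCompact (closedBall (0 : ℂ) (Real.exp 1)) := isCompact_closedBall _ _
  have hle : F ≤ 𝓟 (closedBall (0 : ℂ) (Real.exp 1)) := by
    rw [le_principal_iff]
    filter_upwards [hev 1 one_pos] with w hw
    rw [mem_closedBall_zero_iff]
    exact hw.2
  obtain ⟨ζ, -, hζc⟩ := hcpt hle
  have hcl := clusterPt_iff_forall_mem_closure.mp hζc
  have hζ1 : ‖ζ‖ = 1 := by
    apply le_antisymm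
    · by_contra hcon
      push Not at hcon
      have h1 := hcl _ (hev (Real.log ‖ζ‖ / 2) (by
          have := Real.log_pos hcon
          linarith))
      have h2 : closure {w : ℂ | 1 < ‖w‖ ∧ ‖w‖ ≤ Real.exp (Real.log ‖ζ‖ / 2)} ⊆
          {w : ℂ | ‖w‖ ≤ Real.exp (Real.log ‖ζ‖ / 2)} :=
        closure_minimal (fun w hw => hw.2) (isClosed_le continuous_norm continuous_const)
      have h3 : ‖ζ‖ ≤ Real.exp (Real.log ‖ζ‖ / 2) := h2 h1
      have h4 : Real.exp (Real.log ‖ζ‖ / 2) < Real.exp (Real.log ‖ζ‖) := by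
        rw [Real.exp_lt_exp]
        have := Real.log_pos hcon
        linarith
      rw [Real.exp_log (by linarith)] at h4
      linarith
    · have h1 := hcl _ (hev 1 one_pos)
      have h2 : closure {w : ℂ | 1 < ‖w‖ ∧ ‖w‖ ≤ Real.exp 1} ⊆ {w : ℂ | 1 ≤ ‖w‖} :=
        closure_minimal (fun w hw => hw.1.le) (isClosed_le continuous_const continuous_norm)
      exact h2 h1
  refine ⟨ζ, hζ1, ?_⟩
  rw [mapClusterPt_iff_frequently]
  intro s hs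
  rw [frequently_nhdsWithin_iff]
  have h1 := (clusterPt_iff_frequently'.mp hζc) ({w | 1 < ‖w‖} ∩ ψ ⁻¹' s) (by
    rw [hF]
    exact inter_mem_inf (mem_principal_self _) (preimage_mem_comap hs))
  exact h1.mono fun w hw => ⟨hw.2, hw.1⟩

/-- The Green function near `c₀`. -/
theorem green (h : Hyp M ψ c₀ α) :
    PowLaw (fun r => sSup {g : ℝ | ∃ w : ℂ, 1 < ‖w‖ ∧ ‖ψ w - c₀‖ ≤ r ∧ g = Real.log ‖w‖}) α := by
  have hα := h.pos
  intro δ hδ
  obtain ⟨δ₁, hδ₁⟩ : ∃ x : ℝ, x = min δ (α / 2) := ⟨_, rfl⟩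
  have h1 : 0 < δ₁ := by rw [hδ₁]; positivity
  have h2 : δ₁ ≤ δ := by rw [hδ₁]; exact min_le_left _ _
  have h3 : δ₁ ≤ α / 2 := by rw [hδ₁]; exact min_le_right _ _
  obtain ⟨R₀, hR₀, H⟩ := h.level h1 (by linarith : δ₁ < α)
  obtain ⟨ζ, hζ, hc⟩ := h.exists_ray
  obtain ⟨δ₂, hδ₂⟩ : ∃ x : ℝ, x = δ / (α * (α + δ)) := ⟨_, rfl⟩
  have h4 : 0 < δ₂ := by rw [hδ₂]; positivity
  have h5 : (α + δ) * (1 / α - δ₂) = 1 := by
    rw [hδ₂]; field_simp; ring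
  have hp : 0 < α + δ := by positivity
  filter_upwards [ev_le hR₀, ev_lt one_pos, self_mem_nhdsWithin,
    (tendsto_rpow_zero hp).eventually (h.ray_upper hζ hc h4)] with r hr1 hr2 hr3 hr4
  have hr3 : 0 < r := hr3
  have hbd : ∀ g ∈ {g : ℝ | ∃ w : ℂ, 1 < ‖w‖ ∧ ‖ψ w - c₀‖ ≤ r ∧ g = Real.log ‖w‖},
      g ≤ r ^ (α - δ₁) := by
    rintro g ⟨w, hw1, hw2, rfl⟩
    exact H r hr3 hr1 w hw1 hw2
  have hmem : r ^ (α + δ) ∈
      {g : ℝ | ∃ w : ℂ, 1 < ‖w‖ ∧ ‖ψ w - c₀‖ ≤ r ∧ g = Real.log ‖w‖} := by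
    have h6 : 0 < r ^ (α + δ) := Real.rpow_pos_of_pos hr3 _
    refine ⟨(Real.exp (r ^ (α + δ)) : ℂ) * ζ, nexp_gt h6 hζ, ?_, ?_⟩
    · rw [← Real.rpow_mul hr3.le, h5, Real.rpow_one] at hr4
      exact hr4
    · rw [nexp _ hζ, Real.log_exp]
  constructor
  · exact le_csSup ⟨_, hbd⟩ hmem
  · refine (csSup_le ⟨_, hmem⟩ hbd).trans ?_
    exact Real.rpow_le_rpow_of_exponent_ge hr3 hr2.le (by linarith)

theorem cis_sub_le (a b : ℝ) :
    ‖Complex.exp (a * Complex.I) - Complex.exp (b * Complex.I)‖ ≤ |a - b| := by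
  have h1 : Complex.exp (a * Complex.I) - Complex.exp (b * Complex.I) =
      Complex.exp (b * Complex.I) * (Complex.exp ((a - b : ℝ) * Complex.I) - 1) := by
    rw [mul_sub, ← Complex.exp_add, mul_one]
    congr 2
    push_cast
    ring
  rw [h1, norm_mul, Complex.norm_exp_ofReal_mul_I, one_mul]
  have := Real.norm_exp_I_mul_ofReal_sub_one_le (x := a - b)
  rwa [mul_comm, Real.norm_eq_abs] at this

/-- Harmonic measure near `c₀`. -/
theorem harm (hK : S_KOE) (hH : S_HARM) (h : Hyp M ψ c₀ α)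
    (hae : ∀ᵐ θ : ℝ, ∃ c : ℂ,
      Tendsto (fun s : ℝ => ψ (s * Complex.exp (θ * Complex.I))) (𝓝[>] 1) (𝓝 c)) :
    PowLaw (fun r => (volume {θ : ℝ | θ ∈ Ioc (-Real.pi) Real.pi ∧ ∃ c ∈ ball c₀ r,
      Tendsto (fun s : ℝ => ψ (s * Complex.exp (θ * Complex.I))) (𝓝[>] 1) (𝓝 c)}).toReal) α := by
  have hα := h.pos
  intro δ hδ
  -- upper bound
  obtain ⟨δ₁, hδ₁⟩ : ∃ x : ℝ, x = min (δ / 2) (α / 2) := ⟨_, rfl⟩
  have h1 : 0 < δ₁ := by rw [hδ₁]; positivity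
  have h2 : δ₁ ≤ δ / 2 := by rw [hδ₁]; exact min_le_left _ _
  have h3 : δ₁ ≤ α / 2 := by rw [hδ₁]; exact min_le_right _ _
  obtain ⟨R₀, hR₀, H⟩ := h.level h1 (by linarith : δ₁ < α)
  obtain ⟨q₁, hq₁, hq₁1, Q1⟩ := SM.small_pow (4 * Real.pi * 2 ^ (α - δ₁)) (δ / 2) (by positivity)
  -- lower bound
  obtain ⟨ζ, hζ, hc⟩ := h.exists_ray
  obtain ⟨δ₂, hδ₂⟩ : ∃ x : ℝ, x = δ / 2 / (α * (α + δ)) := ⟨_, rfl⟩
  have h4 : 0 < δ₂ := by rw [hδ₂]; positivity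
  have h5 : 1 < (α + δ) * (1 / α - δ₂) := by
    have h6 : (α + δ) * (1 / α - δ₂) = 1 + δ / (2 * α) := by
      rw [hδ₂]; field_simp; ring
    rw [h6]
    have : 0 < δ / (2 * α) := by positivity
    linarith
  have hβδ : 0 < 1 / α - δ₂ := by
    by_contra hcon
    push Not at hcon
    have : (α + δ) * (1 / α - δ₂) ≤ 0 := mul_nonpos_of_nonneg_of_nonpos (by positivity) hcon
    linarith
  have hun := h.unres hK hζ hc h4
  rw [eventually_nhdsWithin_iff, Metric.eventually_nhds_iff] at hun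
  obtain ⟨ρ, hρ, hun⟩ := hun
  have hp : 0 < α + δ := by positivity
  filter_upwards [ev_le (by positivity : 0 < R₀ / 2), ev_le hq₁, ev_lt one_pos,
    self_mem_nhdsWithin, (tendsto_rpow_zero hp).eventually (ev_lt hρ),
    (tendsto_rpow_zero hp).eventually (ev_lt Real.pi_pos)] with r hr1 hr1' hr2 hr3 hr4 hr5
  have hr3 : 0 < r := hr3
  obtain ⟨A, hA⟩ : ∃ A : Set ℝ, A = {θ : ℝ | θ ∈ Ioc (-Real.pi) Real.pi ∧ ∃ c ∈ ball c₀ r,
      Tendsto (fun s : ℝ => ψ (s * Complex.exp (θ * Complex.I))) (𝓝[>] 1) (𝓝 c)} := ⟨_, rfl⟩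
  rw [← hA]
  have hAup : volume A ≤ ENNReal.ofReal (r ^ (α - δ)) := by
    have h6 := hH ψ h.ext.diff h.ext.inj c₀ r ((2 * r) ^ (α - δ₁)) hr3
      (Real.rpow_pos_of_pos (by positivity) _) (by
        intro w hw1 hw2
        have h7 := H (2 * r) (by positivity) (by linarith) w hw1 hw2
        rwa [Real.log_le_iff_le_exp (by linarith)] at h7)
    rw [← hA] at h6
    refine h6.trans (ENNReal.ofReal_le_ofReal ?_)
    calc 4 * Real.pi * (2 * r) ^ (α - δ₁) = 4 * Real.pi * 2 ^ (α - δ₁) * r ^ (α - δ₁) := by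
          rw [Real.mul_rpow (by norm_num) hr3.le]; ring
      _ ≤ 4 * Real.pi * 2 ^ (α - δ₁) * r ^ (δ / 2 + (α - δ)) := by
          refine mul_le_mul_of_nonneg_left ?_ (by positivity)
          apply Real.rpow_le_rpow_of_exponent_ge hr3 hr2.le
          linarith
      _ = (4 * Real.pi * 2 ^ (α - δ₁) * r ^ (δ / 2)) * r ^ (α - δ) := by
          rw [Real.rpow_add hr3]; ring
      _ ≤ 1 * r ^ (α - δ) := by
          have := Real.rpow_nonneg hr3.le (α - δ)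
          have := Q1 r hr3 hr1'
          gcongr
      _ = r ^ (α - δ) := one_mul _
  have hAfin : volume A ≠ ⊤ := ne_top_of_le_ne_top ENNReal.ofReal_ne_top hAup
  constructor
  · -- an arc about `ζ`
    obtain ⟨s, hs⟩ : ∃ s : ℝ, s = r ^ (α + δ) := ⟨_, rfl⟩
    rw [← hs] at hr4 hr5 ⊢
    have hs0 : 0 < s := by rw [hs]; exact Real.rpow_pos_of_pos hr3 _
    obtain ⟨θ₀, hθ₀1, hθ₀2, hθ₀3⟩ : ∃ θ₀ : ℝ, -Real.pi < θ₀ ∧ θ₀ ≤ Real.pi ∧
        ζ = Complex.exp (θ₀ * Complex.I) := by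
      refine ⟨Complex.arg ζ, Complex.neg_pi_lt_arg ζ, Complex.arg_le_pi ζ, ?_⟩
      have := Complex.norm_mul_exp_arg_mul_I ζ
      rw [hζ] at this
      simpa using this.symm
    obtain ⟨a, ha1, ha2, ha3⟩ : ∃ a : ℝ, Ioo a (a + s) ⊆ Ioc (-Real.pi) Real.pi ∧
        (∀ θ ∈ Ioo a (a + s), |θ - θ₀| < s) ∧ True := by
      rcases le_total θ₀ 0 with h0 | h0
      · refine ⟨θ₀, ?_, ?_, trivial⟩
        · intro θ hθ
          exact ⟨by linarith [hθ.1], by linarith [hθ.2]⟩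
        · intro θ hθ
          rw [abs_lt]
          exact ⟨by linarith [hθ.1], by linarith [hθ.2]⟩
      · refine ⟨θ₀ - s, ?_, ?_, trivial⟩
        · intro θ hθ
          exact ⟨by linarith [hθ.1], by linarith [hθ.2]⟩
        · intro θ hθ
          rw [abs_lt]
          exact ⟨by linarith [hθ.1], by linarith [hθ.2]⟩
    have hsub : ∀ᵐ θ : ℝ, θ ∈ Ioo a (a + s) → θ ∈ A := by
      filter_upwards [hae] with θ hθ hθI
      obtain ⟨c, hcθ⟩ := hθ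
      rw [hA]
      refine ⟨ha1 hθI, c, ?_, hcθ⟩
      have hd : ‖Complex.exp (θ * Complex.I) - ζ‖ < s := by
        rw [hθ₀3]
        exact (cis_sub_le _ _).trans_lt (ha2 θ hθI)
      have hcont : Tendsto (fun x : ℝ => ‖(x : ℂ) * Complex.exp (θ * Complex.I) - ζ‖) (𝓝[>] 1)
          (𝓝 ‖Complex.exp (θ * Complex.I) - ζ‖) := by
        have : Continuous (fun x : ℝ => ‖(x : ℂ) * Complex.exp (θ * Complex.I) - ζ‖) := by
          fun_prop
        have h7 := this.tendsto 1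
        simp only [Complex.ofReal_one, one_mul] at h7
        exact h7.mono_left nhdsWithin_le_nhds
      have hle : ‖c - c₀‖ ≤ s ^ (1 / α - δ₂) := by
        refine le_of_tendsto (hcθ.sub_const c₀).norm ?_
        filter_upwards [hcont.eventually (gt_mem_nhds hd), self_mem_nhdsWithin] with x hx1 hx2
        have hx2 : 1 < x := hx2
        have hn : 1 < ‖(x : ℂ) * Complex.exp (θ * Complex.I)‖ := by
          rw [norm_mul, Complex.norm_exp_ofReal_mul_I, mul_one, Complex.norm_real,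
            Real.norm_of_nonneg (by linarith)]
          exact hx2
        have h8 := hun (y := (x : ℂ) * Complex.exp (θ * Complex.I)) (by
          rw [dist_eq_norm]; linarith) hn
        exact h8.trans (Real.rpow_le_rpow (norm_nonneg _) hx1.le hβδ.le)
      rw [mem_ball, dist_eq_norm]
      refine hle.trans_lt ?_
      rw [hs, ← Real.rpow_mul hr3.le]
      calc r ^ ((α + δ) * (1 / α - δ₂)) < r ^ (1 : ℝ) :=
            Real.rpow_lt_rpow_of_exponent_gt hr3 hr2 h5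
        _ = r := Real.rpow_one r
    have hvol : ENNReal.ofReal s ≤ volume A := by
      have h9 : volume (Ioo a (a + s)) = ENNReal.ofReal s := by
        rw [Real.volume_Ioo]; congr 1; ring
      rw [← h9]
      exact measure_mono_ae hsub
    rw [ENNReal.ofReal_le_iff_le_toReal hAfin] at hvol
    exact hvol
  · have := ENNReal.toReal_mono ENNReal.ofReal_ne_top hAup
    rwa [ENNReal.toReal_ofReal (Real.rpow_nonneg hr3.le _)] at this

end Hyp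

end Pool.Agent.N253.LC
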