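import Pool.Agent.N253.LC.Stm2

/-!
# Harmonic measure of a small disc by the length-area method (helper755)
-/

set_option autoImplicit false

open Set Filter Metric Topology MeasureTheory

namespace Pool.Agent.N253.LC.HarmAux

theorem det_mul_real (a : ℂ) :
    ((ContinuousLinearMap.toSpanSingleton ℂ a).restrictScalars ℝ : ℂ →L[ℝ] ℂ).det = ‖a‖ ^ 2 := by
  rw [ContinuousLinearMap.det, ← LinearMap.det_toMatrix Complex.basisOneI, Matrix.det_fin_two]
  simp [LinearMap.toMatrix_apply, Complex.basisOneI, Complex.sq_norm, Complex.normSq_apply]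

/-- the derivative of `ψ (exp z)` -/
noncomputable def dg (ψ : ℂ → ℂ) (z : ℂ) : ℂ := deriv ψ (Complex.exp z) * Complex.exp z

theorem one_lt_exp {z : ℂ} (hz : 0 < z.re) : 1 < ‖Complex.exp z‖ := by
  rw [Complex.norm_exp]
  exact Real.one_lt_exp_iff.2 hz

theorem open_U : IsOpen {z : ℂ | 1 < ‖z‖} := isOpen_lt continuous_const continuous_norm

theorem open_H : IsOpen {z : ℂ | 0 < z.re} := isOpen_lt continuous_const Complex.continuous_re

theorem hder {ψ : ℂ → ℂ} (hψ : DifferentiableOn ℂ ψ {z | 1 < ‖z‖}) {z : ℂ} (hz : 0 < z.re) :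
    HasDerivAt (fun z => ψ (Complex.exp z)) (dg ψ z) z := by
  have h1 : HasDerivAt ψ (deriv ψ (Complex.exp z)) (Complex.exp z) :=
    (hψ.differentiableAt (open_U.mem_nhds (one_lt_exp hz))).hasDerivAt
  exact h1.comp z (Complex.hasDerivAt_exp z)

theorem dg_cont {ψ : ℂ → ℂ} (hψ : DifferentiableOn ℂ ψ {z | 1 < ‖z‖}) :
    ContinuousOn (dg ψ) {z | 0 < z.re} := by
  have h1 : ContinuousOn (deriv ψ) {z | 1 < ‖z‖} := (hψ.deriv open_U).continuousOn
  exact (h1.comp Complex.continuous_exp.continuousOn (fun z hz => one_lt_exp hz)).mul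
    Complex.continuous_exp.continuousOn

theorem g_cont {ψ : ℂ → ℂ} (hψ : DifferentiableOn ℂ ψ {z | 1 < ‖z‖}) :
    ContinuousOn (fun z => ψ (Complex.exp z)) {z | 0 < z.re} := fun _ hz =>
  (hder hψ hz).continuousAt.continuousWithinAt

/-- the region -/
def SS (ψ : ℂ → ℂ) (x : ℂ) (r t : ℝ) : Set ℂ :=
  {z | 0 < z.re} ∩ ({z | z.re < t ∧ -Real.pi < z.im ∧ z.im < Real.pi} ∩
    (fun z => ψ (Complex.exp z)) ⁻¹' ball x (2 * r)) 

theorem SS_open {ψ : ℂ → ℂ} (hψ : DifferentiableOn ℂ ψ {z | 1 < ‖z‖}) (x : ℂ) (r t : ℝ) :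
    IsOpen (SS ψ x r t) := by
  have h1 : IsOpen ({z : ℂ | 0 < z.re} ∩ (fun z => ψ (Complex.exp z)) ⁻¹' ball x (2 * r)) :=
    (g_cont hψ).isOpen_inter_preimage open_H isOpen_ball
  have h2 : IsOpen {z : ℂ | z.re < t ∧ -Real.pi < z.im ∧ z.im < Real.pi} := by
    apply IsOpen.inter (isOpen_lt Complex.continuous_re continuous_const)
    exact IsOpen.inter (isOpen_lt continuous_const Complex.continuous_im)
      (isOpen_lt Complex.continuous_im continuous_const)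
  have h3 : SS ψ x r t = ({z : ℂ | 0 < z.re} ∩ (fun z => ψ (Complex.exp z)) ⁻¹' ball x (2 * r)) ∩
      {z : ℂ | z.re < t ∧ -Real.pi < z.im ∧ z.im < Real.pi} := by
    unfold SS
    ext z
    simp only [mem_inter_iff]
    tauto
  rw [h3]
  exact h1.inter h2

theorem SS_inj {ψ : ℂ → ℂ} (hinj : InjOn ψ {z | 1 < ‖z‖}) (x : ℂ) (r t : ℝ) :
    InjOn (fun z => ψ (Complex.exp z)) (SS ψ x r t) := by
  intro z hz w hw h
  have h1 : Complex.exp z = Complex.exp w := hinj (one_lt_exp hz.1) (one_lt_exp hw.1) h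
  exact Complex.exp_inj_of_neg_pi_lt_of_le_pi hz.2.1.2.1 hz.2.1.2.2.le hw.2.1.2.1 hw.2.1.2.2.le h1

/-- the area of the image -/
theorem area {ψ : ℂ → ℂ} (hψ : DifferentiableOn ℂ ψ {z | 1 < ‖z‖}) (hinj : InjOn ψ {z | 1 < ‖z‖})
    (x : ℂ) (r t : ℝ) (hr : 0 < r) :
    ∫⁻ z in SS ψ x r t, ENNReal.ofReal (‖dg ψ z‖ ^ 2) ≤ ENNReal.ofReal (4 * Real.pi * r ^ 2) := by
  have hmeas := (SS_open hψ x r t).measurableSet
  have h1 := lintegral_abs_det_fderiv_eq_addHaar_image volume hmeas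
    (fun z (hz : z ∈ SS ψ x r t) => ((hder hψ hz.1).hasFDerivAt.restrictScalars ℝ).hasFDerivWithinAt)
    (SS_inj hinj x r t)
  have h2 : ∫⁻ z in SS ψ x r t, ENNReal.ofReal (‖dg ψ z‖ ^ 2) =
      volume ((fun z => ψ (Complex.exp z)) '' SS ψ x r t) := by
    rw [← h1]
    apply setLIntegral_congr_fun hmeas
    intro z _
    beta_reduce
    rw [det_mul_real, abs_of_nonneg (by positivity)]
  rw [h2]
  have h3 : (fun z => ψ (Complex.exp z)) '' SS ψ x r t ⊆ ball x (2 * r) := by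
    rintro _ ⟨z, hz, rfl⟩
    exact hz.2.2
  refine (measure_mono h3).trans (le_of_eq ?_)
  rw [Complex.volume_ball, ← ENNReal.ofReal_pow (by positivity)]
  have : (NNReal.pi : ENNReal) = ENNReal.ofReal Real.pi := by
    rw [ENNReal.ofReal, ← NNReal.coe_real_pi, Real.toNNReal_coe]
  rw [this, ← ENNReal.ofReal_mul (by positivity)]
  congr 1
  ring

/-- the integrand -/
noncomputable def GG (ψ : ℂ → ℂ) (x : ℂ) (r t : ℝ) : ℂ → ENNReal :=
  (SS ψ x r t).indicator (fun z => ENNReal.ofReal (‖dg ψ z‖ ^ 2))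

theorem GG_meas {ψ : ℂ → ℂ} (hψ : DifferentiableOn ℂ ψ {z | 1 < ‖z‖}) (x : ℂ) (r t : ℝ) :
    Measurable (GG ψ x r t) := by
  classical
  unfold GG
  rw [← piecewise_eq_indicator]
  apply ContinuousOn.measurable_piecewise _ continuousOn_const (SS_open hψ x r t).measurableSet
  exact ENNReal.continuous_ofReal.comp_continuousOn
    (((dg_cont hψ).mono (fun z hz => hz.1)).norm.pow 2)

theorem total {ψ : ℂ → ℂ} (hψ : DifferentiableOn ℂ ψ {z | 1 < ‖z‖}) (hinj : InjOn ψ {z | 1 < ‖z‖})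
    (x : ℂ) (r t : ℝ) (hr : 0 < r) :
    ∫⁻ θ : ℝ, ∫⁻ s : ℝ, GG ψ x r t ⟨s, θ⟩ ≤ ENNReal.ofReal (4 * Real.pi * r ^ 2) := by
  have h1 := area hψ hinj x r t hr
  rw [← lintegral_indicator (SS_open hψ x r t).measurableSet] at h1
  refine le_trans (le_of_eq ?_) h1
  have h2 := Complex.volume_preserving_equiv_real_prod.symm.lintegral_comp_emb
    (Complex.measurableEquivRealProd.symm.measurableEmbedding) (GG ψ x r t)
  have h3 : ∫⁻ z : ℂ, GG ψ x r t z = ∫⁻ p : ℝ × ℝ, GG ψ x r t ⟨p.1, p.2⟩ := by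
    rw [← h2]
    rfl
  have h4 : ∫⁻ p : ℝ × ℝ, GG ψ x r t ⟨p.1, p.2⟩ = ∫⁻ θ : ℝ, ∫⁻ s : ℝ, GG ψ x r t ⟨s, θ⟩ := by
    rw [Measure.volume_eq_prod, lintegral_prod_symm]
    have : Measurable (fun p : ℝ × ℝ => GG ψ x r t ⟨p.1, p.2⟩) :=
      (GG_meas hψ x r t).comp Complex.measurableEquivRealProd.symm.measurable
    exact this.aemeasurable
  rw [← h4, ← h3]
  rfl

/-- the rays which land in the disc are long -/
theorem ray {ψ : ℂ → ℂ} (hψ : DifferentiableOn ℂ ψ {z | 1 < ‖z‖}) (x : ℂ) (r t : ℝ) (hr : 0 < r) (ht : 0 < t)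
    (hlev : ∀ w : ℂ, 1 < ‖w‖ → ‖ψ w - x‖ ≤ 2 * r → ‖w‖ ≤ Real.exp t) (θ : ℝ) (h1 : -Real.pi < θ) (h2 : θ < Real.pi)
    (c : ℂ) (hc : c ∈ ball x r)
    (hlim : Tendsto (fun s : ℝ => ψ (s * Complex.exp (θ * Complex.I))) (𝓝[>] 1) (𝓝 c)) :
    ENNReal.ofReal (r ^ 2 / t) ≤ ∫⁻ s : ℝ, GG ψ x r t ⟨s, θ⟩ := by
  set y : ℝ → ℂ := fun s => ψ (Complex.exp ⟨s, θ⟩) with hy
  have hmk : ∀ s : ℝ, (⟨s, θ⟩ : ℂ) = (s : ℂ) + θ * Complex.I := fun s => Complex.mk_eq_add_mul_I s θ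
  have hyd : ∀ s : ℝ, 0 < s → HasDerivAt y (dg ψ ⟨s, θ⟩) s := by
    intro s hs
    have e1 : HasDerivAt (fun z => ψ (Complex.exp z)) (dg ψ ⟨s, θ⟩) ((s : ℂ) + θ * Complex.I) := by
      rw [← hmk]
      exact hder hψ (by simpa using hs)
    have e2 : HasDerivAt (fun s : ℝ => ((s : ℂ) + θ * Complex.I)) 1 s :=
      (Complex.ofRealCLM.hasDerivAt (x := s)).add_const _
    have e3 := e1.scomp s e2
    have e4 : y = (fun z => ψ (Complex.exp z)) ∘ (fun s : ℝ => ((s : ℂ) + θ * Complex.I)) := by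
      funext s
      rw [hy]
      simp only [Function.comp, hmk]
    rw [e4]
    simpa using e3
  have hyc : ∀ s : ℝ, 0 < s → ContinuousAt y s := fun s hs => (hyd s hs).continuousAt
  -- level
  have hbig : ∀ s : ℝ, t < s → 2 * r < ‖y s - x‖ := by
    intro s hs
    by_contra hcon
    push Not at hcon
    have e1 := hlev (Complex.exp ⟨s, θ⟩) (one_lt_exp (by simpa using ht.trans hs)) hcon
    rw [Complex.norm_exp] at e1
    have e2 := Real.exp_le_exp.1 e1
    simp at e2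
    linarith
  have hbt : 2 * r ≤ ‖y t - x‖ := by
    have e1 : Tendsto (fun s => ‖y s - x‖) (𝓝[>] t) (𝓝 (‖y t - x‖)) :=
      (((hyc t ht).sub continuousAt_const).norm).tendsto.mono_left nhdsWithin_le_nhds
    refine ge_of_tendsto e1 ?_
    filter_upwards [self_mem_nhdsWithin] with s hs
    exact (hbig s hs).le
  -- the limit at zero
  have hlim0 : Tendsto y (𝓝[>] 0) (𝓝 c) := by
    have e1 : Tendsto (fun s : ℝ => Real.exp s) (𝓝[>] 0) (𝓝[>] 1) := by
      apply tendsto_nhdsWithin_of_tendsto_nhds_of_eventually_within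
      · have := (Real.continuous_exp.tendsto 0)
        rw [Real.exp_zero] at this
        exact this.mono_left nhdsWithin_le_nhds
      · filter_upwards [self_mem_nhdsWithin] with s hs
        exact Real.one_lt_exp_iff.2 hs
    have e2 := hlim.comp e1
    refine e2.congr (fun s => ?_)
    rw [hy]
    simp only [Function.comp]
    rw [hmk, Complex.exp_add, Complex.ofReal_exp]
  have hev : ∀ᶠ s in 𝓝[>] (0 : ℝ), y s ∈ ball x r := hlim0 (isOpen_ball.mem_nhds hc)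
  obtain ⟨δ, hδ, hδ2⟩ := mem_nhdsGT_iff_exists_Ioo_subset.1 hev
  have hδ0 : 0 < δ := hδ
  set s2 := min (δ / 2) (t / 2) with hs2
  have hs20 : 0 < s2 := by
    rw [hs2]
    positivity
  have hs2t : s2 < t := lt_of_le_of_lt (min_le_right _ _) (by linarith)
  have hy2 : ‖y s2 - x‖ < r := by
    have : s2 ∈ Ioo 0 δ := ⟨hs20, lt_of_le_of_lt (min_le_left _ _) (by linarith)⟩
    have h3 : y s2 ∈ ball x r := hδ2 this
    rw [mem_ball, dist_eq_norm] at h3
    exact h3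
  -- the first point
  have hyon : ContinuousOn y (Icc s2 t) := fun s hs => (hyc s (lt_of_lt_of_le hs20 hs.1)).continuousWithinAt
  have hK : IsCompact (Icc s2 t ∩ (fun s => ‖y s - x‖) ⁻¹' Ici (2 * r)) :=
    isCompact_Icc.of_isClosed_subset
      (ContinuousOn.preimage_isClosed_of_isClosed ((hyon.sub continuousOn_const).norm) isClosed_Icc isClosed_Ici)
      inter_subset_left
  obtain ⟨s1, hs1, hmin⟩ := hK.exists_isLeast ⟨t, ⟨hs2t.le, le_rfl⟩, hbt⟩
  have hs1a : s2 ≤ s1 := hs1.1.1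
  have hs1t : s1 ≤ t := hs1.1.2
  have hs1b : 2 * r ≤ ‖y s1 - x‖ := hs1.2
  have hlt : s2 < s1 := by
    rcases hs1a.lt_or_eq with h | h
    · exact h
    · exfalso
      rw [← h] at hs1b
      linarith
  have hin : ∀ s ∈ Ioo s2 s1, ‖y s - x‖ < 2 * r := by
    intro s hs
    by_contra hcon
    push Not at hcon
    have := hmin ⟨⟨hs.1.le, hs.2.le.trans hs1t⟩, hcon⟩
    linarith [hs.2]
  have hdiff : r ≤ ‖y s1 - y s2‖ := by
    have e1 : ‖y s1 - x‖ ≤ ‖y s1 - y s2‖ + ‖y s2 - x‖ := by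
      have := norm_add_le (y s1 - y s2) (y s2 - x)
      rwa [sub_add_sub_cancel] at this
    linarith
  have hpos : ∀ s ∈ Icc s2 s1, 0 < s := fun s hs => lt_of_lt_of_le hs20 hs.1
  have hdc : ContinuousOn (fun s : ℝ => dg ψ ⟨s, θ⟩) (Icc s2 s1) := by
    have e1 : Continuous (fun s : ℝ => (⟨s, θ⟩ : ℂ)) := by
      simp only [hmk]
      fun_prop
    refine (dg_cont hψ).comp e1.continuousOn (fun s hs => ?_)
    exact hpos s hs
  have hftc : ∫ s in s2..s1, dg ψ ⟨s, θ⟩ = y s1 - y s2 := by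
    apply intervalIntegral.integral_eq_sub_of_hasDerivAt
    · intro s hs
      rw [uIcc_of_le hs1a] at hs
      exact hyd s (hpos s hs)
    · apply ContinuousOn.intervalIntegrable
      rw [uIcc_of_le hs1a]
      exact hdc
  have hI2 : IntervalIntegrable (fun s : ℝ => ‖dg ψ ⟨s, θ⟩‖ ^ 2) volume s2 s1 := by
    apply ContinuousOn.intervalIntegrable
    rw [uIcc_of_le hs1a]
    exact hdc.norm.pow 2
  set I := ∫ s in s2..s1, ‖dg ψ ⟨s, θ⟩‖ ^ 2 with hI
  have hrI : r ^ 2 / t ≤ I := by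
    have e1 : ‖∫ s in s2..s1, dg ψ ⟨s, θ⟩‖ ≤ ∫ s in s2..s1, ‖dg ψ ⟨s, θ⟩‖ :=
      intervalIntegral.norm_integral_le_integral_norm hs1a
    have e2 : ∫ s in s2..s1, ‖dg ψ ⟨s, θ⟩‖ ≤ ∫ s in s2..s1, (t / (2 * r) * ‖dg ψ ⟨s, θ⟩‖ ^ 2 + r / (2 * t)) := by
      apply intervalIntegral.integral_mono_on hs1a
      · apply ContinuousOn.intervalIntegrable
        rw [uIcc_of_le hs1a]
        exact hdc.norm
      · exact (hI2.const_mul _).add intervalIntegrable_const
      · intro s _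
        have e3 : 0 ≤ (t * ‖dg ψ ⟨s, θ⟩‖ - r) ^ 2 := sq_nonneg _
        have e4 : t / (2 * r) * ‖dg ψ ⟨s, θ⟩‖ ^ 2 + r / (2 * t) - ‖dg ψ ⟨s, θ⟩‖ =
            (t * ‖dg ψ ⟨s, θ⟩‖ - r) ^ 2 / (2 * r * t) := by
          field_simp
          ring
        have e5 : 0 ≤ (t * ‖dg ψ ⟨s, θ⟩‖ - r) ^ 2 / (2 * r * t) := by positivity
        linarith
    rw [intervalIntegral.integral_add (hI2.const_mul _) intervalIntegrable_const,
      intervalIntegral.integral_const_mul, intervalIntegral.integral_const, ← hI, smul_eq_mul] at e2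
    rw [hftc] at e1
    have e3 : (s1 - s2) * (r / (2 * t)) ≤ r / 2 := by
      have : (s1 - s2) * (r / (2 * t)) ≤ t * (r / (2 * t)) :=
        mul_le_mul_of_nonneg_right (by linarith) (by positivity)
      refine this.trans (le_of_eq ?_)
      field_simp
    have e4 : r / 2 ≤ t / (2 * r) * I := by linarith
    rw [div_le_iff₀ ht]
    have e5 := mul_le_mul_of_nonneg_left e4 (by positivity : 0 ≤ 2 * r)
    have e6 : 2 * r * (r / 2) = r ^ 2 := by ring
    have e7 : 2 * r * (t / (2 * r) * I) = I * t := by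
      field_simp
    rw [e6, e7] at e5
    exact e5
  -- comparison
  refine (ENNReal.ofReal_le_ofReal hrI).trans ?_
  rw [hI, intervalIntegral.integral_of_le hs1a, integral_Ioc_eq_integral_Ioo,
    ofReal_integral_eq_lintegral_ofReal]
  · rw [← lintegral_indicator measurableSet_Ioo]
    refine lintegral_mono (fun s => ?_)
    by_cases hs : s ∈ Ioo s2 s1
    · rw [indicator_of_mem hs]
      have hmem : (⟨s, θ⟩ : ℂ) ∈ SS ψ x r t := by
        refine ⟨?_, ⟨?_, ?_, ?_⟩, ?_⟩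
        · exact hs20.trans hs.1
        · exact lt_of_lt_of_le hs.2 hs1t
        · exact h1
        · exact h2
        · rw [mem_preimage, mem_ball, dist_eq_norm]
          exact hin s hs
      unfold GG
      rw [indicator_of_mem hmem]
    · rw [indicator_of_notMem hs]
      exact bot_le
  · exact (hI2.1.mono_set Ioo_subset_Ioc_self)
  · exact Eventually.of_forall fun s => by positivity

theorem main {ψ : ℂ → ℂ} (hψ : DifferentiableOn ℂ ψ {z | 1 < ‖z‖}) (hinj : InjOn ψ {z | 1 < ‖z‖})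
    (x : ℂ) (r t : ℝ) (hr : 0 < r) (ht : 0 < t)
    (hlev : ∀ w : ℂ, 1 < ‖w‖ → ‖ψ w - x‖ ≤ 2 * r → ‖w‖ ≤ Real.exp t) :
    volume {θ : ℝ | θ ∈ Ioc (-Real.pi) Real.pi ∧ ∃ c ∈ ball x r,
      Tendsto (fun s : ℝ => ψ (s * Complex.exp (θ * Complex.I))) (𝓝[>] 1) (𝓝 c)} ≤
      ENNReal.ofReal (4 * Real.pi * t) := by
  set A := {θ : ℝ | θ ∈ Ioc (-Real.pi) Real.pi ∧ ∃ c ∈ ball x r,
      Tendsto (fun s : ℝ => ψ (s * Complex.exp (θ * Complex.I))) (𝓝[>] 1) (𝓝 c)} with hA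
  set F : ℝ → ENNReal := fun θ => ∫⁻ s : ℝ, GG ψ x r t ⟨s, θ⟩ with hF
  have hFm : Measurable F := by
    have : Measurable (fun p : ℝ × ℝ => GG ψ x r t ⟨p.1, p.2⟩) :=
      (GG_meas hψ x r t).comp Complex.measurableEquivRealProd.symm.measurable
    exact this.lintegral_prod_left'
  have hsub : A ⊆ {θ | ENNReal.ofReal (r ^ 2 / t) ≤ F θ} ∪ {Real.pi} := by
    rintro θ ⟨hθ, c, hc, hlim⟩
    rcases hθ.2.lt_or_eq with h | h
    · left
      exact ray hψ x r t hr ht hlev θ hθ.1 h c hc hlim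
    · right
      exact h
  have h1 := mul_meas_ge_le_lintegral (μ := volume) hFm (ENNReal.ofReal (r ^ 2 / t))
  have h2 := h1.trans (total hψ hinj x r t hr)
  have h3 : volume A ≤ volume {θ | ENNReal.ofReal (r ^ 2 / t) ≤ F θ} := by
    refine (measure_mono hsub).trans ((measure_union_le _ _).trans ?_)
    rw [Real.volume_singleton, add_zero]
  have h4 : ENNReal.ofReal (r ^ 2 / t) ≠ 0 := by
    rw [Ne, ENNReal.ofReal_eq_zero, not_le]
    positivity
  have h5 : ENNReal.ofReal (4 * Real.pi * r ^ 2) = ENNReal.ofReal (r ^ 2 / t) * ENNReal.ofReal (4 * Real.pi * t) := by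
    rw [← ENNReal.ofReal_mul (by positivity)]
    congr 1
    field_simp
  rw [h5] at h2
  exact h3.trans ((ENNReal.mul_le_mul_iff_right h4 ENNReal.ofReal_ne_top).1 h2)

end Pool.Agent.N253.LC.HarmAux

namespace Pool.Agent.N253.LC

theorem t_HARM : S_HARM := fun _ hψ hinj x r t hr ht hlev => HarmAux.main hψ hinj x r t hr ht hlev

end Pool.Agent.N253.LC
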