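import Mathlib
import Pool.Agent.N253.LC.Stm
import Pool.Agent.N253.SM.Zlem
import Pool.Agent.N253.SM.Fin

/-!
# Project LC: the displacement along rays
-/

set_option autoImplicit false

open Set Filter Metric Topology

namespace Pool.Agent.N253.LC

open Pool.Agent.TH279.MD Pool.Agent.Y298.SH Pool.Agent.Y298.SH.CD Pool.Agent.Y298.CA
open Pool.Agent.H713R2 (IsExteriorMap IsGm)
open Pool.Agent.H712R2 (P)

theorem continuous_it (d : ℕ) (c : ℂ) (j : ℕ) : Continuous ((f d c)^[j]) := by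
  have h : Differentiable ℂ ((f d c)^[j]) := fun y => SM.hasDerivAt_it d c j y
  exact h.continuous

theorem Ray.pos {d : ℕ} {c : ℂ} {j : ℕ} {v : ℂ} {Y : ℝ → ℂ} {a b : ℝ} (h : Ray d c j v Y a b) :
    0 < a := by
  by_contra hcon
  push Not at hcon
  have h1 := h.four
  have h2 : (d : ℝ) ^ j * a ≤ 0 := mul_nonpos_of_nonneg_of_nonpos (by positivity) hcon
  have h3 := Real.exp_le_one_iff.mpr h2
  linarith

theorem Ray.norm_eq {d : ℕ} {c : ℂ} {j : ℕ} {v : ℂ} {Y : ℝ → ℂ} {a b : ℝ}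
    (h : Ray d c j v Y a b) {t : ℝ} (ht : t ∈ Icc a b) :
    ‖(f d c)^[j] (Y t)‖ = Real.exp ((d : ℝ) ^ j * t) := by
  rw [h.eq t ht, norm_mul, h.unit, mul_one, Complex.norm_real, Real.norm_of_nonneg
    (Real.exp_pos _).le]

/-- The images of a piece of a ray. -/
theorem Ray.shift {d : ℕ} (hd : 2 ≤ d) {c : ℂ} {j : ℕ} {v : ℂ} {Y : ℝ → ℂ} {a b : ℝ}
    (h : Ray d c j v Y a b) {i : ℕ} (hi : i ≤ j) {p q : ℝ} (hpq : p ≤ q) (hp : a ≤ p)
    (hq : q ≤ b) :
    Ray d c (j - i) v (fun τ => (f d c)^[i] (Y (τ / (d : ℝ) ^ i))) ((d : ℝ) ^ i * p)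
      ((d : ℝ) ^ i * q) := by
  have hd0 : (0 : ℝ) < d := by exact_mod_cast (by omega : 0 < d)
  have hdi : (0 : ℝ) < (d : ℝ) ^ i := by positivity
  have hpow : (d : ℝ) ^ (j - i) * (d : ℝ) ^ i = (d : ℝ) ^ j := by
    rw [← pow_add, Nat.sub_add_cancel hi]
  have hmem : ∀ τ ∈ Icc ((d : ℝ) ^ i * p) ((d : ℝ) ^ i * q), τ / (d : ℝ) ^ i ∈ Icc a b := by
    intro τ hτ
    refine ⟨?_, ?_⟩
    · rw [le_div_iff₀ hdi]
      have := hτ.1
      nlinarith
    · rw [div_le_iff₀ hdi]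
      have := hτ.2
      nlinarith
  have hexp : Real.exp ((d : ℝ) ^ j * a) ≤ Real.exp ((d : ℝ) ^ (j - i) * ((d : ℝ) ^ i * p)) := by
    rw [Real.exp_le_exp, ← mul_assoc, hpow]
    have : (0 : ℝ) ≤ (d : ℝ) ^ j := by positivity
    gcongr
  refine ⟨by gcongr, ?_, h.unit, ?_, h.four.trans hexp, fun k h1 h2 => ?_⟩
  · exact (continuous_it d c i).comp_continuousOn
      (h.cont.comp (by fun_prop) (fun τ hτ => hmem τ hτ))
  · intro τ hτ
    show (f d c)^[j - i] ((f d c)^[i] (Y (τ / (d : ℝ) ^ i))) = _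
    rw [← Function.iterate_add_apply, Nat.sub_add_cancel hi, h.eq _ (hmem τ hτ)]
    have : (d : ℝ) ^ j * (τ / (d : ℝ) ^ i) = (d : ℝ) ^ (j - i) * τ := by
      rw [← hpow]; field_simp
    rw [this]
  · exact (h.crit k h1 (by omega)).trans_le hexp

/-- After the norm has been larger than 3, it stays larger than 3. -/
theorem stay_out {d : ℕ} (hd : 2 ≤ d) {c y : ℂ} (hc : ‖c‖ ≤ 5 / 2) (hy : 3 < ‖y‖) (m : ℕ) :
    3 < ‖(f d c)^[m] y‖ := by
  induction m with
  | zero => exact hy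
  | succ m ih =>
    rw [Function.iterate_succ_apply']
    have h4 : ‖(f d c)^[m] y‖ ^ 2 ≤ ‖f d c ((f d c)^[m] y)‖ + ‖c‖ := sq_le_f hd (by linarith)
    nlinarith

theorem t_DISP (hE : S_EXQ) (hP : S_PULL) (hX : S_EXC) (hD : S_DER) (hI : S_INT) : S_DISP := by
  classical
  intro d χ c₀ hd hL
  have hdR : (2 : ℝ) ≤ d := by exact_mod_cast hd
  have hd0 : (0 : ℝ) < d := by linarith
  have hlogd : 0 < Real.log d := Real.log_pos (by linarith)
  obtain ⟨κ, η, a₁, A, r₁, hκ, hκ1, hη, hηd, -, -, hr₁, HE⟩ := hE d χ c₀ hd hL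
  obtain ⟨δ, η', hδ, hδ1, hη', HP⟩ := hP d χ c₀ hd hL
  obtain ⟨CP, r₂, hCP, hr₂, HP⟩ := HP δ hδ le_rfl
  obtain ⟨CD, hCD, HD⟩ := hD d hd
  obtain ⟨β, hβ⟩ : ∃ β : ℝ, β = η / Real.log d := ⟨_, rfl⟩
  have hβ0 : 0 < β := by rw [hβ]; positivity
  have hβ1 : β ≤ 1 := by rw [hβ, div_le_one hlogd]; exact hηd
  have hβd : β * Real.log d = η := by rw [hβ]; field_simp
  obtain ⟨K, hK⟩ : ∃ K : ℝ, K = CD ^ 2 / κ := ⟨_, rfl⟩
  have hK0 : 0 ≤ K := by rw [hK]; positivity
  have hq1 : Real.exp (-η') < 1 := by rw [Real.exp_lt_one_iff]; linarith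
  have hq0 : 0 < Real.exp (-η') := Real.exp_pos _
  obtain ⟨C, hC⟩ : ∃ C : ℝ, C = max 1 (max (K / β) (2 * CP / (1 - Real.exp (-η')))) := ⟨_, rfl⟩
  have hC1 : 1 ≤ C := by rw [hC]; exact le_max_left _ _
  have hC2 : K / β ≤ C := by rw [hC]; exact (le_max_left _ _).trans (le_max_right _ _)
  have hC3 : 2 * CP / (1 - Real.exp (-η')) ≤ C := by
    rw [hC]; exact (le_max_right _ _).trans (le_max_right _ _)
  obtain ⟨r₃, hr₃, HX⟩ := hX d χ c₀ hd hL δ β C (1 / 2) hδ hδ1 hβ0 hβ1 hC1 (by norm_num)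
  refine ⟨C, β, δ, 1 / 2, min (min r₁ r₂) (min r₃ (1 / 2)), hC1, hβ0, hβ1, hδ, hδ1, by norm_num,
    le_rfl, by positivity, ?_⟩
  intro r hr hrr c hc
  have hr1 : r ≤ r₁ := hrr.trans ((min_le_left _ _).trans (min_le_left _ _))
  have hr2 : r ≤ r₂ := hrr.trans ((min_le_left _ _).trans (min_le_right _ _))
  have hr3 : r ≤ r₃ := hrr.trans ((min_le_right _ _).trans (min_le_left _ _))
  have hr4 : r ≤ 1 / 2 := hrr.trans ((min_le_right _ _).trans (min_le_right _ _))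
  have hc₀2 : ‖c₀‖ ≤ 2 := SM.bd_self hd hL.2.1
  have hc52 : ‖c‖ ≤ 5 / 2 := by
    calc ‖c‖ = ‖(c - c₀) + c₀‖ := by ring_nf
      _ ≤ ‖c - c₀‖ + ‖c₀‖ := norm_add_le _ _
      _ ≤ 5 / 2 := by linarith
  set E : ℝ := r ^ (1 / (d : ℝ) - δ) with hEdef
  have hE0 : 0 < E := Real.rpow_pos_of_pos hr _
  intro j
  induction j using Nat.strong_induction_on with
  | _ j ih =>
  intro v Y a b hR hb
  have ha0 : 0 < a := hR.pos
  have hab := hR.le
  -- the sets of first visits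
  set V : ℕ → Set ℝ := fun i => {t | t ∈ Icc a b ∧ ‖(f d c)^[i] (Y t)‖ ^ d ≤ r ∧
    ∀ l < i, r ≤ ‖(f d c)^[l] (Y t)‖ ^ d} with hV
  have hYl : ∀ l, ContinuousOn (fun t => ‖(f d c)^[l] (Y t)‖ ^ d) (Icc a b) := fun l =>
    (((continuous_it d c l).comp_continuousOn hR.cont).norm).pow d
  have hWc : ∀ i : ℕ, IsClosed {t | t ∈ Icc a b ∧ ∀ l < i, r ≤ ‖(f d c)^[l] (Y t)‖ ^ d} := by
    intro i
    induction i with
    | zero =>
      have : {t | t ∈ Icc a b ∧ ∀ l < 0, r ≤ ‖(f d c)^[l] (Y t)‖ ^ d} = Icc a b := by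
        ext t; simp
      rw [this]
      exact isClosed_Icc
    | succ i ihi =>
      have : {t | t ∈ Icc a b ∧ ∀ l < i + 1, r ≤ ‖(f d c)^[l] (Y t)‖ ^ d} =
          {t | t ∈ Icc a b ∧ ∀ l < i, r ≤ ‖(f d c)^[l] (Y t)‖ ^ d} ∩
          (Icc a b ∩ (fun t => ‖(f d c)^[i] (Y t)‖ ^ d) ⁻¹' Ici r) := by
        ext t
        constructor
        · rintro ⟨h1, h2⟩
          exact ⟨⟨h1, fun l hl => h2 l (by omega)⟩, h1, h2 i (by omega)⟩
        · rintro ⟨⟨h1, h2⟩, -, h3⟩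
          refine ⟨h1, fun l hl => ?_⟩
          rcases Nat.lt_succ_iff_lt_or_eq.mp hl with h | rfl
          · exact h2 l h
          · exact h3
      rw [this]
      exact ihi.inter ((hYl i).preimage_isClosed_of_isClosed isClosed_Icc isClosed_Ici)
  have hVc : ∀ i, IsCompact (V i) := by
    intro i
    have h1 : V i = {t | t ∈ Icc a b ∧ ∀ l < i, r ≤ ‖(f d c)^[l] (Y t)‖ ^ d} ∩
        (Icc a b ∩ (fun t => ‖(f d c)^[i] (Y t)‖ ^ d) ⁻¹' Iic r) := by
      ext t
      constructor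
      · rintro ⟨h1, h2, h3⟩
        exact ⟨⟨h1, h3⟩, h1, h2⟩
      · rintro ⟨⟨h1, h3⟩, -, h2⟩
        exact ⟨h1, h2, h3⟩
    refine isCompact_Icc.of_isClosed_subset (s := Icc a b) ?_ (fun t ht => ht.1)
    rw [h1]
    exact (hWc i).inter ((hYl i).preimage_isClosed_of_isClosed isClosed_Icc isClosed_Iic)
  set p : ℕ → ℝ := fun i => if (V i).Nonempty then sInf (V i) else 1 with hp
  set q : ℕ → ℝ := fun i => if (V i).Nonempty then sSup (V i) else 0 with hq
  set e : ℕ → ℝ := fun i => 2 * CP * Real.exp (-(η' * i)) * E with he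
  have hei : ∀ i, 0 ≤ e i := fun i => by rw [he]; positivity
  have hpq_ne : ∀ i, ∀ t ∈ Icc (p i) (q i), (V i).Nonempty := by
    intro i t ht
    by_contra hcon
    have h1 : p i = 1 := by rw [hp]; exact if_neg hcon
    have h2 : q i = 0 := by rw [hq]; exact if_neg hcon
    rw [h1, h2] at ht
    linarith [ht.1, ht.2]
  have hVp : ∀ i, (V i).Nonempty → p i ∈ V i := by
    intro i hi
    have h1 : p i = sInf (V i) := by rw [hp]; exact if_pos hi
    rw [h1]
    exact (hVc i).sInf_mem hi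
  have hVq : ∀ i, (V i).Nonempty → q i ∈ V i := by
    intro i hi
    have h1 : q i = sSup (V i) := by rw [hq]; exact if_pos hi
    rw [h1]
    exact (hVc i).sSup_mem hi
  have hVsub : ∀ i, ∀ t ∈ V i, t ∈ Icc (p i) (q i) := by
    intro i t ht
    have hi : (V i).Nonempty := ⟨t, ht⟩
    have h1 : p i = sInf (V i) := by rw [hp]; exact if_pos hi
    have h2 : q i = sSup (V i) := by rw [hq]; exact if_pos hi
    rw [h1, h2]
    exact ⟨csInf_le (hVc i).bddBelow ht, le_csSup (hVc i).bddAbove ht⟩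
  -- the pieces near first visits
  have hpiece : ∀ i < j, ∀ t ∈ Icc (p i) (q i), ‖Y t - Y (q i)‖ ≤ CP * Real.exp (-(η' * i)) * E := by
    intro i hij t ht
    have hne := hpq_ne i t ht
    obtain ⟨hpab, -, -⟩ := hVp i hne
    obtain ⟨hqab, hq1, hq2⟩ := hVq i hne
    have hpq : p i ≤ q i := ht.1.trans ht.2
    have hdi : (0 : ℝ) < (d : ℝ) ^ i := by positivity
    have hRi := hR.shift hd hij.le hpq hpab.1 hqab.2
    have h1 := HX r hr hr3 c hc (j - i)
      (fun k hk => ih k (by omega)) v _ _ _ hRi (by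
        show ‖(f d c)^[i] (Y ((d : ℝ) ^ i * q i / (d : ℝ) ^ i))‖ ^ d ≤ r
        rw [mul_div_cancel_left₀ _ hdi.ne']
        exact hq1)
    have h2 : ∀ t ∈ Icc (p i) (q i), ‖(f d c)^[i] (Y t)‖ ≤ E := by
      intro t ht
      have h3 := h1 ((d : ℝ) ^ i * t) ⟨by gcongr; exact ht.1, by gcongr; exact ht.2⟩
      simp only [mul_div_cancel_left₀ _ hdi.ne'] at h3
      exact h3.le
    have h4 : ∀ l ≤ i, ‖(f d c)^[l] (Y (q i))‖ ≤ 4 := by
      intro l hl
      by_contra hcon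
      push Not at hcon
      have h5 := stay_out hd hc52 (show 3 < ‖(f d c)^[l] (Y (q i))‖ by linarith) (i - l)
      rw [← Function.iterate_add_apply, Nat.sub_add_cancel hl] at h5
      have h6 : 1 ≤ ‖(f d c)^[i] (Y (q i))‖ ^ d := one_le_pow₀ (by linarith)
      linarith
    exact HP r hr hr2 c hc i Y (p i) (q i) hpq
      (hR.cont.mono (Icc_subset_Icc hpab.1 hqab.2)) hq2 h4 h2 t ht
  have hInt := hI Y a b K β j p q e ha0 hab hK0 hβ0 hβ1 hR.cont hei ?_ ?_
  · refine hInt.trans ?_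
    have hb0 : 0 < b := ha0.trans_le hab
    have h1 : K / β * b ^ β ≤ C * b ^ β := by
      have := Real.rpow_nonneg hb0.le β
      gcongr
    have h2 : ∑ i ∈ Finset.range j, e i ≤ C * E := by
      have h3 : ∀ i : ℕ, e i = 2 * CP * E * Real.exp (-η') ^ i := by
        intro i
        rw [he, ← Real.exp_nat_mul]
        have : (i : ℝ) * -η' = -(η' * i) := by ring
        simp only [this]
        ring
      have h4 : ∑ i ∈ Finset.range j, Real.exp (-η') ^ i ≤ 1 / (1 - Real.exp (-η')) := by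
        rw [geom_sum_eq hq1.ne, ← neg_div_neg_eq, neg_sub, neg_sub]
        apply div_le_div_of_nonneg_right _ (by linarith)
        have : 0 ≤ Real.exp (-η') ^ j := by positivity
        linarith
      calc ∑ i ∈ Finset.range j, e i = 2 * CP * E * ∑ i ∈ Finset.range j, Real.exp (-η') ^ i := by
            rw [Finset.mul_sum]
            exact Finset.sum_congr rfl fun i _ => h3 i
        _ ≤ 2 * CP * E * (1 / (1 - Real.exp (-η'))) := by gcongr
        _ = 2 * CP / (1 - Real.exp (-η')) * E := by ring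
        _ ≤ C * E := by gcongr
    linarith
  · intro i hij t ht t' ht' _ _
    have h1 := hpiece i hij t ht
    have h2 := hpiece i hij t' ht'
    calc ‖Y t - Y t'‖ = ‖(Y t - Y (q i)) - (Y t' - Y (q i))‖ := by ring_nf
      _ ≤ ‖Y t - Y (q i)‖ + ‖Y t' - Y (q i)‖ := norm_sub_le _ _
      _ ≤ e i := by rw [he]; linarith
  · intro t ht hnot
    have htab : t ∈ Icc a b := ⟨ht.1.le, ht.2.le⟩
    have hfar : ∀ i < j, r ≤ ‖(f d c)^[i] (Y t)‖ ^ d := by
      intro i
      induction i using Nat.strong_induction_on with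
      | _ i ihi =>
      intro hij
      by_contra hcon
      push Not at hcon
      exact hnot i hij (hVsub i t ⟨htab, hcon.le, fun l hl => ihi l hl (by omega)⟩)
    have hex : ∃ k, 3 < ‖(f d c)^[k] (Y t)‖ := by
      refine ⟨j, ?_⟩
      rw [hR.norm_eq htab]
      have h1 : Real.exp ((d : ℝ) ^ j * a) ≤ Real.exp ((d : ℝ) ^ j * t) := by
        rw [Real.exp_le_exp]
        have := htab.1
        gcongr
      linarith [hR.four]
    obtain ⟨k, hk⟩ : ∃ k, k = Nat.find hex := ⟨_, rfl⟩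
    have hk3 : 3 < ‖(f d c)^[k] (Y t)‖ := by rw [hk]; exact Nat.find_spec hex
    have hkl : ∀ l < k, ‖(f d c)^[l] (Y t)‖ ≤ 3 := by
      intro l hl
      rw [hk] at hl
      exact not_lt.mp (Nat.find_min hex hl)
    have hkj : k ≤ j := by
      rw [hk]
      apply Nat.find_le
      rw [hR.norm_eq htab]
      have h1 : Real.exp ((d : ℝ) ^ j * a) ≤ Real.exp ((d : ℝ) ^ j * t) := by
        rw [Real.exp_le_exp]
        have := htab.1
        gcongr
      linarith [hR.four]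
    obtain ⟨hE1, -, -⟩ := HE c r (Y t) k hr hr1 hc
    have h1 := hE1 hkl hk3 (fun l hl => hfar l (by omega))
    obtain ⟨h2, y', h3, h4⟩ := HD c j v Y a b hR hc52 (by linarith) t ht k hkj hkl hk3
    refine ⟨y', h3, ?_⟩
    have ht0 : 0 < t := ha0.trans ht.1
    have hdk : (0 : ℝ) < (d : ℝ) ^ k := by positivity
    have hexp : Real.exp (η * k) = ((d : ℝ) ^ k) ^ β := by
      rw [← Real.rpow_natCast, ← Real.rpow_mul hd0.le, Real.rpow_def_of_pos hd0]
      congr 1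
      rw [← hβd]; ring
    have h5 : ‖y'‖ * (κ * ((d : ℝ) ^ k) ^ β) ≤ CD * (d : ℝ) ^ k := by
      rw [hexp] at h1
      exact (mul_le_mul_of_nonneg_left h1 (norm_nonneg _)).trans h4
    have hpos : 0 < κ * ((d : ℝ) ^ k) ^ β := by
      have := Real.rpow_pos_of_pos hdk β
      positivity
    have h6 : ‖y'‖ ≤ CD / κ * ((d : ℝ) ^ k) ^ (1 - β) := by
      rw [← le_div_iff₀ hpos] at h5
      refine h5.trans (le_of_eq ?_)
      rw [Real.rpow_sub hdk, Real.rpow_one]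
      have := Real.rpow_pos_of_pos hdk β
      field_simp
    have h7 : ((d : ℝ) ^ k) ^ (1 - β) ≤ CD * t ^ (β - 1) := by
      have h8 : (d : ℝ) ^ k ≤ CD / t := by rw [le_div_iff₀ ht0]; exact h2
      calc ((d : ℝ) ^ k) ^ (1 - β) ≤ (CD / t) ^ (1 - β) := by
            apply Real.rpow_le_rpow hdk.le h8 (by linarith)
        _ = CD ^ (1 - β) * t ^ (β - 1) := by
            rw [Real.div_rpow (by linarith) ht0.le, div_eq_mul_inv, ← Real.rpow_neg ht0.le]
            congr 2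
            ring
        _ ≤ CD * t ^ (β - 1) := by
            have h9 : CD ^ (1 - β) ≤ CD ^ (1 : ℝ) :=
              Real.rpow_le_rpow_of_exponent_le hCD (by linarith)
            rw [Real.rpow_one] at h9
            have := Real.rpow_nonneg ht0.le (β - 1)
            gcongr
    calc ‖y'‖ ≤ CD / κ * ((d : ℝ) ^ k) ^ (1 - β) := h6
      _ ≤ CD / κ * (CD * t ^ (β - 1)) := by gcongr
      _ = K * t ^ (β - 1) := by rw [hK]; ring

end Pool.Agent.N253.LC
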