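import Mathlib
import Pool.Agent.N253.LC.Stm
import Pool.Agent.N253.LC.Disp
import Pool.Agent.N253.SM.Core
import Pool.Agent.Y298.CD.Grw

/-!
# Project LC: two points of a parameter ray
-/

set_option autoImplicit false

open Set Filter Metric Topology

namespace Pool.Agent.N253.LC

open Pool.Agent.TH279.MD Pool.Agent.Y298.SH Pool.Agent.Y298.SH.CD Pool.Agent.Y298.CA
open Pool.Agent.H713R2 (IsExteriorMap IsGm)
open Pool.Agent.H712R2 (P P_lt_of_gt)

theorem dd_pow {d : ℕ} {m n : ℕ} (hn : n ≤ m) {c w : ℂ} (h : (c, w) ∈ DD d m) :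
    (c, w ^ (d ^ n)) ∈ DD d (m - n) := by
  obtain ⟨h0, h1⟩ := h
  refine ⟨pow_ne_zero _ h0, fun i hi1 hi2 => ?_⟩
  have h2 := h1 i hi1 (by omega)
  rw [norm_pow, ← pow_mul, ← pow_add, Nat.add_sub_cancel' hn]
  exact h2

theorem coord_iter {d : ℕ} {X : ℕ → ℂ → ℂ → ℂ}
    (hX : ∀ j c w, (c, w) ∈ DD d (j + 1) → f d c (X (j + 1) c w) = X j c (w ^ d)) {m : ℕ}
    {c w : ℂ} (h : (c, w) ∈ DD d m) : ∀ n ≤ m, (f d c)^[n] (X m c w) = X (m - n) c (w ^ (d ^ n)) := by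
  intro n
  induction n with
  | zero => intro _; simp
  | succ n ih =>
    intro hn
    rw [Function.iterate_succ_apply', ih (by omega)]
    obtain ⟨k, hk⟩ : ∃ k, m - n = k + 1 := ⟨m - n - 1, by omega⟩
    have hk' : m - (n + 1) = k := by omega
    have h1 := dd_pow (show n ≤ m by omega) h
    rw [hk] at h1 ⊢
    rw [hX k c _ h1, hk', ← pow_mul, pow_succ]

theorem exp_pow (t : ℝ) (u : ℂ) (N : ℕ) : ((Real.exp t : ℂ) * u) ^ N =
    (Real.exp ((N : ℝ) * t) : ℂ) * u ^ N := by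
  rw [mul_pow, Real.exp_nat_mul]
  push_cast
  ring

theorem norm_exp_mul (t : ℝ) {u : ℂ} (hu : ‖u‖ = 1) : ‖(Real.exp t : ℂ) * u‖ = Real.exp t := by
  rw [norm_mul, hu, mul_one, Complex.norm_real, Real.norm_of_nonneg (Real.exp_pos _).le]

/-- The points of finite level. -/
theorem gm_point {d m : ℕ} (hd : 2 ≤ d) {g : ℂ → ℂ} (hg : IsGm d m g) {u : ℂ} (hu : ‖u‖ = 1)
    {t : ℝ} (ht : 4 ≤ Real.exp ((d : ℝ) ^ m * t)) :
    ((Real.exp t : ℂ) * u)⁻¹ ∈ ball (0 : ℂ) (Pool.Agent.H713R2.rad d m) ∧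
    P d (m + 1) ((Real.exp t : ℂ) * u * g ((Real.exp t : ℂ) * u)⁻¹) =
      ((Real.exp t : ℂ) * u) ^ (d ^ m) := by
  have hw : ‖(Real.exp t : ℂ) * u‖ = Real.exp t := norm_exp_mul t hu
  have hw0 : (Real.exp t : ℂ) * u ≠ 0 := by
    intro h
    rw [h, norm_zero] at hw
    exact (Real.exp_pos t).ne hw
  have hmem : ((Real.exp t : ℂ) * u)⁻¹ ∈ ball (0 : ℂ) (Pool.Agent.H713R2.rad d m) := by
    rw [Pool.Agent.H713R2.mem_ball_rad_iff hd m _ (inv_ne_zero hw0), inv_inv, hw,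
      ← Real.exp_nat_mul]
    push_cast
    linarith
  refine ⟨hmem, ?_⟩
  have h1 := hg.eq _ hmem (inv_ne_zero hw0)
  rw [inv_inv] at h1
  exact h1

theorem t_TWO (hDisp : S_DISP) (hC : S_CMP) (hCo : S_COORD) (hS : S_SHAD) : S_TWO := by
  classical
  intro d χ c₀ hd hL δ hδ
  have hχ : 0 < χ := hL.1
  have hdR : (2 : ℝ) ≤ d := by exact_mod_cast hd
  have hd0 : (0 : ℝ) < d := by linarith
  have hlogd : 0 < Real.log d := Real.log_pos (by linarith)
  obtain ⟨α, hα⟩ : ∃ α : ℝ, α = Real.log d / χ := ⟨_, rfl⟩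
  have hα0 : 0 < α := by rw [hα]; positivity
  have hαχ : α * χ = Real.log d := by rw [hα]; field_simp
  rw [← hα]
  obtain ⟨C, β, δ₁, T₀, r₁, hC1, hβ0, hβ1, hδ1, hδ1', hT0, hT0', hr₁, HD⟩ := hDisp d χ c₀ hd hL
  obtain ⟨A, hA, HC⟩ := hC d χ c₀ hd hL
  obtain ⟨δ₃, hδ3⟩ : ∃ x : ℝ, x = min (δ / 2) (min (1 / (2 * A)) (α / 4)) := ⟨_, rfl⟩
  have hδ30 : 0 < δ₃ := by rw [hδ3]; positivity
  have hδ3a : δ₃ ≤ δ / 2 := by rw [hδ3]; exact min_le_left _ _
  have hδ3b : δ₃ ≤ 1 / (2 * A) := by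
    rw [hδ3]; exact (min_le_right _ _).trans (min_le_left _ _)
  have hδ3c : δ₃ ≤ α / 4 := by
    rw [hδ3]; exact (min_le_right _ _).trans (min_le_right _ _)
  have hAδ : A * δ₃ ≤ 1 / 2 := by
    calc A * δ₃ ≤ A * (1 / (2 * A)) := by gcongr
      _ = 1 / 2 := by field_simp
  obtain ⟨ε, hε⟩ : ∃ x : ℝ, x = min (1 / 16) (min (β * δ₃ / 8) (1 / (8 * (d : ℝ)))) := ⟨_, rfl⟩
  have hε0 : 0 < ε := by rw [hε]; positivity
  have hεa : ε ≤ 1 / 16 := by rw [hε]; exact min_le_left _ _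
  have hεb : ε ≤ β * δ₃ / 8 := by
    rw [hε]; exact (min_le_right _ _).trans (min_le_left _ _)
  have hεc : ε ≤ 1 / (8 * (d : ℝ)) := by
    rw [hε]; exact (min_le_right _ _).trans (min_le_right _ _)
  obtain ⟨CS, r₂, hCS, hr₂, hr₂4, HS⟩ := hS d χ c₀ hd hL ε hε0 (by linarith)
  have hdinv : 1 / (d : ℝ) - δ₁ ≥ 3 / (4 * d) := by
    have h1 : 3 / (4 * (d : ℝ)) = 1 / d - 1 / (4 * d) := by field_simp; norm_num
    rw [h1]; linarith
  have hexpo : 2 * ε < 1 / (d : ℝ) - δ₁ := by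
    have h1 : 3 / (4 * (d : ℝ)) = 6 * (1 / (8 * d)) := by field_simp; norm_num
    have h2 : 0 < 1 / (8 * (d : ℝ)) := by positivity
    linarith
  have hβδ : 0 < β * δ₃ := by positivity
  -- smallness
  obtain ⟨q₁, hq₁, hq₁1, Q1⟩ := SM.small_pow (64 * C) (β * δ₃ - 2 * ε) (by linarith)
  obtain ⟨q₂, hq₂, hq₂1, Q2⟩ := SM.small_pow (64 * C) (1 / (d : ℝ) - δ₁ - 2 * ε) (by linarith)
  obtain ⟨q₃, hq₃, hq₃1, Q3⟩ := SM.small_pow 64 (1 / 2 - 2 * ε) (by linarith)
  obtain ⟨q₄, hq₄, hq₄1, Q4⟩ := SM.small_pow (max A (1 / T₀)) δ₃ hδ30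
  obtain ⟨q₅, hq₅, hq₅1, Q5⟩ := SM.small_pow (Real.exp (α * CS)) (δ - δ₃) (by linarith)
  obtain ⟨q₆, hq₆, hq₆1, Q6⟩ := SM.small_pow (2 * Real.exp (α * CS)) (α * (1 - ε) - δ₃)
    (by nlinarith)
  refine ⟨min (min r₁ r₂) (min (min q₁ q₂) (min (min q₃ q₄) (min q₅ q₆))), by positivity, ?_⟩
  intro R hR hRR
  have hR1 : R ≤ r₁ := hRR.trans ((min_le_left _ _).trans (min_le_left _ _))
  have hR2 : R ≤ r₂ := hRR.trans ((min_le_left _ _).trans (min_le_right _ _))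
  have hRq := hRR.trans (min_le_right _ _)
  have hRq1 : R ≤ q₁ := hRq.trans ((min_le_left _ _).trans (min_le_left _ _))
  have hRq2 : R ≤ q₂ := hRq.trans ((min_le_left _ _).trans (min_le_right _ _))
  have hRq' := hRq.trans (min_le_right _ _)
  have hRq3 : R ≤ q₃ := hRq'.trans ((min_le_left _ _).trans (min_le_left _ _))
  have hRq4 : R ≤ q₄ := hRq'.trans ((min_le_left _ _).trans (min_le_right _ _))
  have hRq5 : R ≤ q₅ := hRq'.trans ((min_le_right _ _).trans (min_le_left _ _))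
  have hRq6 : R ≤ q₆ := hRq'.trans ((min_le_right _ _).trans (min_le_right _ _))
  have hRlt : R < 1 := lt_of_le_of_lt hRq1 hq₁1
  obtain ⟨n, hn1, hn2, -, hn4⟩ := HS R hR hR2
  obtain ⟨T, hT⟩ : ∃ T : ℝ, T = R ^ δ₃ := ⟨_, rfl⟩
  have hTpos : 0 < T := by rw [hT]; exact Real.rpow_pos_of_pos hR _
  have hTA : A * T ≤ 1 := by
    have h1 := Q4 R hR hRq4
    rw [← hT] at h1
    have h2 : A ≤ max A (1 / T₀) := le_max_left _ _
    nlinarith
  have hTT0 : T ≤ T₀ := by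
    have h1 := Q4 R hR hRq4
    rw [← hT] at h1
    have h2 : 1 / T₀ ≤ max A (1 / T₀) := le_max_right _ _
    have h3 : 1 / T₀ * T ≤ 1 := by nlinarith
    rwa [one_div, inv_mul_le_iff₀ hT0, mul_one] at h3
  have hRTA : R ≤ T ^ A := by
    rw [hT, ← Real.rpow_mul hR.le]
    calc R = R ^ (1 : ℝ) := (Real.rpow_one R).symm
      _ ≤ R ^ (δ₃ * A) := by
        apply Real.rpow_le_rpow_of_exponent_ge hR hRlt.le
        linarith
  -- the size of `d ^ n`
  have hlogR : Real.log (1 / R) = - Real.log R := by rw [one_div, Real.log_inv]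
  have hlogR0 : 0 ≤ -Real.log R := by
    have := Real.log_neg hR hRlt
    linarith
  have hdn : (d : ℝ) ^ n = Real.exp (α * (n * χ)) := by
    rw [← Real.rpow_natCast, Real.rpow_def_of_pos hd0]
    congr 1
    rw [← hαχ]; ring
  have hdn_up : (d : ℝ) ^ n ≤ Real.exp (α * CS) * R ^ (-α) := by
    have h1 := (abs_le.mp hn1).2
    rw [hdn, Real.rpow_def_of_pos hR, ← Real.exp_add, Real.exp_le_exp]
    rw [hlogR] at h1
    have h2 : n * χ ≤ CS - Real.log R := by nlinarith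
    have := mul_le_mul_of_nonneg_left h2 hα0.le
    linarith
  have hdn_lo : 1 ≤ Real.exp (α * CS) * R ^ (α * (1 - ε)) * (d : ℝ) ^ n := by
    have h1 := (abs_le.mp hn1).1
    rw [hdn, Real.rpow_def_of_pos hR, ← Real.exp_add, ← Real.exp_add, Real.one_le_exp_iff]
    rw [hlogR] at h1
    have h2 : 0 ≤ n * χ - (1 - ε) * -Real.log R + CS := by linarith
    have := mul_nonneg hα0.le h2
    linarith
  have hdnpos : (0 : ℝ) < (d : ℝ) ^ n := by positivity
  -- `T` is much larger than `d ^ (-n)`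
  have hTn : Real.log 4 ≤ (d : ℝ) ^ (n + 1) * T := by
    have h1 := Q6 R hR hRq6
    have h2 : 2 * Real.exp (α * CS) * R ^ (α * (1 - ε)) ≤ T := by
      rw [hT]
      calc 2 * Real.exp (α * CS) * R ^ (α * (1 - ε)) =
          (2 * Real.exp (α * CS) * R ^ (α * (1 - ε) - δ₃)) * R ^ δ₃ := by
            rw [mul_assoc (2 * Real.exp (α * CS)), ← Real.rpow_add hR]
            congr 2
            ring
        _ ≤ 1 * R ^ δ₃ := by
            have := Real.rpow_nonneg hR.le δ₃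
            gcongr
        _ = R ^ δ₃ := one_mul _
    have h3 : 2 ≤ (d : ℝ) ^ n * T := by
      calc (2 : ℝ) ≤ 2 * (Real.exp (α * CS) * R ^ (α * (1 - ε)) * (d : ℝ) ^ n) := by linarith
        _ = (d : ℝ) ^ n * (2 * Real.exp (α * CS) * R ^ (α * (1 - ε))) := by ring
        _ ≤ (d : ℝ) ^ n * T := by gcongr
    have h4 : Real.log 4 ≤ 2 := by
      rw [Real.log_le_iff_le_exp (by norm_num)]
      have := Real.add_one_le_exp (1 : ℝ)
      have h5 : Real.exp 2 = Real.exp 1 * Real.exp 1 := by rw [← Real.exp_add]; norm_num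
      nlinarith [Real.exp_one_gt_d9]
    calc Real.log 4 ≤ 2 := h4
      _ ≤ (d : ℝ) ^ n * T := h3
      _ ≤ (d : ℝ) ^ (n + 1) * T := by
          rw [pow_succ]
          have : 0 < (d : ℝ) ^ n * T := by positivity
          nlinarith
  obtain ⟨k₀, hk₀⟩ : ∃ k₀ : ℕ, 2 / T < (2 : ℝ) ^ k₀ := pow_unbounded_of_one_lt _ (by norm_num)
  refine ⟨n + k₀, ?_⟩
  intro m hm g u hg hu t₁ t₂ ht₁ ht₂ hc₁ hc₂ hdiff
  by_contra hcon
  push Not at hcon
  have hnm : n ≤ m := by omega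
  obtain ⟨j, hj⟩ : ∃ j, j = m - n := ⟨_, rfl⟩
  have hjm : m = n + j := by omega
  have hjk : k₀ ≤ j := by omega
  have hTj : 2 ≤ (d : ℝ) ^ j * T := by
    have h1 : (2 : ℝ) ^ k₀ ≤ (d : ℝ) ^ j := by
      calc (2 : ℝ) ^ k₀ ≤ (d : ℝ) ^ k₀ := pow_le_pow_left₀ (by norm_num) hdR _
        _ ≤ (d : ℝ) ^ j := pow_le_pow_right₀ (by linarith) hjk
    have h2 : 2 / T < (d : ℝ) ^ j := hk₀.trans_le h1
    rw [div_lt_iff₀ hTpos] at h2
    exact h2.le
  have hexp2 : (4 : ℝ) < Real.exp 2 := by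
    have h5 : Real.exp 2 = Real.exp 1 * Real.exp 1 := by rw [← Real.exp_add]; norm_num
    nlinarith [Real.exp_one_gt_d9]
  have hTj4 : 4 < Real.exp ((d : ℝ) ^ j * T) := hexp2.trans_le (Real.exp_le_exp.mpr hTj)
  -- the curve of parameters
  set cc : ℝ → ℂ := fun t => (Real.exp t : ℂ) * u * g ((Real.exp t : ℂ) * u)⁻¹ with hcc
  have hmin : ∀ t, min t₁ t₂ ≤ t → 4 ≤ Real.exp ((d : ℝ) ^ m * t) := by
    intro t ht
    have h1 : 4 ≤ Real.exp ((d : ℝ) ^ m * min t₁ t₂) := by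
      rcases min_choice t₁ t₂ with h | h <;> rw [h] <;> assumption
    refine h1.trans ?_
    rw [Real.exp_le_exp]
    gcongr
  obtain ⟨X, hX1, hX2, hX3, hX4⟩ := hCo d hd
  obtain ⟨W, hW⟩ := hX4 m
  have hPcc : ∀ t, min t₁ t₂ ≤ t → P d (m + 1) (cc t) = ((Real.exp t : ℂ) * u) ^ (d ^ m) :=
    fun t ht => (gm_point hd hg hu (hmin t ht)).2
  have hPn : ∀ t, min t₁ t₂ ≤ t → ‖P d (m + 1) (cc t)‖ = Real.exp ((d : ℝ) ^ m * t) := by
    intro t ht
    rw [hPcc t ht, norm_pow, norm_exp_mul t hu, ← Real.exp_nat_mul]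
    push_cast
    rfl
  have hP2 : ∀ t, min t₁ t₂ ≤ t → 2 < ‖P d (m + 1) (cc t)‖ := by
    intro t ht
    rw [hPn t ht]
    linarith [hmin t ht]
  have hccc : ContinuousOn cc (Ici (min t₁ t₂)) := by
    have h1 : ContinuousOn (fun t : ℝ => ((Real.exp t : ℂ) * u)⁻¹) (Ici (min t₁ t₂)) := by
      apply ContinuousOn.inv₀
      · fun_prop
      · intro t _ h
        have := norm_exp_mul t hu
        rw [h, norm_zero] at this
        exact (Real.exp_pos t).ne this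
    have h2 : ContinuousOn (fun t : ℝ => g ((Real.exp t : ℂ) * u)⁻¹) (Ici (min t₁ t₂)) :=
      hg.diff.continuousOn.comp h1 (fun t ht => (gm_point hd hg hu (hmin t ht)).1)
    have h3 : ContinuousOn (fun t : ℝ => (Real.exp t : ℂ) * u) (Ici (min t₁ t₂)) := by fun_prop
    exact h3.mul h2
  -- the rotation is constant
  have hNpos : 0 < d ^ m := pow_pos (by omega) _
  have hrot : ∀ t ∈ Icc (min t₁ t₂) (max t₁ t₂), ∀ t' ∈ Icc (min t₁ t₂) (max t₁ t₂),
      W (cc t) / ((Real.exp t : ℂ) * u) = W (cc t') / ((Real.exp t' : ℂ) * u) := by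
    have hne : ∀ t : ℝ, (Real.exp t : ℂ) * u ≠ 0 := by
      intro t h
      have := norm_exp_mul t hu
      rw [h, norm_zero] at this
      exact (Real.exp_pos t).ne this
    have h1 : ContinuousOn (fun t : ℝ => W (cc t) / ((Real.exp t : ℂ) * u))
        (Icc (min t₁ t₂) (max t₁ t₂)) := by
      apply ContinuousOn.div
      · intro t ht
        exact (hW (cc t) (hP2 t ht.1)).1.comp_continuousWithinAt
          ((hccc t ht.1).mono (fun s hs => hs.1))
      · fun_prop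
      · exact fun t _ => hne t
    have h2 : MapsTo (fun t : ℝ => W (cc t) / ((Real.exp t : ℂ) * u))
        (Icc (min t₁ t₂) (max t₁ t₂)) {z : ℂ | z ^ (d ^ m) = 1} := by
      intro t ht
      show (W (cc t) / ((Real.exp t : ℂ) * u)) ^ (d ^ m) = 1
      rw [div_pow, (hW (cc t) (hP2 t ht.1)).2.2.1, hPcc t ht.1]
      exact div_self (pow_ne_zero _ (hne t))
    have hfin : {z : ℂ | z ^ (d ^ m) = 1}.Finite := by
      have h3 : {z : ℂ | z ^ (d ^ m) = 1} ⊆ ((Polynomial.nthRoots (d ^ m) (1 : ℂ)).toFinset : Set ℂ) := by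
        intro z hz
        simp only [Finset.mem_coe, Multiset.mem_toFinset]
        rw [Polynomial.mem_nthRoots hNpos]
        exact hz
      exact (Finset.finite_toSet _).subset h3
    have hdis : IsDiscrete {z : ℂ | z ^ (d ^ m) = 1} := by
      rw [isDiscrete_iff_discreteTopology]
      haveI := hfin.to_subtype
      infer_instance
    intro t ht t' ht'
    exact isPreconnected_Icc.constant_of_mapsTo hdis h1 h2 ht ht'
  have hm1 : t₁ ∈ Icc (min t₁ t₂) (max t₁ t₂) := ⟨min_le_left _ _, le_max_left _ _⟩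
  have hm2 : t₂ ∈ Icc (min t₁ t₂) (max t₁ t₂) := ⟨min_le_right _ _, le_max_right _ _⟩
  set κ : ℂ := W (cc t₁) / ((Real.exp t₁ : ℂ) * u) with hκ
  have hne : ∀ t : ℝ, (Real.exp t : ℂ) * u ≠ 0 := by
    intro t h
    have := norm_exp_mul t hu
    rw [h, norm_zero] at this
    exact (Real.exp_pos t).ne this
  have hWt : ∀ t ∈ Icc (min t₁ t₂) (max t₁ t₂), W (cc t) = (Real.exp t : ℂ) * (κ * u) := by
    intro t ht
    have h1 := hrot t ht t₁ hm1
    rw [← hκ, div_eq_iff (hne t)] at h1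
    rw [h1]; ring
  have hκ1 : ‖κ‖ = 1 := by
    have h1 : κ ^ (d ^ m) = 1 := by
      rw [hκ, div_pow, (hW (cc t₁) (hP2 t₁ hm1.1)).2.2.1, hPcc t₁ hm1.1]
      exact div_self (pow_ne_zero _ (hne t₁))
    have h2 : ‖κ‖ ^ (d ^ m) = 1 := by rw [← norm_pow, h1, norm_one]
    exact (pow_eq_one_iff_of_nonneg (norm_nonneg _) hNpos.ne').mp h2
  obtain ⟨v, hv⟩ : ∃ v : ℂ, v = (κ * u) ^ (d ^ n) := ⟨_, rfl⟩
  have hv1 : ‖v‖ = 1 := by rw [hv, norm_pow, norm_mul, hκ1, hu]; simp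
  -- the position after `n` steps
  have hxi : ∀ t ∈ Icc (min t₁ t₂) (max t₁ t₂),
      (f d (cc t))^[n] (cc t) = X j (cc t) ((Real.exp ((d : ℝ) ^ n * t) : ℂ) * v) := by
    intro t ht
    obtain ⟨-, h1, -, h3⟩ := hW (cc t) (hP2 t ht.1)
    have h4 := coord_iter hX3 h1 n hnm
    rw [h3, ← hj, hWt t ht, exp_pow] at h4
    rw [h4, hv]
    push_cast
    rfl
  -- the displacement
  have hdist : ∀ t ∈ Icc (min t₁ t₂) (max t₁ t₂), ‖cc t - c₀‖ ≤ R →
      ‖(f d (cc t))^[n] (cc t) - X j (cc t) ((Real.exp T : ℂ) * v)‖ ≤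
        C * T ^ β + C * R ^ (1 / (d : ℝ) - δ₁) := by
    intro t ht htR
    have hle : (d : ℝ) ^ n * t ≤ T := by
      have h1 : t ≤ R ^ (α + δ) := ht.2.trans hcon.le
      have h2 := Q5 R hR hRq5
      calc (d : ℝ) ^ n * t ≤ (Real.exp (α * CS) * R ^ (-α)) * R ^ (α + δ) := by
            have h3 : 0 ≤ R ^ (α + δ) := Real.rpow_nonneg hR.le _
            calc (d : ℝ) ^ n * t ≤ (d : ℝ) ^ n * R ^ (α + δ) := by gcongr
              _ ≤ _ := by gcongr
        _ = (Real.exp (α * CS) * R ^ (δ - δ₃)) * R ^ δ₃ := by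
            rw [mul_assoc, mul_assoc, ← Real.rpow_add hR, ← Real.rpow_add hR]
            congr 2
            ring
        _ ≤ 1 * R ^ δ₃ := by
            have := Real.rpow_nonneg hR.le δ₃
            gcongr
        _ = T := by rw [one_mul, hT]
    have hjn : (d : ℝ) ^ j * ((d : ℝ) ^ n * t) = (d : ℝ) ^ m * t := by
      rw [← mul_assoc, ← pow_add, hjm, add_comm n j]
    have hcrit : ∀ i, 1 ≤ i → i ≤ j → ‖P d i (cc t)‖ < Real.exp ((d : ℝ) ^ j * ((d : ℝ) ^ n * t)) := by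
      intro i h1 h2
      rw [hjn, ← hPn t ht.1]
      exact P_lt_of_gt hd (hP2 t ht.1) i h1 (by omega)
    have hDD : ∀ s, (d : ℝ) ^ n * t ≤ s → (cc t, (Real.exp s : ℂ) * v) ∈ DD d j := by
      intro s hs
      refine ⟨?_, fun i h1 h2 => ?_⟩
      · intro h
        have := norm_exp_mul s hv1
        simp only at h
        rw [h, norm_zero] at this
        exact (Real.exp_pos s).ne this
      · show ‖P d i (cc t)‖ < ‖(Real.exp s : ℂ) * v‖ ^ (d ^ j)
        rw [norm_exp_mul s hv1, ← Real.exp_nat_mul]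
        refine (hcrit i h1 h2).trans_le ?_
        rw [Real.exp_le_exp]
        push_cast
        gcongr
    have hRay : Ray d (cc t) j (v ^ (d ^ j)) (fun s => X j (cc t) ((Real.exp s : ℂ) * v))
        ((d : ℝ) ^ n * t) T := by
      refine ⟨hle, ?_, by rw [norm_pow, hv1, one_pow], ?_, ?_, hcrit⟩
      · have h1 : ContinuousOn (fun s : ℝ => (cc t, (Real.exp s : ℂ) * v))
            (Icc ((d : ℝ) ^ n * t) T) := by fun_prop
        exact (hX1 j).comp h1 (fun s hs => hDD s hs.1)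
      · intro s hs
        rw [hX2 j _ _ (hDD s hs.1), exp_pow]
        push_cast
        rfl
      · rw [hjn]; exact hmin t ht.1
    have h1 := HD R hR hR1 (cc t) htR j _ _ _ _ hRay hTT0
    rw [hxi t ht]
    exact h1
  -- comparison of the parameters
  have hball : ∀ s ∈ Icc (0 : ℝ) 1, ‖(cc t₁ + (s : ℂ) * (cc t₂ - cc t₁)) - c₀‖ ≤ R := by
    intro s hs
    have h1 : cc t₁ + (s : ℂ) * (cc t₂ - cc t₁) - c₀ =
        ((1 - s : ℝ) : ℂ) * (cc t₁ - c₀) + (s : ℂ) * (cc t₂ - c₀) := by push_cast; ring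
    rw [h1]
    refine (norm_add_le _ _).trans ?_
    rw [norm_mul, norm_mul, Complex.norm_real, Complex.norm_real, Real.norm_of_nonneg
      (by linarith [hs.2] : (0 : ℝ) ≤ 1 - s), Real.norm_of_nonneg hs.1]
    have h2 : (1 - s) * ‖cc t₁ - c₀‖ ≤ (1 - s) * R := by
      have : 0 ≤ 1 - s := by linarith [hs.2]
      gcongr
    have h3 : s * ‖cc t₂ - c₀‖ ≤ s * R := by
      have := hs.1
      gcongr
    linarith
  have hDDT : ∀ c : ℂ, ‖c - c₀‖ ≤ R → (c, (Real.exp T : ℂ) * v) ∈ DD d j := by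
    intro c hc
    refine ⟨?_, fun i h1 h2 => ?_⟩
    · intro h
      have := norm_exp_mul T hv1
      simp only at h
      rw [h, norm_zero] at this
      exact (Real.exp_pos T).ne this
    · show ‖P d i c‖ < ‖(Real.exp T : ℂ) * v‖ ^ (d ^ j)
      rw [norm_exp_mul T hv1, ← Real.exp_nat_mul]
      have hpos : ∀ l ≤ n, ‖P d (l + 1) c‖ ≤ 3 := by
        intro l hl
        have h3 := hn2 c c hc (by rw [sub_self, norm_zero]; exact hR.le) l hl
        rw [P_succ_eq hd]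
        exact h3
      have hc3 : ‖c‖ ≤ 3 := by
        have := hpos 0 (Nat.zero_le _)
        rwa [zero_add, Pool.Agent.H712R2.P_one hd] at this
      by_cases hin : i ≤ n + 1
      · have h3 := hpos (i - 1) (by omega)
        rw [Nat.sub_add_cancel h1] at h3
        have h4 : (d ^ j : ℕ) * T = (d : ℝ) ^ j * T := by push_cast; rfl
        rw [h4]
        linarith
      · obtain ⟨i', hi'⟩ : ∃ i', i = n + 1 + i' := ⟨i - (n + 1), by omega⟩
        have h3 := Pool.Agent.H713R2.up_growth hd (n := n + 1) (c := c) (R := 3) (by norm_num) hc3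
          (hpos n le_rfl) i'
        rw [← hi'] at h3
        have h4 : (3 + 1 : ℝ) ^ (d ^ i') = Real.exp ((d : ℝ) ^ i' * Real.log 4) := by
          have h5 : (3 + 1 : ℝ) = Real.exp (Real.log 4) := by
            rw [Real.exp_log (by norm_num)]; norm_num
          rw [h5, ← Real.exp_nat_mul]
          push_cast
          rfl
        rw [h4] at h3
        have h6 : Real.exp ((d : ℝ) ^ i' * Real.log 4) ≤ Real.exp (((d ^ j : ℕ) : ℝ) * T) := by
          rw [Real.exp_le_exp]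
          push_cast
          calc (d : ℝ) ^ i' * Real.log 4 ≤ (d : ℝ) ^ i' * ((d : ℝ) ^ (n + 1) * T) := by gcongr
            _ = (d : ℝ) ^ i * T := by rw [← mul_assoc, ← pow_add, hi', add_comm i' (n + 1)]
            _ ≤ (d : ℝ) ^ j * T := by
                have : (d : ℝ) ^ i ≤ (d : ℝ) ^ j := pow_le_pow_right₀ (by linarith) h2
                gcongr
        linarith
  have hcmp := HC R T j (fun s => X j (cc t₁ + (s : ℂ) * (cc t₂ - cc t₁)) ((Real.exp T : ℂ) * v))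
    (fun s => cc t₁ + (s : ℂ) * (cc t₂ - cc t₁)) (((Real.exp T : ℂ) * v) ^ (d ^ j)) hR hTpos hTA
    hRTA hTj4.le (by
      rw [norm_pow, norm_exp_mul T hv1, ← Real.exp_nat_mul]
      push_cast
      rfl)
    (by
      have h1 : ContinuousOn (fun s : ℝ => (cc t₁ + (s : ℂ) * (cc t₂ - cc t₁),
          (Real.exp T : ℂ) * v)) (Icc (0 : ℝ) 1) := by fun_prop
      exact (hX1 j).comp h1 (fun s hs => hDDT _ (hball s hs)))
    (by fun_prop) hball (fun s hs => hX2 j _ _ (hDDT _ (hball s hs)))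
  simp only [Complex.ofReal_zero, zero_mul, add_zero, Complex.ofReal_one, one_mul,
    add_sub_cancel] at hcmp
  have hlow := hn4 (cc t₁) (cc t₂) hc₁ hc₂
  have hd1 := hdist t₁ hm1 hc₁
  have hd2 := hdist t₂ hm2 hc₂
  -- the numbers
  have hR2ε : 0 < R ^ (2 * ε) := Real.rpow_pos_of_pos hR _
  have e1 : R ^ (2 * ε) / 8 ≤ ‖(f d (cc t₁))^[n] (cc t₁) - (f d (cc t₂))^[n] (cc t₂)‖ := by
    refine le_trans ?_ hlow
    calc R ^ (2 * ε) / 8 = R ^ (2 * ε - 1) * (R / 8) := by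
          rw [Real.rpow_sub hR, Real.rpow_one]; field_simp
      _ ≤ _ := by
          have := Real.rpow_nonneg hR.le (2 * ε - 1)
          gcongr
  have e2 : C * T ^ β ≤ R ^ (2 * ε) / 64 := by
    have h1 := Q1 R hR hRq1
    calc C * T ^ β = (64 * C * R ^ (β * δ₃ - 2 * ε)) * R ^ (2 * ε) / 64 := by
          rw [hT, ← Real.rpow_mul hR.le, mul_assoc (64 * C), ← Real.rpow_add hR]
          ring_nf
      _ ≤ 1 * R ^ (2 * ε) / 64 := by gcongr
      _ = _ := by rw [one_mul]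
  have e3 : C * R ^ (1 / (d : ℝ) - δ₁) ≤ R ^ (2 * ε) / 64 := by
    have h1 := Q2 R hR hRq2
    calc C * R ^ (1 / (d : ℝ) - δ₁) =
        (64 * C * R ^ (1 / (d : ℝ) - δ₁ - 2 * ε)) * R ^ (2 * ε) / 64 := by
          rw [mul_assoc (64 * C), ← Real.rpow_add hR]
          ring_nf
      _ ≤ 1 * R ^ (2 * ε) / 64 := by gcongr
      _ = _ := by rw [one_mul]
  have e4 : R * T ^ (-A) ≤ R ^ (2 * ε) / 64 := by
    have h1 := Q3 R hR hRq3
    calc R * T ^ (-A) = R ^ (1 - δ₃ * A) := by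
          rw [hT, ← Real.rpow_mul hR.le, Real.rpow_sub hR, Real.rpow_one, mul_neg,
            Real.rpow_neg hR.le]
          ring
      _ ≤ R ^ ((1 / 2 : ℝ)) := by
          apply Real.rpow_le_rpow_of_exponent_ge hR hRlt.le
          linarith
      _ = (64 * R ^ (1 / 2 - 2 * ε)) * R ^ (2 * ε) / 64 := by
          rw [mul_assoc, ← Real.rpow_add hR]
          ring_nf
      _ ≤ 1 * R ^ (2 * ε) / 64 := by gcongr
      _ = _ := by rw [one_mul]
  have e5 : ‖(f d (cc t₁))^[n] (cc t₁) - (f d (cc t₂))^[n] (cc t₂)‖ ≤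
      (C * T ^ β + C * R ^ (1 / (d : ℝ) - δ₁)) + R * T ^ (-A) +
      (C * T ^ β + C * R ^ (1 / (d : ℝ) - δ₁)) := by
    set x₁ := X j (cc t₁) ((Real.exp T : ℂ) * v)
    set x₂ := X j (cc t₂) ((Real.exp T : ℂ) * v)
    have h1 : (f d (cc t₁))^[n] (cc t₁) - (f d (cc t₂))^[n] (cc t₂) =
        ((f d (cc t₁))^[n] (cc t₁) - x₁) + (x₁ - x₂) - ((f d (cc t₂))^[n] (cc t₂) - x₂) := by ring
    rw [h1]
    refine (norm_sub_le _ _).trans (add_le_add ((norm_add_le _ _).trans (add_le_add hd1 hcmp)) hd2)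
  linarith

end Pool.Agent.N253.LC
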