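import Mathlib
import Pool.Agent.N253.LC.Stm
import Pool.Agent.N253.LC.Two

/-!
# Project LC: two points of an external ray of the Multibrot set, and the level near `c₀`
-/

set_option autoImplicit false

open Set Filter Metric Topology

namespace Pool.Agent.N253.LC

open Pool.Agent.TH279.MD Pool.Agent.Y298.SH Pool.Agent.Y298.SH.CD Pool.Agent.Y298.CA
open Pool.Agent.H713R2 (IsExteriorMap IsGm)
open Pool.Agent.H712R2 (P P_lt_of_gt)

theorem t_INF (hT : S_TWO) (hL : S_LIM) (hS : S_SHAD) : S_INF := by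
  intro d χ c₀ hd hLy δ hδ hδα
  have hχ : 0 < χ := hLy.1
  have hdR : (2 : ℝ) ≤ d := by exact_mod_cast hd
  have hd0 : (0 : ℝ) < d := by linarith
  have hlogd : 0 < Real.log d := Real.log_pos (by linarith)
  obtain ⟨R₁, hR₁, HT⟩ := hT d χ c₀ hd hLy δ hδ
  obtain ⟨α, hα⟩ : ∃ α : ℝ, α = Real.log d / χ := ⟨_, rfl⟩
  rw [← hα] at hδα HT ⊢
  have hα0 : 0 < α := by rw [hα]; positivity
  have hαχ : α * χ = Real.log d := by rw [hα]; field_simp
  obtain ⟨ε, hε⟩ : ∃ x : ℝ, x = min (1 / 4) (δ / (2 * α)) := ⟨_, rfl⟩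
  have hε0 : 0 < ε := by rw [hε]; positivity
  have hε1 : ε ≤ 1 / 4 := by rw [hε]; exact min_le_left _ _
  have hε2 : α * ε ≤ δ / 2 := by
    have h1 : ε ≤ δ / (2 * α) := by rw [hε]; exact min_le_right _ _
    calc α * ε ≤ α * (δ / (2 * α)) := by gcongr
      _ = δ / 2 := by field_simp
  obtain ⟨CS, r₂, hCS, hr₂, hr₂4, HS⟩ := hS d χ c₀ hd hLy ε hε0 (by linarith)
  obtain ⟨q₁, hq₁, hq₁1, Q1⟩ := SM.small_pow (2 * Real.exp (α * CS) * 2 ^ (α * (1 - ε))) (δ / 2)
    (by linarith)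
  obtain ⟨g, hg, hlim⟩ := hL d hd
  refine ⟨min (R₁ / 2) (min (r₂ / 2) q₁), by positivity, ?_⟩
  intro ψ hψ R hR hRR u hu
  have hRa : R ≤ R₁ / 2 := hRR.trans (min_le_left _ _)
  have hRb : R ≤ r₂ / 2 := hRR.trans ((min_le_right _ _).trans (min_le_left _ _))
  have hRc : R ≤ q₁ := hRR.trans ((min_le_right _ _).trans (min_le_right _ _))
  have hRlt : R < 1 := lt_of_le_of_lt hRc hq₁1
  have hpow : Tendsto (fun m : ℕ => (d : ℝ) ^ m) (hyperfilter ℕ : Filter ℕ) atTop :=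
    (tendsto_pow_atTop_atTop_of_one_lt (by linarith)).mono_left Nat.hyperfilter_le_atTop
  have hge : ∀ m₀ : ℕ, ∀ᶠ m in (hyperfilter ℕ : Filter ℕ), m₀ ≤ m := fun m₀ =>
    Nat.hyperfilter_le_atTop (eventually_ge_atTop m₀)
  have hfour : ∀ t : ℝ, 0 < t → ∀ᶠ m in (hyperfilter ℕ : Filter ℕ),
      4 ≤ Real.exp ((d : ℝ) ^ m * t) := by
    intro t ht
    have h1 : Tendsto (fun m : ℕ => Real.exp ((d : ℝ) ^ m * t)) (hyperfilter ℕ : Filter ℕ) atTop :=
      Real.tendsto_exp_atTop.comp (hpow.atTop_mul_const ht)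
    exact h1.eventually_ge_atTop 4
  have hgt : ∀ t : ℝ, 0 < t → 1 < ‖(Real.exp t : ℂ) * u‖ := by
    intro t ht
    rw [norm_exp_mul t hu]
    exact Real.one_lt_exp_iff.mpr ht
  constructor
  · intro t ht hψt
    have h1 := hlim ψ hψ _ (hgt t ht)
    have h2 : ∀ᶠ m in (hyperfilter ℕ : Filter ℕ),
        ‖(Real.exp t : ℂ) * u * g m ((Real.exp t : ℂ) * u)⁻¹ - c₀‖ < 2 * R := by
      have h3 := (h1.sub_const c₀).norm
      exact h3.eventually_lt_const (by linarith)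
    obtain ⟨n, hn1, hn2, -, -⟩ := HS (2 * R) (by linarith) (by linarith)
    obtain ⟨m, hm⟩ := (h2.and ((hge n).and (hfour t ht))).exists
    obtain ⟨hm1, hm2, hm3⟩ := hm
    obtain ⟨c, hc⟩ : ∃ c : ℂ, c = (Real.exp t : ℂ) * u * g m ((Real.exp t : ℂ) * u)⁻¹ := ⟨_, rfl⟩
    rw [← hc] at hm1
    have h4 : ∀ j ≤ n, ‖(f d c)^[j] c‖ ≤ 3 := hn2 c c hm1.le (by simp; linarith)
    have h5 : ‖P d (n + 1) c‖ ≤ 3 := by
      rw [P_succ_eq hd]
      exact h4 n le_rfl
    have h6 : ‖c‖ ≤ 3 := h4 0 (Nat.zero_le _)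
    have h7 := Pool.Agent.H713R2.up_growth hd (by norm_num : (2 : ℝ) ≤ 3) h6 h5 (m - n)
    rw [show n + 1 + (m - n) = m + 1 by omega] at h7
    have h8 := (gm_point hd (hg m) hu hm3).2
    rw [← hc] at h8
    rw [h8, norm_pow, norm_exp_mul t hu, ← Real.exp_nat_mul] at h7
    have h9 : Real.exp (((d ^ m : ℕ) : ℝ) * t) ≤ Real.exp (((d ^ (m - n) : ℕ) : ℝ) * 2) := by
      refine h7.trans ((sub_le_self _ zero_le_one).trans ?_)
      rw [Real.exp_nat_mul]
      have h10 : (3 : ℝ) + 1 ≤ Real.exp 2 := by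
        have h5 : Real.exp 2 = Real.exp 1 * Real.exp 1 := by rw [← Real.exp_add]; norm_num
        nlinarith [Real.exp_one_gt_d9]
      exact pow_le_pow_left₀ (by norm_num) h10 _
    rw [Real.exp_le_exp] at h9
    push_cast at h9
    have hdm : (d : ℝ) ^ m = (d : ℝ) ^ (m - n) * (d : ℝ) ^ n := by
      rw [← pow_add]; congr 1; omega
    have hpos : (0 : ℝ) < (d : ℝ) ^ (m - n) := by positivity
    have h11 : (d : ℝ) ^ n * t ≤ 2 := by
      rw [hdm, mul_assoc] at h9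
      exact le_of_mul_le_mul_left h9 hpos
    have hdn : (d : ℝ) ^ n = Real.exp (α * (n * χ)) := by
      rw [← Real.rpow_natCast, Real.rpow_def_of_pos hd0]
      congr 1
      rw [← hαχ]; ring
    have hσ : 0 < 2 * R := by linarith
    have hlogR : Real.log (1 / (2 * R)) = - Real.log (2 * R) := by rw [one_div, Real.log_inv]
    have hdn_lo : 1 ≤ Real.exp (α * CS) * (2 * R) ^ (α * (1 - ε)) * (d : ℝ) ^ n := by
      have h1 := (abs_le.mp hn1).1
      rw [hdn, Real.rpow_def_of_pos hσ, ← Real.exp_add, ← Real.exp_add, Real.one_le_exp_iff]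
      rw [hlogR] at h1
      have h2 : 0 ≤ n * χ - (1 - ε) * -Real.log (2 * R) + CS := by linarith
      have := mul_nonneg hα0.le h2
      linarith
    have hB : 0 < Real.exp (α * CS) * (2 * R) ^ (α * (1 - ε)) := by positivity
    calc t = 1 * t := (one_mul t).symm
      _ ≤ (Real.exp (α * CS) * (2 * R) ^ (α * (1 - ε)) * (d : ℝ) ^ n) * t := by gcongr
      _ = (Real.exp (α * CS) * (2 * R) ^ (α * (1 - ε))) * ((d : ℝ) ^ n * t) := by ring
      _ ≤ (Real.exp (α * CS) * (2 * R) ^ (α * (1 - ε))) * 2 := by gcongr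
      _ = 2 * Real.exp (α * CS) * 2 ^ (α * (1 - ε)) * R ^ (α * (1 - ε)) := by
          rw [Real.mul_rpow (by norm_num) hR.le]; ring
      _ ≤ 2 * Real.exp (α * CS) * 2 ^ (α * (1 - ε)) * R ^ (δ / 2 + (α - δ)) := by
          refine mul_le_mul_of_nonneg_left ?_ (by positivity)
          apply Real.rpow_le_rpow_of_exponent_ge hR hRlt.le
          linarith
      _ = (2 * Real.exp (α * CS) * 2 ^ (α * (1 - ε)) * R ^ (δ / 2)) * R ^ (α - δ) := by
          rw [Real.rpow_add hR]; ring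
      _ ≤ 1 * R ^ (α - δ) := by
          have := Real.rpow_nonneg hR.le (α - δ)
          have := Q1 R hR hRc
          gcongr
      _ = R ^ (α - δ) := one_mul _
  · intro t₁ t₂ ht₁ ht₂ h1 h2 h12
    obtain ⟨m₀, HT'⟩ := HT (3 / 2 * R) (by linarith) (by linarith)
    have l1 := hlim ψ hψ _ (hgt t₁ ht₁)
    have l2 := hlim ψ hψ _ (hgt t₂ ht₂)
    have e1 := (l1.sub_const c₀).norm.eventually_lt_const (u := 3 / 2 * R) (by linarith)
    have e2 := (l2.sub_const c₀).norm.eventually_lt_const (u := 3 / 2 * R) (by linarith)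
    have e3 := (l1.sub l2).norm.eventually_const_lt (u := 3 / 2 * R / 8) (by linarith)
    obtain ⟨m, hm⟩ := (e1.and (e2.and (e3.and ((hge m₀).and
      ((hfour t₁ ht₁).and (hfour t₂ ht₂)))))).exists
    obtain ⟨hm1, hm2, hm3, hm4, hm5, hm6⟩ := hm
    have := HT' m hm4 (g m) u (hg m) hu t₁ t₂ hm5 hm6 hm1.le hm2.le hm3.le
    refine le_trans ?_ this
    exact Real.rpow_le_rpow hR.le (by linarith) (by linarith)

end Pool.Agent.N253.LC
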