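import Pool.Agent.N253.LC.Stm

/-!
# A curve with a bound for the derivative outside of some intervals (helper73)
-/

set_option autoImplicit false
open Set Filter Metric Topology
namespace Pool.Agent.N253.LC

/-- the mean value inequality on an open interval -/
theorem int_base {Y : ℝ → ℂ} {a b K β : ℝ} (ha : 0 < a) (hab : a ≤ b) (hβ : 0 < β)
    (hY : ContinuousOn Y (Icc a b))
    (hd : ∀ t ∈ Ioo a b, ∃ y' : ℂ, HasDerivAt Y y' t ∧ ‖y'‖ ≤ K * t ^ (β - 1)) :
    ‖Y a - Y b‖ ≤ K / β * b ^ β - K / β * a ^ β := by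
  rcases hab.eq_or_lt with rfl | hlt
  · simp
  have hφ : ContinuousOn (fun t : ℝ => K / β * t ^ β) (Icc a b) := by
    refine ContinuousOn.mul continuousOn_const ?_
    intro t ht
    exact (Real.continuousAt_rpow_const t β (Or.inl (ha.trans_le ht.1).ne')).continuousWithinAt
  have h1 : ∀ x ∈ Ioo a b, ‖Y b - Y x‖ ≤ K / β * b ^ β - K / β * x ^ β := by
    intro x hx
    have hsub : Icc x b ⊆ Icc a b := Icc_subset_Icc_left hx.1.le
    have hd' : ∀ t ∈ Ico x b, ∃ y' : ℂ, HasDerivAt Y y' t ∧ ‖y'‖ ≤ K * t ^ (β - 1) :=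
      fun t ht => hd t ⟨hx.1.trans_le ht.1, ht.2⟩
    classical
    let Y' : ℝ → ℂ := fun t => if h : t ∈ Ico x b then (hd' t h).choose else 0
    have hY' : ∀ t ∈ Ico x b, HasDerivAt Y (Y' t) t ∧ ‖Y' t‖ ≤ K * t ^ (β - 1) := by
      intro t ht
      have e : Y' t = (hd' t ht).choose := dif_pos ht
      rw [e]
      exact (hd' t ht).choose_spec
    refine image_norm_le_of_norm_deriv_right_le_deriv_boundary' (f := fun t => Y t - Y x)
      (f' := Y') (B := fun t => K / β * t ^ β - K / β * x ^ β) (B' := fun t => K * t ^ (β - 1))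
      ((hY.mono hsub).sub continuousOn_const) ?_ ?_ ((hφ.mono hsub).sub continuousOn_const) ?_ ?_
      (right_mem_Icc.2 hx.2.le)
    · intro t ht
      exact ((hY' t ht).1.sub_const _).hasDerivWithinAt
    · simp
    · intro t ht
      have ht0 : 0 < t := (ha.trans hx.1).trans_le ht.1
      have h2 := ((Real.hasDerivAt_rpow_const (x := t) (p := β) (Or.inl ht0.ne')).const_mul
        (K / β)).sub_const (K / β * x ^ β)
      refine (h2.congr_deriv ?_).hasDerivWithinAt
      field_simp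
    · intro t ht
      exact (hY' t ht).2
  have h2 : ‖Y b - Y a‖ ≤ K / β * b ^ β - K / β * a ^ β := by
    have hcl : a ∈ closure (Ioo a b) := by
      rw [closure_Ioo hlt.ne]
      exact left_mem_Icc.2 hab
    refine ContinuousWithinAt.closure_le (f := fun x => ‖Y b - Y x‖)
      (g := fun x => K / β * b ^ β - K / β * x ^ β) hcl ?_ ?_ h1
    · have h3 := (hY a (left_mem_Icc.2 hab)).mono (Ioo_subset_Icc_self (a := a) (b := b))
      exact (continuousWithinAt_const.sub h3).norm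
    · have h3 := (hφ a (left_mem_Icc.2 hab)).mono (Ioo_subset_Icc_self (a := a) (b := b))
      exact continuousWithinAt_const.sub h3
  rwa [norm_sub_rev]

theorem int_key {Y : ℝ → ℂ} {a b K β : ℝ} {p q e : ℕ → ℝ} (ha : 0 < a) (hK : 0 ≤ K)
    (hβ : 0 < β) (hY : ContinuousOn Y (Icc a b)) (he : ∀ i, 0 ≤ e i) (J : Finset ℕ) :
    (∀ i ∈ J, ∀ t ∈ Icc (p i) (q i), ∀ t' ∈ Icc (p i) (q i), t ∈ Icc a b → t' ∈ Icc a b →
      ‖Y t - Y t'‖ ≤ e i) → ∀ a' b', a ≤ a' → a' ≤ b' → b' ≤ b →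
    (∀ t ∈ Ioo a' b', (∀ i ∈ J, t ∉ Icc (p i) (q i)) →
      ∃ y' : ℂ, HasDerivAt Y y' t ∧ ‖y'‖ ≤ K * t ^ (β - 1)) →
    ‖Y a' - Y b'‖ ≤ K / β * b' ^ β - K / β * a' ^ β + ∑ i ∈ J, e i := by
  induction J using Finset.strongInduction with
  | H J ih =>
  intro hJ a' b' haa hab hbb hd
  classical
  have hφ : ∀ {s t : ℝ}, 0 < s → s ≤ t → K / β * s ^ β ≤ K / β * t ^ β := fun hs hst =>
    mul_le_mul_of_nonneg_left (Real.rpow_le_rpow hs.le hst hβ.le) (div_nonneg hK hβ.le)
  have ha' : 0 < a' := ha.trans_le haa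
  by_cases hne : (J.filter fun i => (Icc (p i) (q i) ∩ Ioo a' b').Nonempty).Nonempty
  · obtain ⟨i, hi, hmax⟩ := Finset.exists_max_image _ (fun i => min (q i) b') hne
    rw [Finset.mem_filter] at hi
    obtain ⟨hiJ, t₀, ⟨h1, h2⟩, h3, h4⟩ := hi
    set q' := min (q i) b' with hq'
    set p' := max (p i) a' with hp'
    have hp1 : p' ≤ t₀ := max_le h1 h3.le
    have hq1 : t₀ ≤ q' := le_min h2 h4.le
    have hap : a' ≤ p' := le_max_right _ _
    have hqb : q' ≤ b' := min_le_right _ _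
    have k1 : ‖Y q' - Y b'‖ ≤ K / β * b' ^ β - K / β * q' ^ β := by
      refine int_base (ha'.trans_le (hap.trans (hp1.trans hq1))) hqb hβ
        (hY.mono (Icc_subset_Icc (haa.trans (hap.trans (hp1.trans hq1))) hbb)) fun t ht => ?_
      have ht' : t ∈ Ioo a' b' := ⟨(hap.trans (hp1.trans hq1)).trans_lt ht.1, ht.2⟩
      refine hd t ht' fun k hk hmem => ?_
      have h5 := hmax k (Finset.mem_filter.2 ⟨hk, t, hmem, ht'⟩)
      have h6 : t ≤ min (q k) b' := le_min hmem.2 ht.2.le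
      exact absurd (h6.trans h5) (not_le.2 ht.1)
    have k2 : ‖Y p' - Y q'‖ ≤ e i := by
      refine hJ i hiJ p' ⟨le_max_left _ _, hp1.trans h2⟩ q' ⟨h1.trans hq1, min_le_left _ _⟩ ?_ ?_
      · exact ⟨haa.trans hap, (hp1.trans (hq1.trans hqb)).trans hbb⟩
      · exact ⟨haa.trans (hap.trans (hp1.trans hq1)), hqb.trans hbb⟩
    have k3 := ih (J.erase i) (Finset.erase_ssubset hiJ)
      (fun k hk => hJ k (Finset.mem_of_mem_erase hk)) a' p' haa hap
      ((hp1.trans (hq1.trans hqb)).trans hbb) (fun t ht hk => by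
        refine hd t ⟨ht.1, ht.2.trans_le (hp1.trans (hq1.trans hqb))⟩ fun k hkJ => ?_
        by_cases hki : k = i
        · subst hki
          rintro ⟨h5, -⟩
          rcases lt_max_iff.1 ht.2 with h6 | h6
          · exact absurd h5 (not_le.2 h6)
          · exact absurd ht.1 (not_lt.2 h6.le)
        · exact hk k (Finset.mem_erase.2 ⟨hki, hkJ⟩))
    have k4 := Finset.add_sum_erase J e hiJ
    have k5 := hφ (ha'.trans_le hap) (hp1.trans hq1)
    have k6 : ‖Y a' - Y b'‖ ≤ ‖Y a' - Y p'‖ + ‖Y p' - Y q'‖ + ‖Y q' - Y b'‖ := by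
      have e1 : Y a' - Y b' = (Y a' - Y p') + (Y p' - Y q') + (Y q' - Y b') := by ring
      rw [e1]
      exact norm_add₃_le
    linarith
  · have h1 := int_base (ha'.trans_le le_rfl) hab hβ (hY.mono (Icc_subset_Icc haa hbb))
      (K := K) fun t ht => hd t ht fun i hi hmem =>
        hne ⟨i, Finset.mem_filter.2 ⟨hi, t, hmem, ht⟩⟩
    have h2 : 0 ≤ ∑ i ∈ J, e i := Finset.sum_nonneg fun i _ => he i
    linarith

theorem t_INT : S_INT := by
  intro Y a b K β N p q e ha hab hK hβ _ hY he hJ hd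
  have h := int_key ha hK hβ hY he (Finset.range N) (fun i hi => hJ i (Finset.mem_range.1 hi))
    a b le_rfl hab le_rfl (fun t ht hk => hd t ht fun i hi => hk i (Finset.mem_range.2 hi))
  have h2 : 0 ≤ K / β * a ^ β := mul_nonneg (div_nonneg hK hβ.le) (Real.rpow_nonneg ha.le _)
  linarith

end Pool.Agent.N253.LC
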