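import Pool.Agent.N253.LC.Stm

/-!
# Project LC, piece LIM (helper216): the exterior map is a limit

The existence of the limit map is `Pool.Agent.H713R2.exists_beta` (starting library); its proof is
repeated here in order to keep the sequence.
-/

set_option autoImplicit false

namespace Pool.Agent.N253.LC

namespace LimP

open Complex Set Topology Filter Metric Asymptotics N62a1eb23
open Pool.Agent.H712R2 Pool.Agent.H713R2

theorem exists_beta_lim {d : ℕ} (hd : 2 ≤ d) : ∃ (g : ℕ → ℂ → ℂ) (β : ℂ → ℂ),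
    (∀ m, IsGm d m (g m)) ∧ IsBeta d β ∧ TendstoLocallyUniformlyOn
      (fun (m : ℕ) (x : ℂ) => g m (rad d m * x)) β (hyperfilter ℕ : Filter ℕ) (ball 0 1) := by
  classical
  choose g hg using exists_gm hd
  have hr0 := rad_pos d
  have hr1 := rad_lt_one hd
  set F : ℕ → ℂ → ℂ := fun m x => g m (rad d m * x) with hF
  have hmem : ∀ m, ∀ x ∈ ball (0 : ℂ) 1, (rad d m : ℂ) * x ∈ ball (0 : ℂ) (rad d m) := by
    intro m x hx
    rw [mem_ball_zero_iff] at hx ⊢
    rw [norm_mul, Complex.norm_real, Real.norm_eq_abs, abs_of_pos (hr0 m)]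
    nlinarith [hr0 m]
  have hrC : ∀ m, (rad d m : ℂ) ≠ 0 := fun m => by exact_mod_cast (hr0 m).ne'
  have hFd : ∀ m, DifferentiableOn ℂ (F m) (ball 0 1) := by
    intro m x hx
    apply DifferentiableAt.differentiableWithinAt
    have h1 : DifferentiableAt ℂ (g m) (rad d m * x) :=
      (hg m).diff.differentiableAt (isOpen_ball.mem_nhds (hmem m x hx))
    have h2 : DifferentiableAt ℂ (fun x : ℂ => rad d m * x) x := by fun_prop
    exact h1.comp x h2
  have hFb : ∀ m, ∀ x ∈ ball (0 : ℂ) 1, ‖F m x‖ ≤ 2 := fun m x hx => (hg m).bound _ (hmem m x hx)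
  set 𝒰 : Ultrafilter ℕ := hyperfilter ℕ with h𝒰
  have hle : (𝒰 : Filter ℕ) ≤ atTop := Nat.hyperfilter_le_atTop
  obtain ⟨β, hβd, hβ⟩ := Pool.Agent.Helper114.Montel.montel isOpen_ball F hFd 2 hFb 𝒰
  have hpt : ∀ x ∈ ball (0 : ℂ) 1, Tendsto (fun m => F m x) 𝒰 (𝓝 (β x)) := fun x hx =>
    hβ.tendsto_at hx
  have hrt : Tendsto (fun m => (rad d m : ℂ)) 𝒰 (𝓝 1) := by
    have := (Complex.continuous_ofReal.tendsto 1).comp ((rad_tendsto hd).mono_left hle)
    simpa using! this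
  have hβ0 : β 0 = 1 := by
    have h1 := hpt 0 (mem_ball_self one_pos)
    have h2 : (fun m => F m 0) = fun _ => (1 : ℂ) := by
      funext m; simp [hF, (hg m).zero]
    rw [h2] at h1
    exact (tendsto_nhds_unique h1 tendsto_const_nhds)
  have hβc : ∀ x ∈ ball (0 : ℂ) 1, ContinuousAt β x := fun x hx =>
    (hβd.differentiableAt (isOpen_ball.mem_nhds hx)).continuousAt
  refine ⟨g, β, hg, ⟨hβd, hβ0, ?_, ?_, ?_, ?_, ?_⟩, hβ⟩
  · -- bound
    intro x hx
    exact le_of_tendsto (hpt x hx).norm (Eventually.of_forall fun m => hFb m x hx)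
  · -- injectivity
    intro x hx y hy hx0 hy0 hxy
    by_contra hne
    set c : ℂ := x⁻¹ * β x with hc
    have hlim : TendstoLocallyUniformlyOn (fun m z => F m z - c * z) (fun z => β z - c * z)
        (𝒰 : Filter ℕ) (ball 0 1) := by
      rw [Metric.tendstoLocallyUniformlyOn_iff] at hβ ⊢
      intro ε hε z hz
      obtain ⟨t, ht, h⟩ := hβ ε hε z hz
      refine ⟨t, ht, ?_⟩
      filter_upwards [h] with m hm w hw
      rw [dist_sub_right]
      exact hm w hw
    have hGd : ∀ m, DifferentiableOn ℂ (fun z => F m z - c * z) (ball 0 1) := fun m =>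
      (hFd m).sub (by fun_prop)
    have hβGd : DifferentiableOn ℂ (fun z => β z - c * z) (ball 0 1) := hβd.sub (by fun_prop)
    have hnc : ∀ z ∈ ball (0 : ℂ) 1, β z - c * z = 0 →
        ¬ ∀ᶠ w in 𝓝 z, (fun z => β z - c * z) w = (fun z => β z - c * z) z := by
      intro z hz hz0 hev
      have h1 : EqOn (fun z => β z - c * z) (fun _ => (0 : ℂ)) (ball 0 1) := by
        refine (hβGd.analyticOnNhd isOpen_ball).eqOn_of_preconnected_of_eventuallyEq
          (fun _ _ => analyticAt_const) (convex_ball 0 1).isPreconnected hz ?_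
        filter_upwards [hev] with w hw
        rw [hw]
        exact hz0
      have h2 := h1 (mem_ball_self one_pos)
      simp [hβ0] at h2
    have hx' : β x - c * x = 0 := by rw [hc]; field_simp; ring
    have hy' : β y - c * y = 0 := by rw [hxy]; field_simp; ring
    obtain ⟨Bx, hBx, By, hBy, hdisj⟩ := t2_separation_nhds hne |> fun ⟨u, v, hu, hv, huv⟩ =>
      (⟨u, hu, v, hv, huv⟩ : ∃ u ∈ 𝓝 x, ∃ v ∈ 𝓝 y, Disjoint u v)
    have hx1 : {z : ℂ | z ≠ 0} ∈ 𝓝 x := isOpen_ne.mem_nhds hx0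
    have hy1 : {z : ℂ | z ≠ 0} ∈ 𝓝 y := isOpen_ne.mem_nhds hy0
    obtain ⟨Vx, hVx, hex⟩ := Pool.Agent.Helper114.Montel.hurwitz_cover isOpen_ball _ _ hGd hlim hx
      (hnc x hx hx') (inter_mem hBx (inter_mem hx1 (isOpen_ball.mem_nhds hx)))
    obtain ⟨Vy, hVy, hey⟩ := Pool.Agent.Helper114.Montel.hurwitz_cover isOpen_ball _ _ hGd hlim hy
      (hnc y hy hy') (inter_mem hBy (inter_mem hy1 (isOpen_ball.mem_nhds hy)))
    obtain ⟨m, hmx, hmy⟩ := (hex.and hey).exists
    simp only [hx'] at hVx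
    simp only [hy'] at hVy
    obtain ⟨x', ⟨hx'1, hx'2, hx'3⟩, hx'4⟩ := hmx (mem_of_mem_nhds hVx)
    obtain ⟨y', ⟨hy'1, hy'2, hy'3⟩, hy'4⟩ := hmy (mem_of_mem_nhds hVy)
    have hx'5 : x' ≠ 0 := hx'2
    have hy'5 : y' ≠ 0 := hy'2
    have key : ∀ z : ℂ, z ≠ 0 → F m z - c * z = 0 →
        (rad d m * z)⁻¹ * g m (rad d m * z) = (rad d m : ℂ)⁻¹ * c := by
      intro z hz h
      have h1 : g m (rad d m * z) = c * z := by
        have : F m z = c * z := by linear_combination h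
        exact this
      rw [h1, mul_inv]
      field_simp
    have h1 := (hg m).inj _ (hmem m x' hx'3) _ (hmem m y' hy'3)
      (mul_ne_zero (hrC m) hx'5) (mul_ne_zero (hrC m) hy'5)
      (by rw [key x' hx'5 hx'4, key y' hy'5 hy'4])
    have h2 := mul_left_cancel₀ (hrC m) h1
    subst h2
    exact (Set.disjoint_left.mp hdisj) hx'1 hy'1
  · -- surjectivity
    intro c hc
    obtain ⟨m0, hm0⟩ := exists_escape hd hc
    have hex : ∀ m, m0 ≤ m → ∃ x, x ∈ ball (0 : ℂ) (rad d m) ∧ x ≠ 0 ∧ x⁻¹ * g m x = c ∧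
        ‖x‖ ≤ rad d m0 := by
      intro m hm
      obtain ⟨j, rfl⟩ := Nat.exists_eq_add_of_le hm
      have h1 := hm0 j
      have h2 : (2 : ℝ) ≤ 2 ^ (d ^ j) := le_self_pow₀ (by norm_num) (pow_ne_zero _ (by omega))
      have h3 : c ∈ Om d (m0 + j) := by
        change 2 < ‖P d (m0 + j + 1) c‖
        linarith
      obtain ⟨x, hx, hx0, hxc⟩ := (hg (m0 + j)).surj c h3
      refine ⟨x, hx, hx0, hxc, ?_⟩
      have h4 := (hg (m0 + j)).eq x hx hx0
      rw [hxc] at h4
      rw [h4, norm_pow, norm_inv, inv_pow] at h1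
      have hxp : 0 < ‖x‖ := norm_pos_iff.mpr hx0
      have h5 : (‖x‖ ^ (d ^ m0)) ^ (d ^ j) ≤ (1 / 2) ^ (d ^ j) := by
        rw [← pow_mul, ← pow_add, one_div, inv_pow]
        rw [le_inv_comm₀ (by positivity) (by positivity)]
        linarith
      have h6 : ‖x‖ ^ (d ^ m0) ≤ 1 / 2 :=
        (pow_le_pow_iff_left₀ (by positivity) (by norm_num) (pow_ne_zero _ (by omega))).mp h5
      rw [← rad_pow hd m0] at h6
      exact (pow_le_pow_iff_left₀ (norm_nonneg _) (hr0 m0).le (pow_ne_zero _ (by omega))).mp h6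
    choose! X hX1 hX2 hX3 hX4 using hex
    have hmev : ∀ᶠ m in (𝒰 : Filter ℕ), m0 ≤ m := hle (eventually_ge_atTop m0)
    obtain ⟨x, hx, hxl⟩ := (isCompact_closedBall (0 : ℂ) (rad d m0)).ultrafilter_le_nhds
      (𝒰.map X) (by
        rw [le_principal_iff, Ultrafilter.coe_map, Filter.mem_map]
        filter_upwards [hmev] with m hm
        rw [mem_preimage, mem_closedBall_zero_iff]
        exact hX4 m hm)
    have hxt : Tendsto X 𝒰 (𝓝 x) := hxl
    have hx1 : x ∈ ball (0 : ℂ) 1 := by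
      rw [mem_ball_zero_iff]
      exact (mem_closedBall_zero_iff.mp hx).trans_lt (hr1 m0)
    have hyt : Tendsto (fun m => (rad d m : ℂ)⁻¹ * X m) 𝒰 (𝓝 x) := by
      have := (hrt.inv₀ one_ne_zero).mul hxt
      simpa using this
    have h1 : Tendsto (fun m => F m ((rad d m : ℂ)⁻¹ * X m)) 𝒰 (𝓝 (β x)) := by
      apply hβ.tendsto_comp (hβc x hx1).continuousWithinAt hx1
      rw [tendsto_nhdsWithin_iff]
      exact ⟨hyt, hyt (isOpen_ball.mem_nhds hx1)⟩
    have h2 : Tendsto (fun m => c * X m) 𝒰 (𝓝 (c * x)) := hxt.const_mul c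
    have h3 : β x = c * x := by
      refine tendsto_nhds_unique h1 (h2.congr' ?_)
      filter_upwards [hmev] with m hm
      simp only [hF]
      rw [mul_inv_cancel_left₀ (hrC m), ← hX3 m hm]
      have := hX2 m hm
      field_simp
    have hx0 : x ≠ 0 := by
      rintro rfl
      rw [hβ0, mul_zero] at h3
      exact one_ne_zero h3
    exact ⟨x, hx1, hx0, by rw [h3]; field_simp⟩
  · -- the image avoids the Multibrot set
    intro x hx hx0 hM
    set c : ℂ := x⁻¹ * β x with hc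
    have hM2 := (mem_multibrot_iff hd c).mp hM
    have hxp : 0 < ‖x‖ := norm_pos_iff.mpr hx0
    have hx1 : ‖x‖ < 1 := mem_ball_zero_iff.mp hx
    have hct : Tendsto (fun m => (rad d m * x)⁻¹ * F m x) 𝒰 (𝓝 c) := by
      have h1 : Tendsto (fun m => (rad d m * x)⁻¹) 𝒰 (𝓝 ((1 * x)⁻¹)) :=
        (hrt.mul_const x).inv₀ (by simpa using hx0)
      have := h1.mul (hpt x hx)
      simpa [hc] using this
    obtain ⟨n, hn⟩ : ∃ n : ℕ, 4 < ‖x‖⁻¹ ^ (d ^ n) := by
      have h1 : Tendsto (fun n : ℕ => ‖x‖⁻¹ ^ (d ^ n)) atTop atTop :=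
        (tendsto_pow_atTop_atTop_of_one_lt (one_lt_inv_iff₀.mpr ⟨hxp, hx1⟩)).comp
          (tendsto_pow_atTop_atTop_of_one_lt (by omega))
      exact (h1.eventually_gt_atTop 4).exists
    have hcb : ‖c‖ ≤ 2 := by
      have := hM2 1
      rwa [P_one hd] at this
    have h1 : ∀ᶠ m in (𝒰 : Filter ℕ), ‖(rad d m * x)⁻¹ * F m x‖ < 3 :=
      hct.norm.eventually (gt_mem_nhds (by linarith))
    have h2 : ∀ᶠ m in (𝒰 : Filter ℕ), ‖P d (n + 1) ((rad d m * x)⁻¹ * F m x)‖ < 3 := by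
      have h3 := ((continuous_P d (n + 1)).tendsto c).comp hct
      have h4 := hM2 (n + 1)
      exact h3.norm.eventually (gt_mem_nhds (by linarith))
    obtain ⟨m, h3, h4, h5⟩ := (h1.and (h2.and (hle (eventually_ge_atTop n)))).exists
    obtain ⟨j, rfl⟩ := Nat.exists_eq_add_of_le h5
    have h6 := up_growth hd (n := n + 1) (R := 3) (by norm_num) h3.le h4.le j
    have h7 := (hg (n + j)).eq _ (hmem (n + j) x hx) (mul_ne_zero (hrC _) hx0)
    have h8 : (rad d (n + j) * x)⁻¹ * F (n + j) x =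
      (rad d (n + j) * x)⁻¹ * g (n + j) (rad d (n + j) * x) := rfl
    rw [h8, show n + 1 + j = n + j + 1 by ring, h7, norm_pow, norm_inv, norm_mul,
      Complex.norm_real, Real.norm_eq_abs, abs_of_pos (hr0 _), mul_inv, mul_pow, inv_pow,
      rad_pow hd, pow_add, pow_mul] at h6
    have h9 : (4 : ℝ) ^ (d ^ j) ≤ (‖x‖⁻¹ ^ (d ^ n)) ^ (d ^ j) :=
      pow_le_pow_left₀ (by norm_num) hn.le _
    have h10 : (0 : ℝ) < 4 ^ (d ^ j) := by positivity
    rw [inv_pow, inv_pow] at h9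
    norm_num at h6
    linarith
  · -- order
    intro n
    refine ⟨(MM d n + 1) * 2 ^ (d ^ (n + 1) - 1), fun x hx => ?_⟩
    have hx1 : x ∈ ball (0 : ℂ) 1 := ball_subset_ball (by norm_num) hx
    have h1 : ∀ n, Tendsto (fun m => BB d (g m) n (rad d m * x)) 𝒰 (𝓝 (BB d β n x)) := by
      intro n
      induction n with
      | zero => exact hpt x hx1
      | succ n ih =>
        have h2 : Tendsto (fun m => (rad d m : ℂ) * x) 𝒰 (𝓝 (1 * x)) := hrt.mul_const x
        rw [one_mul] at h2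
        exact (ih.pow d).add ((h2.pow _).mul (hpt x hx1))
    refine le_of_tendsto ((h1 n).sub_const 1).norm ?_
    filter_upwards [hle (eventually_ge_atTop n)] with m hm
    have h3 : ‖(rad d m : ℂ) * x‖ ≤ ‖x‖ := by
      rw [norm_mul, Complex.norm_real, Real.norm_eq_abs, abs_of_pos (hr0 _)]
      nlinarith [hr1 m, norm_nonneg x]
    have h4 : (rad d m : ℂ) * x ∈ ball (0 : ℂ) (1 / 2) := by
      rw [mem_ball_zero_iff] at hx ⊢
      linarith
    refine (BB_unif hd (hg m) hm h4).trans ?_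
    have := MM_nonneg d n
    gcongr

end LimP

open Set Filter Metric Topology
open Pool.Agent.H713R2 (rad IsBeta IsExteriorMap IsGm)

theorem t_LIM : S_LIM := by
  intro d hd
  obtain ⟨g, β, hg, hβ, hlim⟩ := LimP.exists_beta_lim hd
  refine ⟨g, hg, fun ψ hψ w hw => ?_⟩
  rw [Pool.Agent.H713R2.exteriorMap_unique hβ hψ hw]
  refine Tendsto.const_mul w ?_
  have hw0 : w ≠ 0 := by
    rintro rfl
    rw [norm_zero] at hw
    linarith
  have hx1 : w⁻¹ ∈ ball (0 : ℂ) 1 := by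
    rw [mem_ball_zero_iff, norm_inv]
    exact inv_lt_one_of_one_lt₀ hw
  have hβc : ContinuousAt β w⁻¹ := (hβ.diff.differentiableAt (isOpen_ball.mem_nhds hx1)).continuousAt
  have hrt : Tendsto (fun m => (rad d m : ℂ)) (hyperfilter ℕ : Filter ℕ) (𝓝 1) := by
    have := (Complex.continuous_ofReal.tendsto 1).comp
      ((Pool.Agent.H713R2.rad_tendsto hd).mono_left Nat.hyperfilter_le_atTop)
    simpa using! this
  have hyt : Tendsto (fun m => (rad d m : ℂ)⁻¹ * w⁻¹) (hyperfilter ℕ : Filter ℕ) (𝓝 w⁻¹) := by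
    have := (hrt.inv₀ one_ne_zero).mul_const w⁻¹
    simpa using this
  have h1 : Tendsto (fun m => (fun (m : ℕ) (x : ℂ) => g m (rad d m * x)) m
      ((rad d m : ℂ)⁻¹ * w⁻¹)) (hyperfilter ℕ : Filter ℕ) (𝓝 (β w⁻¹)) := by
    apply hlim.tendsto_comp hβc.continuousWithinAt hx1
    rw [tendsto_nhdsWithin_iff]
    exact ⟨hyt, hyt (isOpen_ball.mem_nhds hx1)⟩
  refine h1.congr fun m => ?_
  have hrC : (rad d m : ℂ) ≠ 0 := by exact_mod_cast (Pool.Agent.H713R2.rad_pos d m).ne'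
  simp only
  rw [mul_inv_cancel_left₀ hrC]

end Pool.Agent.N253.LC
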