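import Mathlib
import Pool.Agent.N253.LC.Inf
import Pool.Agent.N253.LC.Fin
import Pool.Agent.N253.LC.Bnd2
import Pool.Agent.N253.LC.Exq
import Pool.Agent.N253.LC.Back
import Pool.Agent.N253.LC.Shad
import Pool.Agent.N253.LC.Pull
import Pool.Agent.N253.LC.Exc
import Pool.Agent.N253.LC.Der
import Pool.Agent.N253.LC.Int
import Pool.Agent.N253.LC.Cmp
import Pool.Agent.N253.LC.Coord
import Pool.Agent.N253.LC.Lim
import Pool.Agent.N253.LC.Continuum
import Pool.Agent.N253.LC.Koe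
import Pool.Agent.N253.LC.Harm
import Pool.Agent.N253.SM.Fin
import Pool.Agent.N253.SM.Bnd
import Pool.Agent.N253.SM.Free
import Pool.Agent.N253.SM.Exp
import Pool.Agent.N253.MS.Ex

/-!
# Project LC: assembly
-/

set_option autoImplicit false

open Set Filter Metric Topology MeasureTheory

namespace Pool.Agent.N253.LC

open Pool.Agent.TH279.MD Pool.Agent.Y298.SH Pool.Agent.Y298.SH.CD Pool.Agent.Y298.CA
open Pool.Agent.H713R2 (IsExteriorMap IsGm)

theorem inf_all : S_INF := by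
  have hE : SM.S_EXP := SM.t_EXP SM.t_FREE SM.t_BND
  have hQ : S_EXQ := t_EXQ SM.t_FREE t_BND2 hE
  have hP : S_PULL := t_PULL hQ t_BACK
  have hX : S_EXC := t_EXC t_SHAD
  have hD : S_DISP := t_DISP hQ hP hX t_DER t_INT
  have hC : S_CMP := t_CMP t_SHAD hQ t_BACK
  exact t_INF (t_TWO hD hC t_COORD t_SHAD) t_LIM t_SHAD

/-- `c₀` is not an interior point of the Multibrot set. -/
theorem mem_closure_compl {d : ℕ} {χ : ℝ} {c₀ : ℂ} (hd : 2 ≤ d) (hL : Lyap d χ c₀) :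
    c₀ ∈ closure (N62a1eb23.multibrotSet d)ᶜ := by
  have hdR : (2 : ℝ) ≤ d := by exact_mod_cast hd
  obtain ⟨C, hC, H⟩ := (scal_all hd hL).dens 1 zero_le_one (by
    rw [lt_div_iff₀ (by linarith)]; linarith)
  rw [Metric.mem_closure_iff]
  intro η hη
  by_contra hcon
  push Not at hcon
  obtain ⟨c, hc⟩ : ∃ c : ℂ, c = c₀ + ((η / (2 * (1 + C)) : ℝ) : ℂ) := ⟨_, rfl⟩
  have hx : 0 < η / (2 * (1 + C)) := by positivity
  have h1 : ‖c - c₀‖ = η / (2 * (1 + C)) := by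
    rw [hc, add_sub_cancel_left, Complex.norm_real, Real.norm_of_nonneg hx.le]
  have hxη : η / (2 * (1 + C)) < η := by
    rw [div_lt_iff₀ (by positivity)]
    nlinarith
  have h2 : c ∈ N62a1eb23.multibrotSet d := by
    by_contra hh
    have := hcon c hh
    rw [dist_eq_norm, norm_sub_rev, h1] at this
    linarith
  obtain ⟨-, c', h3, h4⟩ := H c h2 (by
    intro hh
    rw [hh, sub_self, norm_zero] at h1
    linarith)
  rw [Real.rpow_one, h1] at h3
  have h5 := hcon c' h4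
  rw [dist_eq_norm, norm_sub_rev] at h5
  have h6 : ‖c' - c₀‖ ≤ ‖c' - c‖ + ‖c - c₀‖ := by
    have := norm_add_le (c' - c) (c - c₀)
    rwa [sub_add_sub_cancel] at this
  have h7 : C * (η / (2 * (1 + C))) + η / (2 * (1 + C)) = η / 2 := by
    field_simp
    ring
  linarith

theorem all {d : ℕ} {χ : ℝ} {c₀ : ℂ} {ψ : ℂ → ℂ} (hd : 2 ≤ d) (hL : Lyap d χ c₀)
    (hψ : IsExteriorMap (N62a1eb23.multibrotSet d) ψ) :
    Hyp (N62a1eb23.multibrotSet d) ψ c₀ (Real.log d / χ) := by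
  have hlogd : 0 < Real.log d := Real.log_pos (by exact_mod_cast (by omega : 1 < d))
  have hχ : 0 < χ := hL.1
  refine ⟨hψ, Pool.Agent.H712R2.isCompact_multibrot hd, hL.2.1, mem_closure_compl hd hL,
    by positivity, ?_⟩
  intro δ hδ hδα
  obtain ⟨R₀, hR₀, H⟩ := inf_all d χ c₀ hd hL δ hδ hδα
  exact ⟨R₀, hR₀, H ψ hψ⟩

namespace Hyp

variable {M : Set ℂ} {ψ : ℂ → ℂ} {c₀ : ℂ} {α : ℝ}

theorem conn' (hC : S_CON) (h : Hyp M ψ c₀ α) {ε : ℝ} (hε : 0 < ε) :
    ∃ r₀ : ℝ, 0 < r₀ ∧ ∀ r : ℝ, 0 < r → r ≤ r₀ → ∀ c ∈ M, ‖c - c₀‖ ≤ r →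
      ∃ S : Set ℂ, S ⊆ M ∧ IsCompact S ∧ IsConnected S ∧ c ∈ S ∧ c₀ ∈ S ∧
        S ⊆ closedBall c₀ (r ^ (1 - ε)) := by
  obtain ⟨r₀, hr₀, H⟩ := h.conn hC (ε := min ε (1 / 2)) (by positivity)
    (lt_of_le_of_lt (min_le_right _ _) (by norm_num))
  refine ⟨min r₀ 1, by positivity, fun r hr hrr c hc hcr => ?_⟩
  obtain ⟨S, h1, h2, h3, h4, h5, h6⟩ := H r hr (hrr.trans (min_le_left _ _)) c hc hcr
  refine ⟨S, h1, h2, h3, h4, h5, h6.trans (closedBall_subset_closedBall ?_)⟩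
  refine Real.rpow_le_rpow_of_exponent_ge hr (hrr.trans (min_le_right _ _)) ?_
  have := min_le_left ε (1 / 2)
  linarith

theorem lands (h : Hyp M ψ c₀ α) {ζ : ℂ} (hζ : ‖ζ‖ = 1)
    (hc : MapClusterPt c₀ (𝓝[{w | 1 < ‖w‖}] ζ) ψ) :
    ∃ θ : ℝ, Tendsto (fun r : ℝ => ψ (r * Complex.exp (θ * Complex.I))) (𝓝[>] 1) (𝓝 c₀) := by
  have hα := h.pos
  have hβ : 0 < 1 / α := by positivity
  refine ⟨Complex.arg ζ, ?_⟩
  have hζ' : Complex.exp (Complex.arg ζ * Complex.I) = ζ := by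
    have := Complex.norm_mul_exp_arg_mul_I ζ
    rw [hζ] at this
    simpa using this
  rw [hζ', tendsto_iff_norm_sub_tendsto_zero]
  have h1 := h.ray_upper hζ hc (δ := 1 / α / 2) (by positivity)
  have h2 : Tendsto (fun t : ℝ => ‖ψ (Real.exp t * ζ) - c₀‖) (𝓝[>] 0) (𝓝 0) := by
    refine squeeze_zero' (Eventually.of_forall fun _ => norm_nonneg _) h1 ?_
    exact (tendsto_rpow_zero (by linarith : 0 < 1 / α - 1 / α / 2)).mono_right
      nhdsWithin_le_nhds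
  have h3 : Tendsto Real.log (𝓝[>] 1) (𝓝[>] 0) := by
    rw [tendsto_nhdsWithin_iff]
    constructor
    · have := (Real.continuousAt_log one_ne_zero).tendsto
      rw [Real.log_one] at this
      exact this.mono_left nhdsWithin_le_nhds
    · filter_upwards [self_mem_nhdsWithin] with r hr
      exact Real.log_pos hr
  refine (h2.comp h3).congr' ?_
  filter_upwards [self_mem_nhdsWithin] with r hr
  have hr : 1 < r := hr
  simp only [Function.comp]
  rw [Real.exp_log (by linarith)]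

end Hyp

end Pool.Agent.N253.LC
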