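import Pool.Agent.N253.LC.Stm2
import Pool.Agent.W746.LD.Koebe

/-!
# Project LC (helper253), task DERV: the exponent of the derivative along a ray (helper519)
-/

set_option autoImplicit false

open Metric Set Filter Topology

noncomputable section

namespace Pool.Agent.N253.LC

open Pool.Agent.W746.LD

namespace Derv

/-- the point of level `t` -/
def zt (u : ℂ) (t : ℝ) : ℂ := Real.exp t * u

lemma norm_zt (u : ℂ) (hu : ‖u‖ = 1) (t : ℝ) : ‖zt u t‖ = Real.exp t := by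
  unfold zt
  rw [norm_mul, hu, mul_one, Complex.norm_real, Real.norm_eq_abs, abs_of_pos (Real.exp_pos t)]

lemma ball_sub (u : ℂ) (hu : ‖u‖ = 1) (t : ℝ) : ball (zt u t) t ⊆ {z | 1 < ‖z‖} := by
  intro y hy
  rw [mem_ball, dist_eq_norm] at hy
  have h1 : ‖zt u t‖ ≤ ‖y - zt u t‖ + ‖y‖ := by
    have h : zt u t = -(y - zt u t) + y := by ring
    calc ‖zt u t‖ = ‖-(y - zt u t) + y‖ := by rw [← h]
      _ ≤ ‖-(y - zt u t)‖ + ‖y‖ := norm_add_le _ _
      _ = _ := by rw [norm_neg]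
  rw [norm_zt u hu] at h1
  have h2 := Real.add_one_le_exp t
  show 1 < ‖y‖
  linarith

lemma univ_zt {ψ : ℂ → ℂ} (hψ : DifferentiableOn ℂ ψ {z | 1 < ‖z‖}) (hinj : InjOn ψ {z | 1 < ‖z‖})
    (u : ℂ) (hu : ‖u‖ = 1) (t : ℝ) : Univ ψ (zt u t) t :=
  ⟨hψ.mono (ball_sub u hu t), hinj.mono (ball_sub u hu t)⟩

lemma exp_le_three {t : ℝ} (ht : t ≤ 1) : Real.exp t ≤ 3 := by
  have h1 := Real.exp_le_exp.2 ht
  have h2 := Real.exp_one_lt_d9
  linarith

/-- one step -/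
lemma step {C0 c0 : ℝ} (K : KC C0 c0) {ψ : ℂ → ℂ} (hψ : DifferentiableOn ℂ ψ {z | 1 < ‖z‖})
    (hinj : InjOn ψ {z | 1 < ‖z‖}) (u : ℂ) (hu : ‖u‖ = 1) (t s : ℝ) (ht : 0 < t) (ht1 : t ≤ 1)
    (hts : t ≤ s) (hst : s ≤ t * (1 + 1 / 32)) :
    ‖deriv ψ (zt u s)‖ ≤ C0 * ‖deriv ψ (zt u t)‖ := by
  refine (K.kdist ψ (zt u t) t ht (univ_zt hψ hinj u hu t) (zt u s) ?_).1
  have e : zt u s - zt u t = ((Real.exp s - Real.exp t : ℝ) : ℂ) * u := by
    unfold zt
    push_cast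
    ring
  rw [e, norm_mul, hu, mul_one, Complex.norm_real, Real.norm_eq_abs,
    abs_of_nonneg (sub_nonneg.2 (Real.exp_le_exp.2 hts))]
  have e2 : Real.exp s - Real.exp t = Real.exp t * (Real.exp (s - t) - 1) := by
    rw [mul_sub, ← Real.exp_add]
    ring_nf
  rw [e2]
  have h0 : 0 ≤ s - t := by linarith
  have h1 : s - t ≤ t / 32 := by linarith
  have h2 : Real.exp (s - t) - 1 ≤ 2 * (s - t) := by
    have h3 := Real.abs_exp_sub_one_le (x := s - t) (by rw [abs_of_nonneg h0]; linarith)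
    rw [abs_of_nonneg h0] at h3
    exact (le_abs_self _).trans h3
  have h3 := exp_le_three ht1
  have h4 : 0 ≤ Real.exp (s - t) - 1 := by
    have := Real.add_one_le_exp (s - t)
    linarith
  calc Real.exp t * (Real.exp (s - t) - 1) ≤ 3 * (2 * (s - t)) :=
        mul_le_mul h3 h2 h4 (by norm_num)
    _ ≤ t / 4 := by linarith

/-- chain -/
lemma chain {C0 c0 : ℝ} (K : KC C0 c0) {ψ : ℂ → ℂ} (hψ : DifferentiableOn ℂ ψ {z | 1 < ‖z‖})
    (hinj : InjOn ψ {z | 1 < ‖z‖}) (u : ℂ) (hu : ‖u‖ = 1) (t : ℝ) (ht : 0 < t) (k : ℕ) :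
    ∀ s : ℝ, t ≤ s → s ≤ 1 → s ≤ t * (1 + 1 / 32) ^ k →
    ‖deriv ψ (zt u s)‖ ≤ C0 ^ k * ‖deriv ψ (zt u t)‖ := by
  induction k with
  | zero =>
    intro s hts hs1 hs
    rw [pow_zero, mul_one] at hs
    have : s = t := le_antisymm hs hts
    rw [this, pow_zero, one_mul]
  | succ k ih =>
    intro s hts hs1 hs
    have hC0 : 0 ≤ C0 := le_trans zero_le_one K.one_le
    set s' := max t (s / (1 + 1 / 32)) with hs'
    have h1 : t ≤ s' := le_max_left _ _
    have h2 : s' ≤ s := by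
      refine max_le hts ?_
      rw [div_le_iff₀ (by norm_num)]
      nlinarith
    have h3 : s ≤ s' * (1 + 1 / 32) := by
      have : s / (1 + 1 / 32) ≤ s' := le_max_right _ _
      rwa [div_le_iff₀ (by norm_num)] at this
    have h4 : s' ≤ t * (1 + 1 / 32) ^ k := by
      refine max_le ?_ ?_
      · have : (1 : ℝ) ≤ (1 + 1 / 32) ^ k := one_le_pow₀ (by norm_num)
        nlinarith
      · rw [div_le_iff₀ (by norm_num), mul_assoc, ← pow_succ]
        exact hs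
    have h5 := ih s' h1 (h2.trans hs1) h4
    have h6 := step K hψ hinj u hu s' s (lt_of_lt_of_le ht h1) (h2.trans hs1) h2 h3
    calc ‖deriv ψ (zt u s)‖ ≤ C0 * ‖deriv ψ (zt u s')‖ := h6
      _ ≤ C0 * (C0 ^ k * ‖deriv ψ (zt u t)‖) := mul_le_mul_of_nonneg_left h5 hC0
      _ = _ := by ring

/-- real exponent -/
lemma chain' {C0 c0 : ℝ} (K : KC C0 c0) : ∃ N : ℝ, 0 ≤ N ∧ ∀ (ψ : ℂ → ℂ),
    DifferentiableOn ℂ ψ {z | 1 < ‖z‖} → InjOn ψ {z | 1 < ‖z‖} → ∀ (u : ℂ), ‖u‖ = 1 →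
    ∀ t l s : ℝ, 0 < t → 1 ≤ l → l * t ≤ 1 → t ≤ s → s ≤ l * t →
    ‖deriv ψ (zt u s)‖ ≤ C0 * l ^ N * ‖deriv ψ (zt u t)‖ := by
  have hq : (1 : ℝ) < 1 + 1 / 32 := by norm_num
  have hlq : 0 < Real.log (1 + 1 / 32) := Real.log_pos hq
  have hC0 := K.one_le
  have hC0' : 0 < C0 := by linarith
  refine ⟨Real.log C0 / Real.log (1 + 1 / 32), div_nonneg (Real.log_nonneg hC0) hlq.le, ?_⟩
  intro ψ hψ hinj u hu t l s ht hl hlt hts hsl
  set y := Real.log l / Real.log (1 + 1 / 32) with hy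
  have hy0 : 0 ≤ y := div_nonneg (Real.log_nonneg hl) hlq.le
  have hl0 : 0 < l := by linarith
  have h1 : l ≤ (1 + 1 / 32) ^ ⌈y⌉₊ := by
    rw [← Real.log_le_log_iff hl0 (by positivity), Real.log_pow]
    have h2 := Nat.le_ceil y
    rw [hy, div_le_iff₀ hlq] at h2
    exact h2
  have h2 : C0 ^ ⌈y⌉₊ ≤ C0 * l ^ (Real.log C0 / Real.log (1 + 1 / 32)) := by
    have h3 : (⌈y⌉₊ : ℝ) ≤ y + 1 := (Nat.ceil_lt_add_one hy0).le
    have h4 : C0 ^ ⌈y⌉₊ ≤ C0 ^ (y + 1) := by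
      rw [← Real.rpow_natCast]
      exact Real.rpow_le_rpow_of_exponent_le hC0 h3
    have h5 : C0 ^ (y + 1) = C0 * l ^ (Real.log C0 / Real.log (1 + 1 / 32)) := by
      rw [Real.rpow_add hC0', Real.rpow_one, mul_comm]
      congr 1
      rw [Real.rpow_def_of_pos hC0', Real.rpow_def_of_pos hl0, hy]
      congr 1
      ring
    rw [← h5]
    exact h4
  have h3 := chain K hψ hinj u hu t ht ⌈y⌉₊ s hts (hsl.trans hlt) (by
    rw [mul_comm]
    exact hsl.trans (mul_le_mul_of_nonneg_right h1 ht.le))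
  exact h3.trans (mul_le_mul_of_nonneg_right h2 (norm_nonneg _))

lemma hasDerivAt_zt (u : ℂ) (s : ℝ) : HasDerivAt (zt u) (zt u s) s := by
  unfold zt
  exact (Real.hasDerivAt_exp s).ofReal_comp.mul_const u

/-- mean value inequality along the ray -/
lemma mvt {ψ : ℂ → ℂ} (hψ : DifferentiableOn ℂ ψ {z | 1 < ‖z‖}) (u : ℂ) (hu : ‖u‖ = 1)
    (t s M : ℝ) (ht : 0 < t) (hts : t ≤ s) (hs1 : s ≤ 1)
    (hM : ∀ r, t ≤ r → r ≤ s → ‖deriv ψ (zt u r)‖ ≤ M) :
    ‖ψ (zt u s) - ψ (zt u t)‖ ≤ 3 * M * s := by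
  have hopen : IsOpen {z : ℂ | 1 < ‖z‖} := isOpen_lt continuous_const continuous_norm
  have hM0 : 0 ≤ M := (norm_nonneg _).trans (hM t le_rfl hts)
  have h1 : ∀ r ∈ Icc t s, HasDerivWithinAt (fun r => ψ (zt u r))
      (zt u r * deriv ψ (zt u r)) (Icc t s) r := by
    intro r hr
    have hr0 : 0 < r := lt_of_lt_of_le ht hr.1
    have hmem : zt u r ∈ {z : ℂ | 1 < ‖z‖} := ball_sub u hu r (mem_ball_self hr0)
    have h2 : HasDerivAt ψ (deriv ψ (zt u r)) (zt u r) :=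
      (hψ.differentiableAt (hopen.mem_nhds hmem)).hasDerivAt
    have h3 := h2.scomp r (hasDerivAt_zt u r)
    rw [smul_eq_mul] at h3
    exact h3.hasDerivWithinAt
  have h2 := Convex.norm_image_sub_le_of_norm_hasDerivWithin_le (C := 3 * M) h1 (by
    intro r hr
    rw [norm_mul, norm_zt u hu]
    exact mul_le_mul (exp_le_three (hr.2.trans hs1)) (hM r hr.1 hr.2) (norm_nonneg _) (by norm_num))
    (convex_Icc t s) (left_mem_Icc.2 hts) (right_mem_Icc.2 hts)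
  refine h2.trans ?_
  rw [Real.norm_eq_abs, abs_of_nonneg (by linarith)]
  refine mul_le_mul_of_nonneg_left (by linarith) (by positivity)

lemma tendsto_rpow (p : ℝ) (hp : 0 < p) :
    Tendsto (fun t : ℝ => t ^ p) (𝓝[>] (0 : ℝ)) (𝓝[>] (0 : ℝ)) := by
  rw [tendsto_nhdsWithin_iff]
  constructor
  · have h1 : Tendsto (fun t : ℝ => t ^ p) (𝓝 0) (𝓝 ((0 : ℝ) ^ p)) :=
      (Real.continuousAt_rpow_const 0 p (Or.inr hp.le)).tendsto
    rw [Real.zero_rpow hp.ne'] at h1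
    exact h1.mono_left nhdsWithin_le_nhds
  · filter_upwards [self_mem_nhdsWithin] with t ht
    exact Real.rpow_pos_of_pos ht p

lemma ev_small (p : ℝ) (hp : 0 < p) (c : ℝ) (hc : 0 < c) :
    ∀ᶠ t : ℝ in 𝓝[>] (0 : ℝ), t ^ p ≤ c := by
  have h1 := (tendsto_rpow p hp).mono_right nhdsWithin_le_nhds
  exact h1.eventually_le_const hc

end Derv

open Derv in
theorem t_DERV : S_DERV := by
  obtain ⟨C0, c0, K⟩ := exists_KC
  have hc0 := K.pos
  have hC0' := K.one_le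
  have hC0 : 0 < C0 := lt_of_lt_of_le one_pos K.one_le
  obtain ⟨N, hN0, hN⟩ := chain' K
  intro ψ hψ hinj u x E hu hE hx hF δ hδ
  have h01 : ∀ᶠ t : ℝ in 𝓝[>] (0 : ℝ), t ≤ 1 := by
    have := ev_small 1 one_pos 1 one_pos
    filter_upwards [this] with t ht
    rwa [Real.rpow_one] at ht
  refine Filter.Eventually.and ?_ ?_
  · -- lower bound
    set a : ℝ := min (1 / 2) (δ / (2 * (N + 1))) with ha
    have ha0 : 0 < a := lt_min (by norm_num) (by positivity)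
    have ha1 : a ≤ 1 / 2 := min_le_left _ _
    have ha2 : a * (N + 1) ≤ δ / 2 := by
      have h1 : a ≤ δ / (2 * (N + 1)) := min_le_right _ _
      rw [le_div_iff₀ (by positivity)] at h1
      linarith
    set η : ℝ := a * E / 4 with hη
    have hη0 : 0 < η := by positivity
    have hFη := hF η hη0
    have hF2 := (tendsto_rpow (1 - a) (by linarith)).eventually hFη
    filter_upwards [hFη, hF2, h01, self_mem_nhdsWithin, ev_small (2 * η) (by positivity) (1 / 2)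
      (by norm_num), ev_small (δ / 2) (by positivity) (1 / (6 * C0)) (by positivity)]
      with t h1 h2 ht1 ht h3 h4
    have ht0 : (0 : ℝ) < t := ht
    obtain ⟨-, h1⟩ := h1
    obtain ⟨h2, -⟩ := h2
    set l : ℝ := t ^ (-a) with hl
    have hl1 : 1 ≤ l := Real.one_le_rpow_of_pos_of_le_one_of_nonpos ht0 ht1 (by linarith)
    have hl0 : 0 < l := by linarith
    have hlt : l * t = t ^ (1 - a) := by
      rw [hl, ← Real.rpow_add_one ht0.ne']
      congr 1
      ring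
    have hlt1 : l * t ≤ 1 := by
      rw [hlt]
      exact Real.rpow_le_one ht0.le ht1 (by linarith)
    have htl : t ≤ l * t := by nlinarith
    -- mean value
    have h5 := mvt hψ u hu t (l * t) (C0 * l ^ N * ‖deriv ψ (zt u t)‖) ht0 htl hlt1
      (fun r hr1 hr2 => hN ψ hψ hinj u hu t l r ht0 hl1 hlt1 hr1 hr2)
    have h6 : ‖ψ (zt u (l * t)) - x‖ ≤ ‖ψ (zt u t) - x‖ + ‖ψ (zt u (l * t)) - ψ (zt u t)‖ := by
      have e : ψ (zt u (l * t)) - x = (ψ (zt u t) - x) + (ψ (zt u (l * t)) - ψ (zt u t)) := by ring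
      rw [e]
      exact norm_add_le _ _
    -- lower bound of `F (l t)`
    have h7 : t ^ (E - 3 * η) ≤ ‖ψ (zt u (l * t)) - x‖ := by
      have h8 : (t ^ (1 - a)) ^ (E + η) ≤ ‖ψ (zt u (l * t)) - x‖ := by
        rw [hlt]
        exact h2
      refine le_trans ?_ h8
      rw [← Real.rpow_mul ht0.le]
      apply Real.rpow_le_rpow_of_exponent_ge ht0 ht1
      have : 0 ≤ a * η := by positivity
      nlinarith
    have h8 : ‖ψ (zt u t) - x‖ ≤ t ^ (E - 3 * η) / 2 := by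
      refine le_trans (show ‖ψ (zt u t) - x‖ ≤ t ^ (E - η) from h1) ?_
      have e : t ^ (E - η) = t ^ (E - 3 * η) * t ^ (2 * η) := by
        rw [← Real.rpow_add ht0]
        congr 1
        ring
      rw [e]
      have : 0 ≤ t ^ (E - 3 * η) := Real.rpow_nonneg ht0.le _
      nlinarith
    have h9 : t ^ (E - 3 * η) / 2 ≤ 3 * C0 * (l ^ (N + 1) * t) * ‖deriv ψ (zt u t)‖ := by
      have e : 3 * (C0 * l ^ N * ‖deriv ψ (zt u t)‖) * (l * t) =
          3 * C0 * (l ^ (N + 1) * t) * ‖deriv ψ (zt u t)‖ := by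
        rw [Real.rpow_add_one hl0.ne']
        ring
      rw [e] at h5
      linarith
    have e10 : l ^ (N + 1) * t = t ^ (1 - a * (N + 1)) := by
      rw [hl, ← Real.rpow_mul ht0.le, ← Real.rpow_add_one ht0.ne']
      congr 1
      ring
    rw [e10] at h9
    show t ^ (E - 1 + δ) ≤ ‖deriv ψ (zt u t)‖
    have hp : 0 < t ^ (1 - a * (N + 1)) := Real.rpow_pos_of_pos ht0 _
    have h11 : 3 * C0 * t ^ (1 - a * (N + 1)) * t ^ (E - 1 + δ) ≤
        3 * C0 * t ^ (1 - a * (N + 1)) * ‖deriv ψ (zt u t)‖ := by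
      refine le_trans ?_ h9
      have e12 : t ^ (1 - a * (N + 1)) * t ^ (E - 1 + δ) =
          t ^ (E - 3 * η) * t ^ (δ + 3 * η - a * (N + 1)) := by
        rw [← Real.rpow_add ht0, ← Real.rpow_add ht0]
        congr 1
        ring
      have h13 : t ^ (δ + 3 * η - a * (N + 1)) ≤ 1 / (6 * C0) := by
        refine le_trans ?_ h4
        apply Real.rpow_le_rpow_of_exponent_ge ht0 ht1
        linarith
      have h14 : 0 ≤ t ^ (E - 3 * η) := Real.rpow_nonneg ht0.le _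
      calc 3 * C0 * t ^ (1 - a * (N + 1)) * t ^ (E - 1 + δ) =
          3 * C0 * (t ^ (1 - a * (N + 1)) * t ^ (E - 1 + δ)) := by ring
        _ = 3 * C0 * (t ^ (E - 3 * η) * t ^ (δ + 3 * η - a * (N + 1))) := by rw [e12]
        _ ≤ 3 * C0 * (t ^ (E - 3 * η) * (1 / (6 * C0))) := by gcongr
        _ = t ^ (E - 3 * η) / 2 := by field_simp; ring
    exact le_of_mul_le_mul_left h11 (by positivity)
  · -- upper bound
    filter_upwards [hF (δ / 2) (by positivity), h01, self_mem_nhdsWithin,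
      ev_small (δ / 2) (by positivity) c0 hc0] with t h1 ht1 ht h2
    have ht0 : (0 : ℝ) < t := ht
    obtain ⟨-, h1⟩ := h1
    have h3 := K.komit ψ (zt u t) t ht0 (univ_zt hψ hinj u hu t) x
      (fun w hw h => hx ⟨w, ball_sub u hu t hw, h⟩)
    have h4 : c0 * t * ‖deriv ψ (zt u t)‖ ≤ t ^ (E - δ / 2) := h3.trans h1
    show ‖deriv ψ (zt u t)‖ ≤ t ^ (E - 1 - δ)
    have h5 : c0 * t * ‖deriv ψ (zt u t)‖ ≤ c0 * t * t ^ (E - 1 - δ) := by
      refine h4.trans ?_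
      have e : t ^ (E - δ / 2) = t ^ (δ / 2) * (t * t ^ (E - 1 - δ)) := by
        rw [mul_comm t, ← Real.rpow_add_one ht0.ne', ← Real.rpow_add ht0]
        congr 1
        ring
      rw [e, mul_assoc]
      exact mul_le_mul_of_nonneg_right h2 (mul_nonneg ht0.le (Real.rpow_nonneg ht0.le _))
    exact le_of_mul_le_mul_left h5 (by positivity)

end Pool.Agent.N253.LC
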