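import Pool.Agent.N253.LC.Stm
import Pool.Agent.W746.LD.Koebe

/-!
# Project LC (helper253), task KOE: Koebe distortion near the circle (helper712)
-/

set_option autoImplicit false

open Metric Set

noncomputable section

namespace Pool.Agent.N253.LC

open Pool.Agent.W746.LD

namespace Koe

/-- one step -/
theorem step {C0 c0 : ℝ} (K : KC C0 c0) (φ : ℂ → ℂ) (z : ℂ) (r : ℝ) (hr : 0 < r)
    (hu : Univ φ z r) (x : ℂ) (hx : ∀ w ∈ ball z r, φ w ≠ x) (w : ℂ) (hw : ‖w - z‖ ≤ r / 4) :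
    ‖φ w - x‖ ≤ (1 + C0 / (4 * c0)) * ‖φ z - x‖ := by
  have hc0 := K.pos
  have hC0 : 0 < C0 := lt_of_lt_of_le one_pos K.one_le
  have h1 : ‖φ w - φ z‖ ≤ C0 * ‖deriv φ z‖ * ‖w - z‖ := by
    have hsub : closedBall z (r / 4) ⊆ ball z r := closedBall_subset_ball (by linarith)
    refine (convex_closedBall z (r / 4)).norm_image_sub_le_of_norm_deriv_le (𝕜 := ℂ)
      (fun y hy => ?_) (fun y hy => ?_) ?_ ?_
    · exact hu.1.differentiableAt (isOpen_ball.mem_nhds (hsub hy))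
    · exact (K.kdist φ z r hr hu y (by rwa [mem_closedBall, dist_eq_norm] at hy)).1
    · exact mem_closedBall_self (by positivity)
    · rwa [mem_closedBall, dist_eq_norm]
  have h2 := K.komit φ z r hr hu x hx
  have h3 : C0 * ‖deriv φ z‖ * ‖w - z‖ ≤ C0 / (4 * c0) * ‖φ z - x‖ := by
    have h4 : C0 * ‖deriv φ z‖ * ‖w - z‖ ≤ C0 * ‖deriv φ z‖ * (r / 4) :=
      mul_le_mul_of_nonneg_left hw (by positivity)
    have h5 : C0 * ‖deriv φ z‖ * (r / 4) = C0 / (4 * c0) * (c0 * r * ‖deriv φ z‖) := by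
      field_simp
    rw [h5] at h4
    exact h4.trans (mul_le_mul_of_nonneg_left h2 (by positivity))
  have h4 : φ w - x = (φ w - φ z) + (φ z - x) := by ring
  rw [h4]
  refine (norm_add_le _ _).trans ?_
  linarith

theorem norm_seg (t : ℝ) (w w' : ℂ) (ht : 0 < t) (ht8 : t ≤ 1 / 8) (hw : 1 + t ≤ ‖w‖)
    (hw' : 1 + t ≤ ‖w'‖) (hd : ‖w - w'‖ ≤ 4 * t) (s : ℝ) (hs : 0 ≤ s) (hs1 : s ≤ 1) :
    1 + t / 2 ≤ ‖w + (s : ℂ) * (w' - w)‖ := by
  have e1 : ‖w + (s : ℂ) * (w' - w)‖ ^ 2 = (1 - s) * ‖w‖ ^ 2 + s * ‖w'‖ ^ 2 -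
      s * (1 - s) * ‖w - w'‖ ^ 2 := by
    simp only [Complex.sq_norm, Complex.normSq_apply, Complex.add_re, Complex.add_im,
      Complex.mul_re, Complex.mul_im, Complex.sub_re, Complex.sub_im, Complex.ofReal_re,
      Complex.ofReal_im]
    ring
  have h1 : (1 + t) ^ 2 ≤ ‖w‖ ^ 2 := pow_le_pow_left₀ (by linarith) hw 2
  have h2 : (1 + t) ^ 2 ≤ ‖w'‖ ^ 2 := pow_le_pow_left₀ (by linarith) hw' 2
  have h3 : ‖w - w'‖ ^ 2 ≤ (4 * t) ^ 2 := pow_le_pow_left₀ (norm_nonneg _) hd 2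
  have h4 : s * (1 - s) ≤ 1 / 4 := by nlinarith [sq_nonneg (s - 1 / 2)]
  have h5 : 0 ≤ s * (1 - s) := mul_nonneg hs (by linarith)
  have h6 : s * (1 - s) * ‖w - w'‖ ^ 2 ≤ 1 / 4 * (4 * t) ^ 2 :=
    mul_le_mul h4 h3 (by positivity) (by norm_num)
  have h7 : (1 + t) ^ 2 ≤ (1 - s) * ‖w‖ ^ 2 + s * ‖w'‖ ^ 2 := by
    have a1 := mul_le_mul_of_nonneg_left h1 (by linarith : 0 ≤ 1 - s)
    have a2 := mul_le_mul_of_nonneg_left h2 hs
    nlinarith
  have h8 : (1 + t / 2) ^ 2 ≤ ‖w + (s : ℂ) * (w' - w)‖ ^ 2 := by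
    rw [e1]
    nlinarith
  exact le_of_sq_le_sq h8 (norm_nonneg _)

end Koe

open Koe in
theorem t_KOE : S_KOE := by
  obtain ⟨C0, c0, K⟩ := exists_KC
  have hc0 := K.pos
  have hC0 : 0 < C0 := lt_of_lt_of_le one_pos K.one_le
  set A : ℝ := 1 + C0 / (4 * c0) with hA
  have hA1 : 1 ≤ A := by
    have : 0 ≤ C0 / (4 * c0) := by positivity
    linarith
  have hA0 : 0 ≤ A := by linarith
  refine ⟨1 + A ^ 32, by
    have : 0 ≤ A ^ 32 := by positivity
    linarith, ?_⟩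
  intro ψ hψ hinj t w w' x ht ht8 hw hw' hd hx
  have key : ∀ i : ℕ, i ≤ 32 →
      ‖ψ (w + (((i : ℝ) / 32 : ℝ) : ℂ) * (w' - w)) - x‖ ≤ A ^ i * ‖ψ w - x‖ := by
    intro i
    induction i with
    | zero =>
      intro _
      simp
    | succ i ih =>
      intro hi
      have hi' : (i : ℝ) ≤ 31 := by exact_mod_cast (by omega : i ≤ 31)
      have ih' := ih (by omega)
      set z : ℂ := w + (((i : ℝ) / 32 : ℝ) : ℂ) * (w' - w) with hz
      have hzn : 1 + t / 2 ≤ ‖z‖ := norm_seg t w w' ht ht8 hw hw' hd _ (by positivity)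
        (by rw [div_le_one (by norm_num)]; linarith)
      have hsub : ball z (t / 2) ⊆ {z | 1 < ‖z‖} := by
        intro y hy
        rw [mem_ball, dist_eq_norm] at hy
        have h1 : ‖z‖ ≤ ‖y - z‖ + ‖y‖ := by
          have : z = -(y - z) + y := by ring
          calc ‖z‖ = ‖-(y - z) + y‖ := by rw [← this]
            _ ≤ ‖-(y - z)‖ + ‖y‖ := norm_add_le _ _
            _ = _ := by rw [norm_neg]
        show 1 < ‖y‖
        linarith
      have hu : Univ ψ z (t / 2) := ⟨hψ.mono hsub, hinj.mono hsub⟩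
      have hs := step K ψ z (t / 2) (by positivity) hu x
        (fun y hy h => hx ⟨y, hsub hy, h⟩) (w + ((((i + 1 : ℕ) : ℝ) / 32 : ℝ) : ℂ) * (w' - w)) ?_
      · refine hs.trans ?_
        rw [pow_succ']
        rw [mul_assoc]
        exact mul_le_mul_of_nonneg_left ih' hA0
      · have e : w + ((((i + 1 : ℕ) : ℝ) / 32 : ℝ) : ℂ) * (w' - w) - z =
            ((1 / 32 : ℝ) : ℂ) * (w' - w) := by
          rw [hz]
          push_cast
          ring
        rw [e, norm_mul, Complex.norm_real, norm_sub_rev]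
        have : ‖(1 / 32 : ℝ)‖ = 1 / 32 := by rw [Real.norm_eq_abs, abs_of_pos (by norm_num)]
        rw [this]
        linarith
  have h1 := key 32 le_rfl
  have e1 : w + ((((32 : ℕ) : ℝ) / 32 : ℝ) : ℂ) * (w' - w) = w' := by
    push_cast
    ring
  rw [e1] at h1
  have e2 : ψ w - ψ w' = (ψ w - x) - (ψ w' - x) := by ring
  rw [e2]
  refine (norm_sub_le _ _).trans ?_
  linarith

end Pool.Agent.N253.LC
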